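import Mathlib

/-!
# Strong shift equivalence for matrices with arbitrary finite index types
-/

set_option autoImplicit false

namespace Pool.Agent.U783.PT

open Matrix

/-- Nonnegative entries. -/
def NN {ι κ : Type} (A : Matrix ι κ ℤ) : Prop := ∀ i j, 0 ≤ A i j

/-- The relation generated by `R * S ~ S * R` for nonnegative integer `R`, `S`. -/
inductive QI : ∀ {ι κ : Type} [Fintype ι] [Fintype κ], Matrix ι ι ℤ → Matrix κ κ ℤ → Prop
  | refl {ι : Type} [Fintype ι] (A : Matrix ι ι ℤ) : QI A A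
  | move {ι κ : Type} [Fintype ι] [Fintype κ] (R : Matrix ι κ ℤ) (S : Matrix κ ι ℤ) :
      NN R → NN S → QI (R * S) (S * R)
  | trans {ι κ μ : Type} [Fintype ι] [Fintype κ] [Fintype μ] {A : Matrix ι ι ℤ}
      {B : Matrix κ κ ℤ} {C : Matrix μ μ ℤ} : QI A B → QI B C → QI A C

lemma QI.symm {ι κ : Type} [Fintype ι] [Fintype κ] {A : Matrix ι ι ℤ} {B : Matrix κ κ ℤ}
    (h : QI A B) : QI B A := by
  induction h with
  | refl A => exact QI.refl A
  | move R S hR hS => exact QI.move S R hS hR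
  | trans _ _ h1 h2 => exact QI.trans h2 h1

lemma QI.transpose {ι κ : Type} [Fintype ι] [Fintype κ] {A : Matrix ι ι ℤ} {B : Matrix κ κ ℤ}
    (h : QI A B) : QI Aᵀ Bᵀ := by
  induction h with
  | refl A => exact QI.refl _
  | move R S hR hS =>
    rw [Matrix.transpose_mul, Matrix.transpose_mul]
    exact QI.move _ _ (fun i j => hS j i) (fun i j => hR j i)
  | trans _ _ h1 h2 => exact QI.trans h1 h2

lemma QI.of_eq {ι : Type} [Fintype ι] {A B : Matrix ι ι ℤ} (h : A = B) : QI A B := by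
  rw [h]; exact QI.refl B

lemma NN.mul {ι κ μ : Type} [Fintype κ] {A : Matrix ι κ ℤ} {B : Matrix κ μ ℤ} (hA : NN A)
    (hB : NN B) : NN (A * B) := fun i j => by
  rw [Matrix.mul_apply]
  exact Finset.sum_nonneg fun k _ => mul_nonneg (hA i k) (hB k j)

/-- Elementary equivalence of square matrices over `ℕ`: `A = R S`, `B = S R` for rectangular
matrices `R`, `S` over `ℕ`. -/
def Elem (X Y : Σ n : ℕ, Matrix (Fin n) (Fin n) ℕ) : Prop :=
  ∃ (R : Matrix (Fin X.1) (Fin Y.1) ℕ) (S : Matrix (Fin Y.1) (Fin X.1) ℕ),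
    X.2 = R * S ∧ Y.2 = S * R

/-- Strong shift equivalence over `ℕ` (a finite chain of elementary equivalences). -/
def SSE {n m : ℕ} (A : Matrix (Fin n) (Fin n) ℕ) (B : Matrix (Fin m) (Fin m) ℕ) : Prop :=
  Relation.TransGen Elem ⟨n, A⟩ ⟨m, B⟩

/-- natural matrix of an integer matrix, with indices in `Fin`. -/
noncomputable def cv {ι : Type} [Fintype ι] (A : Matrix ι ι ℤ) :
    Σ n : ℕ, Matrix (Fin n) (Fin n) ℕ :=
  ⟨Fintype.card ι, (A.map Int.toNat).submatrix (Fintype.equivFin ι).symm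
    (Fintype.equivFin ι).symm⟩

lemma toNat_mul {ι κ μ : Type} [Fintype κ] (R : Matrix ι κ ℤ) (S : Matrix κ μ ℤ) (hR : NN R)
    (hS : NN S) : (R * S).map Int.toNat = R.map Int.toNat * S.map Int.toNat := by
  ext i j
  have h : ((((R * S).map Int.toNat) i j : ℕ) : ℤ) =
      ((R.map Int.toNat * S.map Int.toNat) i j : ℕ) := by
    rw [Matrix.map_apply, Int.toNat_of_nonneg ((hR.mul hS) i j), Matrix.mul_apply,
      Matrix.mul_apply]
    push_cast
    refine Finset.sum_congr rfl fun k _ => ?_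
    rw [Matrix.map_apply, Matrix.map_apply, Int.toNat_of_nonneg (hR i k),
      Int.toNat_of_nonneg (hS k j)]
  exact_mod_cast h

lemma elem_refl (X : Σ n : ℕ, Matrix (Fin n) (Fin n) ℕ) : Elem X X :=
  ⟨X.2, 1, by rw [Matrix.mul_one], by rw [Matrix.one_mul]⟩

lemma elem_mul {ι κ : Type} [Fintype ι] [Fintype κ] {k l : ℕ} (R : Matrix ι κ ℕ)
    (S : Matrix κ ι ℕ) (e : Fin k ≃ ι) (f : Fin l ≃ κ) :
    Elem ⟨k, (R * S).submatrix e e⟩ ⟨l, (S * R).submatrix f f⟩ := by
  refine ⟨R.submatrix e f, S.submatrix f e, ?_, ?_⟩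
  · show (R * S).submatrix e e = R.submatrix e f * S.submatrix f e
    rw [Matrix.submatrix_mul_equiv]
  · show (S * R).submatrix f f = S.submatrix f e * R.submatrix e f
    rw [Matrix.submatrix_mul_equiv]

lemma QI.cv {ι κ : Type} [Fintype ι] [Fintype κ] {A : Matrix ι ι ℤ} {B : Matrix κ κ ℤ}
    (h : QI A B) : Relation.TransGen Elem (PT.cv A) (PT.cv B) := by
  induction h with
  | refl A => exact Relation.TransGen.single (elem_refl _)
  | @move ι κ _ _ R S hR hS =>
    have h := elem_mul (R.map Int.toNat) (S.map Int.toNat) (Fintype.equivFin ι).symm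
      (Fintype.equivFin κ).symm
    unfold PT.cv
    rw [toNat_mul R S hR hS, toNat_mul S R hS hR]
    exact Relation.TransGen.single h
  | trans _ _ h1 h2 => exact h1.trans h2

lemma elem_sub {n k : ℕ} (A : Matrix (Fin n) (Fin n) ℕ) (e : Fin k ≃ Fin n) :
    Elem ⟨n, A⟩ ⟨k, A.submatrix e e⟩ := by
  refine ⟨A.submatrix id e, (1 : Matrix (Fin n) (Fin n) ℕ).submatrix e id, ?_, ?_⟩
  · show A = A.submatrix id e * (1 : Matrix (Fin n) (Fin n) ℕ).submatrix e id
    rw [Matrix.submatrix_mul_equiv, Matrix.mul_one]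
    rfl
  · show A.submatrix e e = (1 : Matrix (Fin n) (Fin n) ℕ).submatrix e id * A.submatrix id e
    rw [← Matrix.submatrix_mul _ _ _ id _ Function.bijective_id, Matrix.one_mul]

lemma elem_cv {n : ℕ} (A : Matrix (Fin n) (Fin n) ℕ) :
    Elem ⟨n, A⟩ (cv (A.map (Nat.cast : ℕ → ℤ))) := by
  have h2 : (A.map (Nat.cast : ℕ → ℤ)).map Int.toNat = A := by
    ext i j
    simp
  have h := elem_sub A (Fintype.equivFin (Fin n)).symm
  unfold cv
  rw [h2]
  exact h

lemma cv_elem {n : ℕ} (A : Matrix (Fin n) (Fin n) ℕ) :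
    Elem (cv (A.map (Nat.cast : ℕ → ℤ))) ⟨n, A⟩ := by
  obtain ⟨R, S, h1, h2⟩ := elem_cv A
  exact ⟨S, R, h2, h1⟩

lemma QI.sse {n m : ℕ} {A : Matrix (Fin n) (Fin n) ℕ} {B : Matrix (Fin m) (Fin m) ℕ}
    (h : QI (A.map (Nat.cast : ℕ → ℤ)) (B.map (Nat.cast : ℕ → ℤ))) : SSE A B :=
  ((Relation.TransGen.single (elem_cv A)).trans h.cv).trans (Relation.TransGen.single (cv_elem B))

end Pool.Agent.U783.PT
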