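import Pool.Agent.U783.PT.Good

/-!
# Chains of any length of integer `2 × 2` matrices
-/

set_option autoImplicit false

namespace Pool.Agent.U783.PT

open Matrix Filter Topology

/-- shift equivalence over `ℤ` through `R` (with `R` nonsingular the other two conditions follow) -/
def SEby {ν : Type} [Fintype ν] [DecidableEq ν] (R A B : Matrix ν ν ℤ) : Prop :=
  A * R = R * B ∧ ∃ (l : ℕ) (S : Matrix ν ν ℤ), A ^ l = R * S

lemma L2.of_Lk {ν : Type} [Fintype ν] [DecidableEq ν] {X : Matrix ν ν ℝ} {F F' : Fr ν}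
    (h : Lk X F.H F.Th F'.H F'.Th) : L2 X (fun A B => A = B) F F' := by
  obtain ⟨R, ε, hε, T, hT⟩ := h
  refine ⟨R, ε, hε, T, ?_⟩
  rintro t ht A B hA rfl N N' hN hN' e1 e2
  exact hT t ht A hA N N' hN hN' e1 e2

theorem good_links {R : Matrix (Fin 2) (Fin 2) ℤ} (hR : R.det ≠ 0)
    {X Ri : Matrix (Fin 2) (Fin 2) ℝ} (hRi : rl R * Ri = 1) {F F' : Fr (Fin 2)} (h : Good X F)
    (h' : Good (Ri * X * rl R) F') : L2 X (SEby R) F F' := by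
  have hRi' : Ri * rl R = 1 := mul_eq_one_comm.mp hRi
  obtain ⟨P, Q, hPQ, hB, hF, hvF⟩ := h
  have hPQ1 : P * rl R * (Ri * Q) = 1 := by
    rw [← Matrix.mul_assoc, Matrix.mul_assoc P, hRi, Matrix.mul_one, hPQ]
  have hB1 : PR (P * rl R * (Ri * X * rl R) * (Ri * Q)) := by
    have e : P * rl R * (Ri * X * rl R) * (Ri * Q) =
        P * (rl R * Ri) * X * (rl R * Ri) * Q := by
      simp only [Matrix.mul_assoc]
    rw [e, hRi, Matrix.mul_one, Matrix.mul_one]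
    exact hB
  obtain ⟨G, hG, hvG⟩ := exists_frame (P * rl R) (Ri * Q) (Ri * X * rl R) hPQ1 hB1
  have l1 := ladder R.det.natAbs R rfl hR X P Q Ri hPQ hB hRi F G hF hvF hG hvG
  have l2 := L2.of_Lk (Good.linked ⟨_, _, hPQ1, hB1, hG, hvG⟩ h')
  refine (L2.comp hvG (sz (rl R) * sz Ri) (mul_nonneg (sz_nonneg _) (sz_nonneg _)) ?_ l1
    l2).mono ?_
  · rintro ε t hε ht A A1 hA ⟨h1, -⟩
    refine near_lin hε ht Ri (rl R) hA ?_
    rw [Matrix.mul_assoc, ← rl_mul, h1, rl_mul, ← Matrix.mul_assoc, hRi', Matrix.one_mul]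
  · intro A B hAB
    exact ⟨B, hAB, rfl⟩

/-- uniform links -/
def U2 (K : Set (Matrix (Fin 2) (Fin 2) ℝ))
    (C : Matrix (Fin 2) (Fin 2) ℤ → Matrix (Fin 2) (Fin 2) ℤ → Prop) (F F' : Fr (Fin 2)) : Prop :=
  ∃ R T : ℝ, ∀ t : ℝ, T ≤ t → ∀ A B : Matrix (Fin 2) (Fin 2) ℤ, (∃ X ∈ K, rl A = t • X) →
    C A B → ∀ (N : Matrix F.η F.κ ℤ) (N' : Matrix F'.η F'.κ ℤ), (∀ i j, R ≤ N i j) →
      (∀ i j, R ≤ N' i j) → F.H * N * F.Th = A → F'.H * N' * F'.Th = B →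
      QI (F.Th * F.H * N) (F'.Th * F'.H * N')

lemma box_nhds (A0 : Matrix (Fin 2) (Fin 2) ℝ) (ε : ℝ) (hε : 0 < ε) :
    {Y : Matrix (Fin 2) (Fin 2) ℝ | ∀ i j, |Y i j - A0 i j| ≤ ε} ∈ 𝓝 A0 := by
  have h1 := ev_pos (fun Y : Matrix (Fin 2) (Fin 2) ℝ =>
    (fun i j => ε - |Y i j - A0 i j| : Matrix (Fin 2) (Fin 2) ℝ)) A0 (by
      apply Continuous.continuousAt
      refine continuous_matrix fun i j => ?_
      exact continuous_const.sub (((continuous_apply_apply i j).sub continuous_const).abs))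
    (by
      intro i j
      simpa using hε)
  filter_upwards [h1] with Y hY i j
  have := hY i j
  linarith

lemma near_of_box {A0 X : Matrix (Fin 2) (Fin 2) ℝ} {ε t : ℝ} (ht0 : 0 ≤ t)
    (hX : ∀ i j, |X i j - A0 i j| ≤ ε) {A : Matrix (Fin 2) (Fin 2) ℤ} (hX2 : rl A = t • X) :
    Near A0 ε t A := by
  intro i j
  have h3 := congrFun (congrFun hX2 i) j
  rw [rl_apply, Matrix.smul_apply, smul_eq_mul] at h3
  rw [h3, ← mul_sub, abs_mul, abs_of_nonneg ht0, mul_comm]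
  exact mul_le_mul_of_nonneg_right (hX i j) ht0

lemma unif {K : Set (Matrix (Fin 2) (Fin 2) ℝ)} (hK : IsCompact K)
    {C : Matrix (Fin 2) (Fin 2) ℤ → Matrix (Fin 2) (Fin 2) ℤ → Prop} {F F' : Fr (Fin 2)}
    (h : ∀ X ∈ K, L2 X C F F') : U2 K C F F' := by
  refine hK.induction_on (p := fun K => U2 K C F F') ?_ ?_ ?_ ?_
  · exact ⟨0, 0, fun t _ A B ⟨X, hX, _⟩ => absurd hX (Set.notMem_empty X)⟩
  · rintro s s' hs ⟨R, T, hT⟩
    exact ⟨R, T, fun t ht A B ⟨X, hX, hX2⟩ => hT t ht A B ⟨X, hs hX, hX2⟩⟩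
  · rintro s s' ⟨R, T, hT⟩ ⟨R', T', hT'⟩
    refine ⟨max R R', max T T', ?_⟩
    rintro t ht A B ⟨X, hX | hX, hX2⟩ hC N N' hN hN'
    · exact hT t ((le_max_left _ _).trans ht) A B ⟨X, hX, hX2⟩ hC N N'
        (fun i j => (le_max_left _ _).trans (hN i j))
        (fun i j => (le_max_left _ _).trans (hN' i j))
    · exact hT' t ((le_max_right _ _).trans ht) A B ⟨X, hX, hX2⟩ hC N N'
        (fun i j => (le_max_right _ _).trans (hN i j))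
        (fun i j => (le_max_right _ _).trans (hN' i j))
  · intro A0 hA0
    obtain ⟨R, ε, hε, T, hT⟩ := h A0 hA0
    refine ⟨_, mem_nhdsWithin_of_mem_nhds (box_nhds A0 ε hε), R, max 0 T, ?_⟩
    rintro t ht A B ⟨X, hX, hX2⟩ hC N N' hN hN'
    exact hT t ((le_max_right _ _).trans ht) A B
      (near_of_box ((le_max_left _ _).trans ht) hX hX2) hC N N'
      (fun i j => by exact_mod_cast hN i j) (fun i j => by exact_mod_cast hN' i j)

lemma unifE {K : Set (Matrix (Fin 2) (Fin 2) ℝ)} (hK : IsCompact K) {F : Fr (Fin 2)}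
    (h : ∀ X ∈ K, Val X F.H F.Th) (R : ℝ) : ∃ T : ℝ, ∀ t : ℝ, T ≤ t →
      ∀ A : Matrix (Fin 2) (Fin 2) ℤ, (∃ X ∈ K, rl A = t • X) →
      ∃ N : Matrix F.η F.κ ℤ, (∀ i j, R ≤ N i j) ∧ F.H * N * F.Th = A := by
  refine hK.induction_on (p := fun K => ∃ T : ℝ, ∀ t : ℝ, T ≤ t →
      ∀ A : Matrix (Fin 2) (Fin 2) ℤ, (∃ X ∈ K, rl A = t • X) →
      ∃ N : Matrix F.η F.κ ℤ, (∀ i j, R ≤ N i j) ∧ F.H * N * F.Th = A) ?_ ?_ ?_ ?_
  · exact ⟨0, fun t _ A ⟨X, hX, _⟩ => absurd hX (Set.notMem_empty X)⟩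
  · rintro s s' hs ⟨T, hT⟩
    exact ⟨T, fun t ht A ⟨X, hX, hX2⟩ => hT t ht A ⟨X, hs hX, hX2⟩⟩
  · rintro s s' ⟨T, hT⟩ ⟨T', hT'⟩
    refine ⟨max T T', ?_⟩
    rintro t ht A ⟨X, hX | hX, hX2⟩
    · exact hT t ((le_max_left _ _).trans ht) A ⟨X, hX, hX2⟩
    · exact hT' t ((le_max_right _ _).trans ht) A ⟨X, hX, hX2⟩
  · intro A0 hA0
    obtain ⟨M, hM, hM2⟩ := h A0 hA0
    obtain ⟨ε, hε, T, hT⟩ := exist F.H F.H' F.Th F.Th' F.hH F.hT A0 M hM hM2 ⌈R⌉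
    refine ⟨_, mem_nhdsWithin_of_mem_nhds (box_nhds A0 ε hε), max 0 T, ?_⟩
    rintro t ht A ⟨X, hX, hX2⟩
    obtain ⟨N, hN, hN2⟩ := hT t ((le_max_right _ _).trans ht) A
      (near_of_box ((le_max_left _ _).trans ht) hX hX2)
    exact ⟨N, fun i j => (Int.le_ceil R).trans (by exact_mod_cast hN i j), hN2⟩

/-- finitely many frames for a compact set -/
lemma cover {K : Set (Matrix (Fin 2) (Fin 2) ℝ)} (hK : IsCompact K)
    (h : ∀ X ∈ K, ∃ F, Good X F) : ∃ (ι : Type) (_ : Fintype ι) (F : ι → Fr (Fin 2))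
      (L : ι → Set (Matrix (Fin 2) (Fin 2) ℝ)), (∀ i, IsCompact (L i)) ∧
      (∀ i, ∀ X ∈ L i, Good X (F i)) ∧ ∀ X ∈ K, ∃ i, X ∈ L i := by
  have hloc : LocallyCompactSpace (Matrix (Fin 2) (Fin 2) ℝ) :=
    inferInstanceAs (LocallyCompactSpace (Fin 2 → Fin 2 → ℝ))
  have h1 : ∀ X ∈ K, ∃ (F : Fr (Fin 2)) (L : Set (Matrix (Fin 2) (Fin 2) ℝ)), L ∈ 𝓝 X ∧
      IsCompact L ∧ ∀ Y ∈ L, Good Y F := by
    intro X hX
    obtain ⟨F, hF⟩ := h X hX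
    obtain ⟨L, hL1, hL2, hL3⟩ := LocallyCompactSpace.local_compact_nhds X _ hF.open
    exact ⟨F, L, hL1, hL3, fun Y hY => hL2 hY⟩
  choose F L hL1 hL2 hL3 using h1
  obtain ⟨s, hs⟩ := hK.elim_nhds_subcover' L hL1
  refine ⟨{x // x ∈ s}, inferInstance, fun x => F x.1.1 x.1.2, fun x => L x.1.1 x.1.2,
    fun x => hL2 _ _, fun x => hL3 _ _, ?_⟩
  intro X hX
  have h2 := hs hX
  simp only [Set.mem_iUnion] at h2
  obtain ⟨x, hx, hx2⟩ := h2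
  exact ⟨⟨x, hx⟩, hx2⟩

/-- one step of a chain -/
def Step (k t : ℝ) (A B : Matrix (Fin 2) (Fin 2) ℤ) : Prop :=
  (∀ i j, |(A i j : ℝ)| ≤ k * t) ∧ (∀ i j, |(B i j : ℝ)| ≤ k * t) ∧
    ∃ R : Matrix (Fin 2) (Fin 2) ℤ, R.det ≠ 0 ∧ (∀ i j, |(R i j : ℝ)| ≤ k) ∧ SEby R A B

lemma SEby.inv {R A B : Matrix (Fin 2) (Fin 2) ℤ} (hR : R.det ≠ 0) (h : SEby R A B) :
    A 0 0 + A 1 1 = B 0 0 + B 1 1 ∧ A.det = B.det := by
  obtain ⟨h, -⟩ := h
  have e00 := congrFun (congrFun h 0) 0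
  have e01 := congrFun (congrFun h 0) 1
  have e10 := congrFun (congrFun h 1) 0
  have e11 := congrFun (congrFun h 1) 1
  simp only [Matrix.mul_apply, Fin.sum_univ_two] at e00 e01 e10 e11
  have hd := hR
  rw [Matrix.det_fin_two] at hd
  constructor
  · have h1 : (A 0 0 + A 1 1) * (R 0 0 * R 1 1 - R 0 1 * R 1 0) =
        (B 0 0 + B 1 1) * (R 0 0 * R 1 1 - R 0 1 * R 1 0) := by
      linear_combination R 1 1 * e00 - R 1 0 * e01 + R 0 0 * e11 - R 0 1 * e10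
    exact mul_right_cancel₀ hd h1
  · have h1 := congrArg Matrix.det h
    rw [Matrix.det_mul, Matrix.det_mul, mul_comm] at h1
    exact mul_left_cancel₀ hR h1

/-- the frame `(1, 1)` -/
def F1 : Fr (Fin 2) :=
  ⟨Fin 2, Fin 2, inferInstance, inferInstance, ⟨0⟩, ⟨0⟩, 1, 1, 1, 1, by simp, by simp⟩

lemma Good.end {X : Matrix (Fin 2) (Fin 2) ℝ} (hX : PR X) {F : Fr (Fin 2)} (h : Good X F) :
    L2 X (fun A B => A = B) F1 F := by
  apply L2.of_Lk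
  obtain ⟨G, hG, hvG, hl⟩ := lk_end (1 : Matrix (Fin 2) (Fin 2) ℤ) 1 X (by simp) (by
    rw [rl_one]; simpa using hX)
  rw [rl_one] at hG
  exact Lk.trans G.H' G.Th' G.hH G.hT hvG hl
    (Good.linked ⟨1, 1, by simp, by simpa using hX, hG, hvG⟩ h)

theorem chain (δ k : ℝ) (hδ : 0 < δ) : ∃ T : ℝ, ∀ t : ℝ, T ≤ t →
    ∀ A B : Matrix (Fin 2) (Fin 2) ℤ, (∀ i j, |(A i j : ℝ)| ≤ k * t) →
      (∀ i j, δ * t ≤ A i j) → (∀ i j, δ * t ≤ B i j) →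
      Relation.ReflTransGen (Step k t) A B → QI A B := by
  obtain ⟨𝒜, h𝒜⟩ : ∃ 𝒜 : Set (Matrix (Fin 2) (Fin 2) ℝ), 𝒜 = {X | ∀ i j, -k ≤ X i j ∧ X i j ≤ k} ∩
      {X | 2 * δ ≤ X 0 0 + X 1 1 ∧ 4 * δ ^ 2 ≤ (X 0 0 - X 1 1) ^ 2 + 4 * X 0 1 * X 1 0} :=
    ⟨_, rfl⟩
  have hAc : IsCompact 𝒜 := by
    rw [h𝒜]
    refine IsCompact.inter_right ?_ ?_
    · have h1 : IsCompact (Set.Icc (fun _ _ => -k) (fun _ _ => k) : Set (Fin 2 → Fin 2 → ℝ)) :=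
        isCompact_Icc
      have e : ({X | ∀ i j, -k ≤ X i j ∧ X i j ≤ k} : Set (Matrix (Fin 2) (Fin 2) ℝ)) =
          (Set.Icc (fun _ _ => -k) (fun _ _ => k) : Set (Fin 2 → Fin 2 → ℝ)) := by
        ext X
        exact ⟨fun h => ⟨fun i j => (h i j).1, fun i j => (h i j).2⟩,
          fun h i j => ⟨h.1 i j, h.2 i j⟩⟩
      rw [e]
      exact h1
    · have c : ∀ i j, Continuous (fun X : Matrix (Fin 2) (Fin 2) ℝ => X i j) := fun i j =>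
        continuous_apply_apply i j
      have h1 : IsClosed {X : Matrix (Fin 2) (Fin 2) ℝ | 2 * δ ≤ X 0 0 + X 1 1} :=
        isClosed_le continuous_const ((c 0 0).add (c 1 1))
      have h2 : IsClosed {X : Matrix (Fin 2) (Fin 2) ℝ |
          4 * δ ^ 2 ≤ (X 0 0 - X 1 1) ^ 2 + 4 * X 0 1 * X 1 0} :=
        isClosed_le continuous_const
          ((((c 0 0).sub (c 1 1)).pow 2).add ((continuous_const.mul (c 0 1)).mul (c 1 0)))
      exact h1.inter h2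
  obtain ⟨ι, hι, F, L, hL1, hL2, hL3⟩ := cover hAc (by
    intro X hX
    rw [h𝒜] at hX
    exact exists_good X (by linarith [hX.2.1]) (by
      have h1 : 0 < 4 * δ ^ 2 := by positivity
      linarith [hX.2.2]))
  have hfin : Finite {R : Matrix (Fin 2) (Fin 2) ℤ // R.det ≠ 0 ∧ ∀ i j, |(R i j : ℝ)| ≤ k} := by
    have h1 : (Set.Icc (fun _ _ => -⌈k⌉ : Fin 2 → Fin 2 → ℤ) (fun _ _ => ⌈k⌉)).Finite :=
      Set.finite_Icc _ _
    refine (h1.subset ?_ : {R : Matrix (Fin 2) (Fin 2) ℤ | R.det ≠ 0 ∧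
      ∀ i j, |(R i j : ℝ)| ≤ k}.Finite)
    rintro R ⟨-, hR⟩
    have h2 : ∀ i j, |R i j| ≤ ⌈k⌉ := by
      intro i j
      have h3 := (hR i j).trans (Int.le_ceil k)
      exact_mod_cast h3
    exact ⟨fun i j => (abs_le.mp (h2 i j)).1, fun i j => (abs_le.mp (h2 i j)).2⟩
  have hft := Fintype.ofFinite
    {R : Matrix (Fin 2) (Fin 2) ℤ // R.det ≠ 0 ∧ ∀ i j, |(R i j : ℝ)| ≤ k}
  -- links
  have links : ∀ p : ι × ι ×
      {R : Matrix (Fin 2) (Fin 2) ℤ // R.det ≠ 0 ∧ ∀ i j, |(R i j : ℝ)| ≤ k},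
      U2 (L p.1 ∩ {X | (rl p.2.2.1)⁻¹ * X * rl p.2.2.1 ∈ L p.2.1}) (SEby p.2.2.1) (F p.1)
        (F p.2.1) := by
    rintro ⟨i, j, R, hR, hRk⟩
    simp only
    have hRi : rl R * (rl R)⁻¹ = 1 := by
      obtain ⟨Ri, hRi⟩ := real_inv R hR
      rwa [Matrix.inv_eq_right_inv hRi]
    refine unif ((hL1 i).inter_right ?_) ?_
    · exact (hL1 j).isClosed.preimage
        ((continuous_const.matrix_mul continuous_id).matrix_mul continuous_const)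
    · rintro X ⟨hX1, hX2⟩
      exact good_links hR hRi (hL2 i X hX1) (hL2 j _ hX2)
  have ends : ∀ i, U2 (L i ∩ {X | ∀ a b, δ ≤ X a b}) (fun A B => A = B) F1 (F i) := by
    intro i
    refine unif ((hL1 i).inter_right ?_) ?_
    · have e : {X : Matrix (Fin 2) (Fin 2) ℝ | ∀ a b, δ ≤ X a b} =
          ⋂ a, ⋂ b, {X | δ ≤ X a b} := by
        ext X
        simp
      rw [e]
      exact isClosed_iInter fun a => isClosed_iInter fun b =>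
        isClosed_le continuous_const (continuous_apply_apply a b)
    · rintro X ⟨hX1, hX2⟩
      exact Good.end (fun a b => hδ.trans_le (hX2 a b)) (hL2 i X hX1)
  choose R1 T1 hT1 using links
  choose R2 T2 hT2 using ends
  obtain ⟨Rs, hRs⟩ : ∃ Rs, Rs = ∑ p, |R1 p| + ∑ i, |R2 i| := ⟨_, rfl⟩
  have hex := fun i => unifE (hL1 i) (F := F i) (fun X hX => by
    obtain ⟨P, Q, -, -, -, h⟩ := hL2 i X hX
    exact h) Rs
  choose T3 hT3 using hex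
  have hR1 : ∀ p, R1 p ≤ Rs := by
    intro p
    have h1 : |R1 p| ≤ ∑ p, |R1 p| :=
      Finset.single_le_sum (f := fun p => |R1 p|) (fun _ _ => abs_nonneg _) (Finset.mem_univ p)
    have h2 : 0 ≤ ∑ i, |R2 i| := Finset.sum_nonneg fun _ _ => abs_nonneg _
    have h3 := le_abs_self (R1 p)
    rw [hRs]; linarith
  have hR2 : ∀ i, R2 i ≤ Rs := by
    intro i
    have h1 : |R2 i| ≤ ∑ i, |R2 i| :=
      Finset.single_le_sum (f := fun i => |R2 i|) (fun _ _ => abs_nonneg _) (Finset.mem_univ i)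
    have h2 : 0 ≤ ∑ p, |R1 p| := Finset.sum_nonneg fun _ _ => abs_nonneg _
    have h3 := le_abs_self (R2 i)
    rw [hRs]; linarith
  refine ⟨1 + ∑ p, |T1 p| + ∑ i, |T2 i| + ∑ i, |T3 i| + |Rs| / δ, ?_⟩
  intro t ht A B hAk hA hB hAB
  have n1 : 0 ≤ ∑ p, |T1 p| := Finset.sum_nonneg fun _ _ => abs_nonneg _
  have n2 : 0 ≤ ∑ i, |T2 i| := Finset.sum_nonneg fun _ _ => abs_nonneg _
  have n3 : 0 ≤ ∑ i, |T3 i| := Finset.sum_nonneg fun _ _ => abs_nonneg _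
  have n4 : 0 ≤ |Rs| / δ := by positivity
  have hT1t : ∀ p, T1 p ≤ t := by
    intro p
    have h1 : |T1 p| ≤ ∑ p, |T1 p| :=
      Finset.single_le_sum (f := fun p => |T1 p|) (fun _ _ => abs_nonneg _) (Finset.mem_univ p)
    have h3 := le_abs_self (T1 p)
    linarith
  have hT2t : ∀ i, T2 i ≤ t := by
    intro i
    have h1 : |T2 i| ≤ ∑ i, |T2 i| :=
      Finset.single_le_sum (f := fun i => |T2 i|) (fun _ _ => abs_nonneg _) (Finset.mem_univ i)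
    have h3 := le_abs_self (T2 i)
    linarith
  have hT3t : ∀ i, T3 i ≤ t := by
    intro i
    have h1 : |T3 i| ≤ ∑ i, |T3 i| :=
      Finset.single_le_sum (f := fun i => |T3 i|) (fun _ _ => abs_nonneg _) (Finset.mem_univ i)
    have h3 := le_abs_self (T3 i)
    linarith
  have ht0 : 0 < t := by linarith
  have hRst : Rs ≤ δ * t := by
    have h1 : |Rs| / δ ≤ t := by linarith
    rw [div_le_iff₀ hδ] at h1
    have := le_abs_self Rs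
    linarith
  have hsm : ∀ C : Matrix (Fin 2) (Fin 2) ℤ, rl C = t • (t⁻¹ • rl C) := by
    intro C
    rw [smul_smul, mul_inv_cancel₀ ht0.ne', one_smul]
  -- membership in 𝒜
  have hmem : ∀ C : Matrix (Fin 2) (Fin 2) ℤ, (∀ i j, |(C i j : ℝ)| ≤ k * t) →
      A 0 0 + A 1 1 = C 0 0 + C 1 1 → A.det = C.det → t⁻¹ • rl C ∈ 𝒜 := by
    intro C hC htr hdet
    rw [h𝒜]
    have e : ∀ i j, (t⁻¹ • rl C) i j = t⁻¹ * (C i j : ℝ) := by
      intro i j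
      rw [Matrix.smul_apply, rl_apply, smul_eq_mul]
    have htr' : (A 0 0 : ℝ) + A 1 1 = C 0 0 + C 1 1 := by exact_mod_cast htr
    have hdet' : (A 0 0 : ℝ) * A 1 1 - A 0 1 * A 1 0 = C 0 0 * C 1 1 - C 0 1 * C 1 0 := by
      rw [Matrix.det_fin_two, Matrix.det_fin_two] at hdet
      exact_mod_cast hdet
    have hti : 0 < t⁻¹ := inv_pos.mpr ht0
    have htt : t⁻¹ * t = 1 := inv_mul_cancel₀ ht0.ne'
    refine ⟨fun i j => ?_, ?_, ?_⟩
    · rw [e, ← abs_le, abs_mul, abs_of_pos hti]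
      calc t⁻¹ * |(C i j : ℝ)| ≤ t⁻¹ * (k * t) := mul_le_mul_of_nonneg_left (hC i j) hti.le
        _ = k := by rw [mul_comm k t, ← mul_assoc, htt, one_mul]
    · rw [e, e, ← mul_add, ← htr']
      calc 2 * δ = t⁻¹ * (δ * t + δ * t) := by
            linear_combination (-2 * δ) * htt
        _ ≤ _ := mul_le_mul_of_nonneg_left (add_le_add (hA 0 0) (hA 1 1)) hti.le
    · have h1 : (t⁻¹ * (C 0 0 : ℝ) - t⁻¹ * C 1 1) ^ 2 + 4 * (t⁻¹ * C 0 1) * (t⁻¹ * C 1 0) =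
          t⁻¹ ^ 2 * (((A 0 0 : ℝ) - A 1 1) ^ 2 + 4 * (A 0 1 * A 1 0)) := by
        have h2 : ((A 0 0 : ℝ) - A 1 1) ^ 2 + 4 * (A 0 1 * A 1 0) =
            ((A 0 0 : ℝ) + A 1 1) ^ 2 - 4 * (A 0 0 * A 1 1 - A 0 1 * A 1 0) := by ring
        rw [h2, htr', hdet']
        ring
      rw [e, e, e, e, h1]
      have h3 : (δ * t) * (δ * t) ≤ (A 0 1 : ℝ) * A 1 0 :=
        mul_le_mul (hA 0 1) (hA 1 0) (by positivity) ((by positivity : 0 ≤ δ * t).trans (hA 0 1))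
      have h4 : 4 * ((δ * t) * (δ * t)) ≤ ((A 0 0 : ℝ) - A 1 1) ^ 2 + 4 * (A 0 1 * A 1 0) := by
        nlinarith [sq_nonneg ((A 0 0 : ℝ) - A 1 1)]
      calc 4 * δ ^ 2 = t⁻¹ ^ 2 * (4 * ((δ * t) * (δ * t))) := by
            field_simp
        _ ≤ _ := mul_le_mul_of_nonneg_left h4 (by positivity)
  have hdeep : ∀ C : Matrix (Fin 2) (Fin 2) ℤ, (∀ i j, δ * t ≤ C i j) → ∀ i j, Rs ≤ C i j :=
    fun C hC i j => hRst.trans (hC i j)
  have hstart : ∀ C : Matrix (Fin 2) (Fin 2) ℤ, (∀ a b, δ * t ≤ C a b) → ∀ i,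
      t⁻¹ • rl C ∈ L i → ∀ N : Matrix (F i).η (F i).κ ℤ, (∀ a b, Rs ≤ N a b) →
      (F i).H * N * (F i).Th = C → QI C ((F i).Th * (F i).H * N) := by
    intro C hC i hi N hN hN2
    have hmemC : ∀ a b, δ ≤ (t⁻¹ • rl C) a b := by
      intro a b
      rw [Matrix.smul_apply, rl_apply, smul_eq_mul, inv_mul_eq_div, le_div_iff₀ ht0]
      exact hC a b
    have e1 : (1 : Matrix (Fin 2) (Fin 2) ℤ) * C * (1 : Matrix (Fin 2) (Fin 2) ℤ) = C := by simp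
    have h : QI ((1 : Matrix (Fin 2) (Fin 2) ℤ) * (1 : Matrix (Fin 2) (Fin 2) ℤ) * C)
        ((F i).Th * (F i).H * N) :=
      hT2 i t (hT2t i) C C ⟨t⁻¹ • rl C, ⟨hi, hmemC⟩, hsm C⟩ rfl C N
      (fun a b => (hR2 i).trans (hdeep C hC a b)) (fun a b => (hR2 i).trans (hN a b)) e1 hN2
    have e : (1 : Matrix (Fin 2) (Fin 2) ℤ) * (1 : Matrix (Fin 2) (Fin 2) ℤ) * C = C := by simp
    exact (QI.of_eq e.symm).trans h
  have key : ∀ C, Relation.ReflTransGen (Step k t) A C →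
      ((∀ i j, |(C i j : ℝ)| ≤ k * t) ∧ A 0 0 + A 1 1 = C 0 0 + C 1 1 ∧ A.det = C.det) ∧
      ∀ i, t⁻¹ • rl C ∈ L i → ∀ N : Matrix (F i).η (F i).κ ℤ, (∀ a b, Rs ≤ N a b) →
      (F i).H * N * (F i).Th = C → QI A ((F i).Th * (F i).H * N) := by
    intro C hC
    induction hC with
    | refl => exact ⟨⟨hAk, rfl, rfl⟩, hstart A hA⟩
    | @tail C D hC hCD ih =>
      obtain ⟨⟨ih1, ih2, ih3⟩, ih4⟩ := ih
      obtain ⟨-, hD, R, hR, hRk, hse⟩ := hCD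
      obtain ⟨hs1, hs2⟩ := hse.inv hR
      refine ⟨⟨hD, ih2.trans hs1, ih3.trans hs2⟩, ?_⟩
      intro j hj N' hN' hN'2
      obtain ⟨i, hi⟩ := hL3 _ (hmem C ih1 ih2 ih3)
      obtain ⟨N, hN, hN2⟩ := hT3 i t (hT3t i) C ⟨_, hi, hsm C⟩
      refine (ih4 i hi N hN hN2).trans ?_
      have hRi : (rl R)⁻¹ * rl R = 1 := by
        obtain ⟨Ri, hRi⟩ := real_inv R hR
        rw [Matrix.inv_eq_right_inv hRi]
        exact mul_eq_one_comm.mp hRi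
      refine hT1 ⟨i, j, R, hR, hRk⟩ t (hT1t _) C D ⟨t⁻¹ • rl C, ⟨hi, ?_⟩, hsm C⟩ hse N N'
        (fun a b => (hR1 _).trans (hN a b)) (fun a b => (hR1 _).trans (hN' a b)) hN2 hN'2
      show (rl R)⁻¹ * (t⁻¹ • rl C) * rl R ∈ L j
      have e : (rl R)⁻¹ * (t⁻¹ • rl C) * rl R = t⁻¹ • rl D := by
        rw [Matrix.mul_smul, Matrix.smul_mul, Matrix.mul_assoc, ← rl_mul, hse.1, rl_mul,
          ← Matrix.mul_assoc, hRi, Matrix.one_mul]
      rw [e]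
      exact hj
  obtain ⟨⟨k1, k2, k3⟩, k4⟩ := key B hAB
  obtain ⟨j, hj⟩ := hL3 _ (hmem B k1 k2 k3)
  obtain ⟨N, hN, hN2⟩ := hT3 j t (hT3t j) B ⟨_, hj, hsm B⟩
  exact (k4 j hj N hN hN2).trans (hstart B hB j hj N hN hN2).symm

end Pool.Agent.U783.PT
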