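import Pool.Agent.U783.PT.Exist

/-!
# Integer generating systems of an open simplicial cone
-/

set_option autoImplicit false

namespace Pool.Agent.U783.PT

open Matrix Filter Topology

lemma ev_pos {α ι κ : Type} [Finite ι] [Finite κ] [TopologicalSpace α] (f : α → Matrix ι κ ℝ)
    (a : α) (hf : ContinuousAt f a) (h : PR (f a)) : ∀ᶠ x in 𝓝 a, PR (f x) := by
  unfold PR
  rw [Filter.eventually_all]
  intro i
  rw [Filter.eventually_all]
  intro j
  have h1 : ContinuousAt (fun x => f x i j) a :=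
    ((continuous_apply_apply i j).continuousAt (x := f a)).comp hf
  exact h1.eventually (lt_mem_nhds (h i j))

lemma contAt_inv {ν : Type} [Fintype ν] [DecidableEq ν] (M : Matrix ν ν ℝ) (h : M.det ≠ 0) :
    ContinuousAt (fun M : Matrix ν ν ℝ => M⁻¹) M := by
  have e : (fun M : Matrix ν ν ℝ => M⁻¹) = fun M => (M.det)⁻¹ • M.adjugate := by
    ext1 M
    rw [Matrix.inv_def, Ring.inverse_eq_inv']
  rw [e]
  exact (continuous_id.matrix_det.continuousAt.inv₀ h).smul
    continuous_id.matrix_adjugate.continuousAt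

lemma tendsto_floor {ν : Type} [Fintype ν] (H0 : Matrix ν ν ℝ) :
    Tendsto (fun s : ℕ => (s : ℝ)⁻¹ • rl (fun i j => ⌊(s : ℝ) * H0 i j⌋)) atTop (𝓝 H0) := by
  refine tendsto_pi_nhds.mpr fun i => tendsto_pi_nhds.mpr fun j => ?_
  have h1 : Tendsto (fun s : ℕ => H0 i j - (s : ℝ)⁻¹) atTop (𝓝 (H0 i j)) := by
    have h := (tendsto_inv_atTop_nhds_zero_nat (𝕜 := ℝ)).const_sub (H0 i j)
    rwa [sub_zero] at h
  refine tendsto_of_tendsto_of_tendsto_of_le_of_le' h1 tendsto_const_nhds ?_ ?_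
  · filter_upwards [eventually_gt_atTop 0] with s hs
    have hs0 : (0 : ℝ) < s := by exact_mod_cast hs
    rw [Matrix.smul_apply, rl_apply, smul_eq_mul]
    have h2 := (Int.lt_floor_add_one ((s : ℝ) * H0 i j)).le
    have h3 := mul_le_mul_of_nonneg_left h2 (inv_nonneg.mpr hs0.le)
    rw [← mul_assoc, inv_mul_cancel₀ hs0.ne', one_mul, mul_add, mul_one] at h3
    linarith
  · filter_upwards [eventually_gt_atTop 0] with s hs
    have hs0 : (0 : ℝ) < s := by exact_mod_cast hs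
    rw [Matrix.smul_apply, rl_apply, smul_eq_mul]
    have h3 := mul_le_mul_of_nonneg_left (Int.floor_le ((s : ℝ) * H0 i j))
      (inv_nonneg.mpr hs0.le)
    rw [← mul_assoc, inv_mul_cancel₀ hs0.ne', one_mul] at h3
    exact h3

variable {ν : Type} [Fintype ν] [DecidableEq ν] [Nonempty ν]

/-- an integer matrix approximating the cone -/
lemma approx {μ : Type} [Fintype μ] (P Q : Matrix ν ν ℝ) (hPQ : P * Q = 1)
    (X : Matrix ν μ ℝ) (hX : PR (P * X)) :
    ∃ (H : Matrix ν ν ℤ) (G : Matrix ν ν ℝ), PR (P * rl H) ∧ rl H * G = 1 ∧ PR (G * X) := by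
  obtain ⟨J, hJ⟩ : ∃ J : Matrix ν ν ℝ, J = fun _ _ => 1 := ⟨_, rfl⟩
  have hQP : Q * P = 1 := mul_eq_one_comm.mp hPQ
  have hQd : Q.det ≠ 0 := by
    intro h
    have h1 := congrArg Matrix.det hPQ
    rw [Matrix.det_mul, h, mul_zero, Matrix.det_one] at h1
    exact zero_ne_one h1
  have hQi : Q⁻¹ = P := Matrix.inv_eq_left_inv hPQ
  have c0 : Continuous (fun ε : ℝ => Q * (1 + ε • J)) :=
    continuous_const.matrix_mul (continuous_const.add (continuous_id.smul continuous_const))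
  have e1 : ∀ᶠ ε in 𝓝 (0 : ℝ), PR ((Q * (1 + ε • J))⁻¹ * X) := by
    have h := ev_pos (fun ε : ℝ => (Q * (1 + ε • J))⁻¹ * X) 0 ?_ ?_
    · exact h
    · have h1 : ContinuousAt (fun ε : ℝ => (Q * (1 + ε • J))⁻¹) 0 := by
        refine ContinuousAt.comp (g := fun M : Matrix ν ν ℝ => M⁻¹) ?_ c0.continuousAt
        apply contAt_inv
        simpa using hQd
      exact (continuous_id.matrix_mul continuous_const).continuousAt.comp h1
    · simpa [hQi] using hX
  have e2 : ∀ᶠ ε in 𝓝 (0 : ℝ), (Q * (1 + ε • J)).det ≠ 0 := by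
    have h1 : ContinuousAt (fun ε : ℝ => (Q * (1 + ε • J)).det) 0 :=
      c0.matrix_det.continuousAt
    refine h1.eventually_ne ?_
    simpa using hQd
  obtain ⟨ε, ⟨hε1, hε2⟩, hε3⟩ := (((e1.and e2).filter_mono nhdsWithin_le_nhds).and
    (self_mem_nhdsWithin (a := (0 : ℝ)) (s := Set.Ioi 0))).exists
  have hε : (0 : ℝ) < ε := hε3
  obtain ⟨H0, hH0⟩ : ∃ H0 : Matrix ν ν ℝ, H0 = Q * (1 + ε • J) := ⟨_, rfl⟩
  rw [← hH0] at hε1 hε2
  have hPH0 : PR (P * H0) := by
    intro i j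
    rw [hH0, ← Matrix.mul_assoc, hPQ, Matrix.one_mul, Matrix.add_apply, Matrix.smul_apply, hJ,
      Matrix.one_apply]
    split_ifs <;> simp <;> linarith
  have f1 : ∀ᶠ M in 𝓝 H0, PR (P * M) := ev_pos (fun M => P * M) H0
    (continuous_const.matrix_mul continuous_id).continuousAt hPH0
  have f2 : ∀ᶠ M in 𝓝 H0, PR (M⁻¹ * X) := ev_pos (fun M => M⁻¹ * X) H0
    ((continuous_id.matrix_mul continuous_const).continuousAt.comp (contAt_inv H0 hε2)) hε1
  have f3 : ∀ᶠ M : Matrix ν ν ℝ in 𝓝 H0, M.det ≠ 0 :=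
    continuous_id.matrix_det.continuousAt.eventually_ne hε2
  obtain ⟨s, ⟨⟨hs1, hs2⟩, hs3⟩, hs4⟩ := (((tendsto_floor H0).eventually
    ((f1.and f2).and f3)).and (eventually_gt_atTop 0)).exists
  have hs0 : (0 : ℝ) < s := by exact_mod_cast hs4
  obtain ⟨H, hH⟩ : ∃ H : Matrix ν ν ℤ, H = fun i j => ⌊(s : ℝ) * H0 i j⌋ := ⟨_, rfl⟩
  rw [← hH] at hs1 hs2 hs3
  refine ⟨H, (s : ℝ)⁻¹ • ((s : ℝ)⁻¹ • rl H)⁻¹, ?_, ?_, ?_⟩
  · intro i j
    have h := hs1 i j
    rw [Matrix.mul_smul, Matrix.smul_apply, smul_eq_mul] at h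
    exact (pos_iff_pos_of_mul_pos h).mp (by positivity)
  · rw [Matrix.mul_smul, ← Matrix.smul_mul]
    exact Matrix.mul_nonsing_inv _ (isUnit_iff_ne_zero.mpr hs3)
  · intro i j
    rw [Matrix.smul_mul, Matrix.smul_apply, smul_eq_mul]
    exact mul_pos (by positivity) (hs2 i j)

/-- integer vectors `h`, `h + e_j` generate `ℤ^ν`. -/
def Cm (h : ν → ℤ) : Matrix ν (Option ν) ℤ :=
  fun i o => h i + o.elim 0 (fun j => if i = j then 1 else 0)

/-- right inverse of `Cm h` -/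
def Dm : Matrix (Option ν) ν ℤ :=
  fun o j => o.elim (-1) (fun k => if k = j then 1 else 0)

omit [Nonempty ν] in
lemma Cm_Dm (h : ν → ℤ) : Cm h * (Dm : Matrix (Option ν) ν ℤ) = 1 := by
  ext i j
  rw [Matrix.mul_apply, Fintype.sum_option]
  simp only [Cm, Dm, Option.elim_none, Option.elim_some]
  rw [Matrix.one_apply]
  simp only [mul_ite, mul_one, mul_zero]
  rw [Finset.sum_ite_eq' Finset.univ j]
  simp

/-- The cone lemma. -/
theorem cone {μ : Type} [Fintype μ] (P Q : Matrix ν ν ℝ) (hPQ : P * Q = 1)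
    (X : Matrix ν μ ℝ) (hX : PR (P * X)) :
    ∃ (H : Matrix ν (ν ⊕ Option ν) ℤ) (H' : Matrix (ν ⊕ Option ν) ν ℤ)
      (E : Matrix (ν ⊕ Option ν) μ ℝ),
      H * H' = 1 ∧ PR (P * rl H) ∧ PR E ∧ rl H * E = X := by
  obtain ⟨Ha, G, hPH, hHG, hGX⟩ := approx P Q hPQ X hX
  -- the vector `h`
  obtain ⟨o, ho⟩ : ∃ o : Matrix ν Unit ℤ, o = fun _ _ => 1 := ⟨_, rfl⟩
  have hv : PR (P * rl (Ha * o)) := by
    intro i j
    rw [rl_mul, ← Matrix.mul_assoc, Matrix.mul_apply]
    refine Finset.sum_pos (fun k _ => ?_) Finset.univ_nonempty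
    rw [rl_apply, ho]
    simpa using hPH i k
  obtain ⟨m, hm, hmv⟩ := hv.lower
  obtain ⟨K, hK⟩ := exists_nat_gt (sz P / m)
  rw [div_lt_iff₀ hm] at hK
  obtain ⟨h, hh⟩ : ∃ h : ν → ℤ, h = fun i => K * (Ha * o) i () := ⟨_, rfl⟩
  have hPC : PR (P * rl (Cm h)) := by
    intro i a
    have h1 : (P * rl (Cm h)) i a = K * (P * rl (Ha * o)) i () +
        a.elim 0 (fun j => P i j) := by
      rw [Matrix.mul_apply, Matrix.mul_apply, Finset.mul_sum]
      rcases a with _ | a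
      · simp only [Option.elim_none, add_zero]
        refine Finset.sum_congr rfl fun k _ => ?_
        rw [rl_apply, rl_apply, Cm, hh]
        push_cast
        simp
        ring
      · simp only [Option.elim_some]
        have h2 : P i a = ∑ k, P i k * (if k = a then 1 else 0) := by simp
        rw [h2, ← Finset.sum_add_distrib]
        refine Finset.sum_congr rfl fun k _ => ?_
        rw [rl_apply, rl_apply, Cm, hh]
        simp only [Option.elim_some]
        push_cast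
        ring
    rw [h1]
    have h3 := hmv i ()
    have h4 : -sz P ≤ a.elim 0 (fun j => P i j) := by
      rcases a with _ | a
      · simp only [Option.elim_none]
        have := sz_nonneg P
        linarith
      · simp only [Option.elim_some]
        have h5 : |P i a| ≤ ∑ j, |P i j| :=
          Finset.single_le_sum (f := fun j => |P i j|) (fun _ _ => abs_nonneg _)
            (Finset.mem_univ a)
        have h6 := row_le_sz P i
        have h7 := neg_abs_le (P i a)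
        linarith
    have h5 : (K : ℝ) * m ≤ K * (P * rl (Ha * o)) i () :=
      mul_le_mul_of_nonneg_left h3 (Nat.cast_nonneg K)
    linarith
  obtain ⟨J, hJ⟩ : ∃ J : Matrix (Option ν) μ ℝ, J = fun _ _ => 1 := ⟨_, rfl⟩
  have hδ : ∀ᶠ δ in 𝓝 (0 : ℝ), PR (G * (X - δ • (rl (Cm h) * J))) := by
    refine ev_pos (fun δ : ℝ => G * (X - δ • (rl (Cm h) * J))) 0 ?_ ?_
    · exact (continuous_const.matrix_mul (continuous_const.sub
        (continuous_id.smul continuous_const))).continuousAt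
    · simpa using hGX
  obtain ⟨δ, hδ1, hδ2⟩ := ((hδ.filter_mono nhdsWithin_le_nhds).and
    (self_mem_nhdsWithin (a := (0 : ℝ)) (s := Set.Ioi 0))).exists
  have hδ0 : (0 : ℝ) < δ := hδ2
  refine ⟨Matrix.fromCols Ha (Cm h), Matrix.fromRows 0 Dm,
    Matrix.fromRows (G * (X - δ • (rl (Cm h) * J))) (δ • J), ?_, ?_, ?_, ?_⟩
  · rw [Matrix.fromCols_mul_fromRows, Cm_Dm]
    simp
  · rintro i (j | j)
    · exact hPH i j
    · exact hPC i j
  · rintro (i | i) j
    · exact hδ1 i j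
    · show 0 < (δ • J) i j
      rw [Matrix.smul_apply, hJ]
      simpa using hδ0
  · have e : rl (Matrix.fromCols Ha (Cm h)) = Matrix.fromCols (rl Ha) (rl (Cm h)) := by
      ext i (j | j) <;> rfl
    rw [e, Matrix.fromCols_mul_fromRows, ← Matrix.mul_assoc, hHG, Matrix.one_mul,
      Matrix.mul_smul]
    abel

/-- four families at once -/
theorem cone4 {μ1 μ2 μ3 μ4 : Type} [Fintype μ1] [Fintype μ2] [Fintype μ3] [Fintype μ4]
    (P Q : Matrix ν ν ℝ) (hPQ : P * Q = 1)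
    (X1 : Matrix ν μ1 ℝ) (X2 : Matrix ν μ2 ℝ) (X3 : Matrix ν μ3 ℝ) (X4 : Matrix ν μ4 ℝ)
    (h1 : PR (P * X1)) (h2 : PR (P * X2)) (h3 : PR (P * X3)) (h4 : PR (P * X4)) :
    ∃ (H : Matrix ν (ν ⊕ Option ν) ℤ) (H' : Matrix (ν ⊕ Option ν) ν ℤ),
      H * H' = 1 ∧ PR (P * rl H) ∧
      (∃ E : Matrix (ν ⊕ Option ν) μ1 ℝ, PR E ∧ rl H * E = X1) ∧
      (∃ E : Matrix (ν ⊕ Option ν) μ2 ℝ, PR E ∧ rl H * E = X2) ∧
      (∃ E : Matrix (ν ⊕ Option ν) μ3 ℝ, PR E ∧ rl H * E = X3) ∧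
      (∃ E : Matrix (ν ⊕ Option ν) μ4 ℝ, PR E ∧ rl H * E = X4) := by
  obtain ⟨H, H', E, hH, hPH, hE, hHE⟩ := cone P Q hPQ
    (Matrix.fromCols (Matrix.fromCols X1 X2) (Matrix.fromCols X3 X4)) (by
      rintro i ((j | j) | (j | j))
      · exact h1 i j
      · exact h2 i j
      · exact h3 i j
      · exact h4 i j)
  refine ⟨H, H', hH, hPH, ⟨fun i j => E i (Sum.inl (Sum.inl j)), fun i j => hE _ _, ?_⟩,
    ⟨fun i j => E i (Sum.inl (Sum.inr j)), fun i j => hE _ _, ?_⟩,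
    ⟨fun i j => E i (Sum.inr (Sum.inl j)), fun i j => hE _ _, ?_⟩,
    ⟨fun i j => E i (Sum.inr (Sum.inr j)), fun i j => hE _ _, ?_⟩⟩
  · ext i j; exact congrFun (congrFun hHE i) (Sum.inl (Sum.inl j))
  · ext i j; exact congrFun (congrFun hHE i) (Sum.inl (Sum.inr j))
  · ext i j; exact congrFun (congrFun hHE i) (Sum.inr (Sum.inl j))
  · ext i j; exact congrFun (congrFun hHE i) (Sum.inr (Sum.inr j))

end Pool.Agent.U783.PT
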