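import Pool.Agent.U783.PT.Basic

/-!
# Decompositions of an integer matrix through a frame: uniqueness up to equivalence
-/

set_option autoImplicit false

namespace Pool.Agent.U783.PT

open Matrix

section bounds

variable {R : Type} [CommRing R] [LinearOrder R] [IsStrictOrderedRing R]

/-- sum of the absolute values of the entries -/
def sz {ι κ : Type} [Fintype ι] [Fintype κ] (A : Matrix ι κ R) : R := ∑ i, ∑ j, |A i j|

lemma sz_nonneg {ι κ : Type} [Fintype ι] [Fintype κ] (A : Matrix ι κ R) : 0 ≤ sz A :=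
  Finset.sum_nonneg fun _ _ => Finset.sum_nonneg fun _ _ => abs_nonneg _

lemma row_le_sz {ι κ : Type} [Fintype ι] [Fintype κ] (A : Matrix ι κ R) (i : ι) :
    ∑ j, |A i j| ≤ sz A :=
  Finset.single_le_sum (f := fun i => ∑ j, |A i j|)
    (fun _ _ => Finset.sum_nonneg fun _ _ => abs_nonneg _) (Finset.mem_univ i)

lemma col_le_sz {ι κ : Type} [Fintype ι] [Fintype κ] (A : Matrix ι κ R) (j : κ) :
    ∑ i, |A i j| ≤ sz A := by
  unfold sz
  rw [Finset.sum_comm]
  exact Finset.single_le_sum (f := fun j => ∑ i, |A i j|)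
    (fun _ _ => Finset.sum_nonneg fun _ _ => abs_nonneg _) (Finset.mem_univ j)

lemma abs_mul_le {α ι κ : Type} [Fintype α] [Fintype ι] [Fintype κ]
    (L : Matrix α ι R) (X : Matrix ι κ R) (b : R) (hX : ∀ i j, |X i j| ≤ b)
    (hb : 0 ≤ b) (i : α) (j : κ) : |(L * X) i j| ≤ sz L * b := by
  rw [Matrix.mul_apply]
  calc |∑ k, L i k * X k j| ≤ ∑ k, |L i k * X k j| := Finset.abs_sum_le_sum_abs _ _
    _ ≤ ∑ k, |L i k| * b := Finset.sum_le_sum fun k _ => by
        rw [abs_mul]; exact mul_le_mul_of_nonneg_left (hX k j) (abs_nonneg _)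
    _ = (∑ k, |L i k|) * b := by rw [Finset.sum_mul]
    _ ≤ sz L * b := mul_le_mul_of_nonneg_right (row_le_sz L i) hb

lemma abs_mul_le' {ι κ β : Type} [Fintype β] [Fintype ι] [Fintype κ]
    (X : Matrix ι κ R) (M : Matrix κ β R) (b : R) (hX : ∀ i j, |X i j| ≤ b)
    (hb : 0 ≤ b) (i : ι) (j : β) : |(X * M) i j| ≤ sz M * b := by
  rw [Matrix.mul_apply]
  calc |∑ k, X i k * M k j| ≤ ∑ k, |X i k * M k j| := Finset.abs_sum_le_sum_abs _ _
    _ ≤ ∑ k, |M k j| * b := Finset.sum_le_sum fun k _ => by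
        rw [abs_mul, mul_comm]; exact mul_le_mul_of_nonneg_left (hX i k) (abs_nonneg _)
    _ = (∑ k, |M k j|) * b := by rw [Finset.sum_mul]
    _ ≤ sz M * b := mul_le_mul_of_nonneg_right (col_le_sz M j) hb

lemma abs_mul_mul_le {α ι κ β : Type} [Fintype α] [Fintype ι] [Fintype κ] [Fintype β]
    (L : Matrix α ι R) (X : Matrix ι κ R) (M : Matrix κ β R) (b : R)
    (hX : ∀ i j, |X i j| ≤ b) (hb : 0 ≤ b) (i : α) (j : β) :
    |(L * X * M) i j| ≤ sz M * (sz L * b) :=
  abs_mul_le' (L * X) M (sz L * b) (abs_mul_le L X b hX hb) (mul_nonneg (sz_nonneg L) hb) i j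

end bounds

variable {ν η κ : Type} [Fintype ν] [Fintype η] [Fintype κ] [DecidableEq ν]

/-- the part in the left kernel -/
def E1 (H : Matrix ν η ℤ) (H' : Matrix η ν ℤ) (X : Matrix η κ ℤ) : Matrix η κ ℤ :=
  X - H' * H * X

/-- the part in the right kernel -/
def E2 (H : Matrix ν η ℤ) (H' : Matrix η ν ℤ) (Th : Matrix κ ν ℤ) (Th' : Matrix ν κ ℤ)
    (X : Matrix η κ ℤ) : Matrix η κ ℤ :=
  H' * H * X - H' * H * X * (Th * Th')

/-- the projection onto the kernel of `X ↦ H X Th` -/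
def Em (H : Matrix ν η ℤ) (H' : Matrix η ν ℤ) (Th : Matrix κ ν ℤ) (Th' : Matrix ν κ ℤ)
    (X : Matrix η κ ℤ) : Matrix η κ ℤ :=
  X - H' * H * X * (Th * Th')

lemma Em_eq (H : Matrix ν η ℤ) (H' : Matrix η ν ℤ) (Th : Matrix κ ν ℤ) (Th' : Matrix ν κ ℤ)
    (X : Matrix η κ ℤ) : Em H H' Th Th' X = E1 H H' X + E2 H H' Th Th' X := by
  unfold Em E1 E2
  abel

lemma Em_lin (H : Matrix ν η ℤ) (H' : Matrix η ν ℤ) (Th : Matrix κ ν ℤ) (Th' : Matrix ν κ ℤ)
    (X Y : Matrix η κ ℤ) (a b : ℤ) :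
    Em H H' Th Th' (a • X + b • Y) = a • Em H H' Th Th' X + b • Em H H' Th Th' Y := by
  unfold Em
  simp only [Matrix.mul_add, Matrix.add_mul, Matrix.mul_smul, Matrix.smul_mul, smul_sub]
  abel

lemma Em_sub (H : Matrix ν η ℤ) (H' : Matrix η ν ℤ) (Th : Matrix κ ν ℤ) (Th' : Matrix ν κ ℤ)
    (X Y : Matrix η κ ℤ) :
    Em H H' Th Th' (X - Y) = Em H H' Th Th' X - Em H H' Th Th' Y := by
  unfold Em
  simp only [Matrix.mul_sub, Matrix.sub_mul]
  abel

lemma H_E1 (H : Matrix ν η ℤ) (H' : Matrix η ν ℤ) (hH : H * H' = 1) (X : Matrix η κ ℤ) :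
    H * E1 H H' X = 0 := by
  unfold E1
  rw [Matrix.mul_sub, ← Matrix.mul_assoc, ← Matrix.mul_assoc, hH, Matrix.one_mul, sub_self]

lemma E2_Th (H : Matrix ν η ℤ) (H' : Matrix η ν ℤ) (Th : Matrix κ ν ℤ) (Th' : Matrix ν κ ℤ)
    (hT : Th' * Th = 1) (X : Matrix η κ ℤ) : E2 H H' Th Th' X * Th = 0 := by
  unfold E2
  rw [Matrix.sub_mul, Matrix.mul_assoc _ (Th * Th') Th, Matrix.mul_assoc Th Th' Th, hT,
    Matrix.mul_one, sub_self]

/-- the tensor move -/
lemma QI.tensor (H : Matrix ν η ℤ) (Th : Matrix κ ν ℤ) (hp : NN (Th * H)) (N : Matrix η κ ℤ)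
    (hN : NN N) : QI (Th * H * N) (N * (Th * H)) := QI.move _ _ hp hN

lemma step (H : Matrix ν η ℤ) (H' : Matrix η ν ℤ) (Th : Matrix κ ν ℤ) (Th' : Matrix ν κ ℤ)
    (hH : H * H' = 1) (hT : Th' * Th = 1) (hp : NN (Th * H)) (N Y : Matrix η κ ℤ)
    (h1 : NN (N + E1 H H' Y)) (h2 : NN (N + Em H H' Th Th' Y)) :
    QI (Th * H * N) (Th * H * (N + Em H H' Th Th' Y)) := by
  have e1 : Th * H * N = Th * H * (N + E1 H H' Y) := by
    rw [Matrix.mul_add, Matrix.mul_assoc Th H (E1 H H' Y), H_E1 H H' hH, Matrix.mul_zero,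
      add_zero]
  have e2 : (N + E1 H H' Y) * (Th * H) = (N + Em H H' Th Th' Y) * (Th * H) := by
    rw [Em_eq, ← add_assoc, Matrix.add_mul (N + E1 H H' Y), ← Matrix.mul_assoc (E2 H H' Th Th' Y),
      E2_Th H H' Th Th' hT, Matrix.zero_mul, add_zero]
  rw [e1]
  refine (QI.tensor H Th hp _ h1).trans ?_
  rw [e2]
  exact (QI.tensor H Th hp _ h2).symm

/-- Uniqueness for deep decompositions. -/
theorem deep (H : Matrix ν η ℤ) (H' : Matrix η ν ℤ) (Th : Matrix κ ν ℤ) (Th' : Matrix ν κ ℤ)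
    (hH : H * H' = 1) (hT : Th' * Th = 1) (hp : NN (Th * H)) :
    ∃ R : ℤ, 0 ≤ R ∧ ∀ N N' : Matrix η κ ℤ, (∀ i j, R ≤ N i j) → (∀ i j, R ≤ N' i j) →
      H * N * Th = H * N' * Th → QI (Th * H * N) (Th * H * N') := by
  obtain ⟨c1, hc1⟩ : ∃ c1 : ℤ, c1 = sz (Th * Th') * sz (H' * H) := ⟨_, rfl⟩
  obtain ⟨c2, hc2⟩ : ∃ c2 : ℤ, c2 = sz (H' * H) := ⟨_, rfl⟩
  have hc10 : 0 ≤ c1 := by rw [hc1]; exact mul_nonneg (sz_nonneg _) (sz_nonneg _)
  have hc20 : 0 ≤ c2 := by rw [hc2]; exact sz_nonneg _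
  have bEm : ∀ (X : Matrix η κ ℤ) (b : ℤ), 0 ≤ b → (∀ i j, |X i j| ≤ b) → ∀ i j,
      |Em H H' Th Th' X i j| ≤ (1 + c1) * b := by
    intro X b hb hX i j
    have h := abs_mul_mul_le (H' * H) X (Th * Th') b hX hb i j
    have h2 := hX i j
    unfold Em
    rw [Matrix.sub_apply]
    have h3 := abs_sub (X i j) ((H' * H * X * (Th * Th')) i j)
    have h4 : (1 + c1) * b = b + sz (Th * Th') * (sz (H' * H) * b) := by rw [hc1]; ring
    rw [h4]
    linarith
  have bE1 : ∀ (X : Matrix η κ ℤ) (b : ℤ), 0 ≤ b → (∀ i j, |X i j| ≤ b) → ∀ i j,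
      |E1 H H' X i j| ≤ (1 + c2) * b := by
    intro X b hb hX i j
    have h := abs_mul_le (H' * H) X b hX hb i j
    have h2 := hX i j
    unfold E1
    rw [Matrix.sub_apply]
    have h3 := abs_sub (X i j) ((H' * H * X) i j)
    have h4 : (1 + c2) * b = b + sz (H' * H) * b := by rw [hc2]; ring
    rw [h4]
    linarith
  refine ⟨(1 + c1) + 2 * (1 + c2), by linarith, ?_⟩
  intro N N' hN hN' hE
  obtain ⟨D, hD⟩ : ∃ D, D = N' - N := ⟨_, rfl⟩
  have hD0 : H * D * Th = 0 := by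
    rw [hD, Matrix.mul_sub, Matrix.sub_mul, hE, sub_self]
  have hEmD : Em H H' Th Th' D = D := by
    unfold Em
    rw [Matrix.mul_assoc H' H D, ← Matrix.mul_assoc (H' * (H * D)) Th Th',
      Matrix.mul_assoc H' (H * D) Th, hD0]
    simp
  obtain ⟨k, hk⟩ : ∃ k : ℤ, k = 1 + sz D := ⟨_, rfl⟩
  have hk1 : 1 ≤ k := by rw [hk]; have := sz_nonneg D; linarith
  have hDk : ∀ i j, |D i j| ≤ k := by
    intro i j
    have h1 : |D i j| ≤ ∑ j, |D i j| :=
      Finset.single_le_sum (f := fun j => |D i j|) (fun _ _ => abs_nonneg _) (Finset.mem_univ j)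
    have h2 := row_le_sz D i
    rw [hk]; linarith
  obtain ⟨Dh, hDh⟩ : ∃ Dh : ℤ → Matrix η κ ℤ, Dh = fun j => fun a b => (j * D a b) / k :=
    ⟨_, rfl⟩
  have hDh' : ∀ j a b, Dh j a b = (j * D a b) / k := by intro j a b; rw [hDh]
  have hmod : ∀ j a b, j * D a b - k < k * Dh j a b ∧ k * Dh j a b ≤ j * D a b := by
    intro j a b
    rw [hDh']
    have h1 := Int.emod_add_mul_ediv (j * D a b) k
    have h2 := Int.emod_nonneg (j * D a b) (by linarith : k ≠ 0)
    have h3 := Int.emod_lt_of_pos (j * D a b) (by linarith : (0 : ℤ) < k)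
    constructor <;> linarith
  have hNj : ∀ j : ℤ, 0 ≤ j → j ≤ k → ∀ a b,
      2 * (1 + c2) ≤ (N + Em H H' Th Th' (Dh j)) a b := by
    intro j hj0 hjk a b
    obtain ⟨err, herr⟩ : ∃ err : Matrix η κ ℤ, err = k • Dh j + (-j) • D := ⟨_, rfl⟩
    have herrb : ∀ a b, |err a b| ≤ k := by
      intro a b
      rw [herr, Matrix.add_apply, Matrix.smul_apply, Matrix.smul_apply, smul_eq_mul, smul_eq_mul,
        abs_le]
      have := hmod j a b
      constructor <;> linarith [this.1, this.2]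
    have h1 := bEm err k (by linarith) herrb a b
    have h2 : Em H H' Th Th' err = k • Em H H' Th Th' (Dh j) + (-j) • D := by
      rw [herr, Em_lin, hEmD]
    rw [h2, Matrix.add_apply, Matrix.smul_apply, Matrix.smul_apply, smul_eq_mul, smul_eq_mul,
      abs_le] at h1
    have h3 : D a b = N' a b - N a b := by rw [hD, Matrix.sub_apply]
    rw [h3] at h1
    have h4 := hN a b
    have h5 := hN' a b
    rw [Matrix.add_apply]
    by_contra hcon
    push Not at hcon
    have h6 : k * (N a b + Em H H' Th Th' (Dh j) a b) ≤ k * (2 * (1 + c2) - 1) :=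
      mul_le_mul_of_nonneg_left (by linarith) (by linarith)
    have h7 := mul_le_mul_of_nonneg_left h4 (by linarith : 0 ≤ k - j)
    have h8 := mul_le_mul_of_nonneg_left h5 hj0
    nlinarith [h1.1]
  have key : ∀ m : ℕ, (m : ℤ) ≤ k →
      QI (Th * H * N) (Th * H * (N + Em H H' Th Th' (Dh m))) := by
    intro m
    induction m with
    | zero =>
      intro _
      have h0 : Dh ((0 : ℕ) : ℤ) = 0 := by
        ext a b
        rw [hDh']; simp
      rw [h0]
      have h1 : Em H H' Th Th' (0 : Matrix η κ ℤ) = 0 := by unfold Em; simp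
      rw [h1, add_zero]
      exact QI.refl _
    | succ m ih =>
      intro hm
      push_cast at hm
      have ihm := ih (by linarith)
      refine ihm.trans ?_
      obtain ⟨Y, hY⟩ : ∃ Y, Y = Dh (m + 1) - Dh m := ⟨_, rfl⟩
      have hYb : ∀ a b, |Y a b| ≤ 2 := by
        intro a b
        rw [hY, Matrix.sub_apply]
        have h1 := hmod m a b
        have h2 := hmod (m + 1) a b
        have h3 := abs_le.mp (hDk a b)
        rw [abs_le]
        constructor
        · by_contra hcon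
          push Not at hcon
          have h4 : k * (Dh (m + 1) a b - Dh m a b) ≤ k * (-3) :=
            mul_le_mul_of_nonneg_left (by linarith) (by linarith)
          nlinarith [h1.1, h1.2, h2.1, h2.2, h3.1, h3.2]
        · by_contra hcon
          push Not at hcon
          have h4 : k * 3 ≤ k * (Dh (m + 1) a b - Dh m a b) :=
            mul_le_mul_of_nonneg_left (by linarith) (by linarith)
          nlinarith [h1.1, h1.2, h2.1, h2.2, h3.1, h3.2]
      have hsum : N + Em H H' Th Th' (Dh m) + Em H H' Th Th' Y =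
          N + Em H H' Th Th' (Dh (m + 1)) := by
        rw [hY, Em_sub]; abel
      have h := step H H' Th Th' hH hT hp (N + Em H H' Th Th' (Dh m)) Y ?_ ?_
      · rw [hsum] at h
        push_cast
        exact h
      · intro a b
        have h1 := hNj m (by positivity) (by linarith) a b
        have h2 := abs_le.mp (bE1 Y 2 (by norm_num) hYb a b)
        rw [Matrix.add_apply (N + Em H H' Th Th' (Dh m))]
        linarith [h2.1]
      · intro a b
        rw [hsum]
        have h1 := hNj (m + 1) (by positivity) (by linarith) a b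
        linarith
  have hkk := key k.toNat (by rw [Int.toNat_of_nonneg (by linarith)])
  rw [Int.toNat_of_nonneg (by linarith)] at hkk
  have hDk' : Dh k = D := by
    ext a b
    rw [hDh', Int.mul_ediv_cancel_left _ (by linarith : k ≠ 0)]
  rw [hDk', hEmD, hD] at hkk
  have e : N + (N' - N) = N' := by abel
  rw [e] at hkk
  exact hkk

end Pool.Agent.U783.PT
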