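import Pool.Agent.U783.PT.Deep

/-!
# Existence of deep decompositions
-/

set_option autoImplicit false

namespace Pool.Agent.U783.PT

open Matrix

/-- the real matrix of an integer matrix -/
def rl {ι κ : Type} (A : Matrix ι κ ℤ) : Matrix ι κ ℝ := A.map (fun z : ℤ => (z : ℝ))

@[simp] lemma rl_apply {ι κ : Type} (A : Matrix ι κ ℤ) (i : ι) (j : κ) : rl A i j = (A i j : ℝ) :=
  rfl

lemma rl_mul {ι κ μ : Type} [Fintype κ] (A : Matrix ι κ ℤ) (B : Matrix κ μ ℤ) :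
    rl (A * B) = rl A * rl B := by
  ext i j
  rw [rl_apply, Matrix.mul_apply, Matrix.mul_apply]
  push_cast
  rfl

lemma rl_one {ι : Type} [DecidableEq ι] : rl (1 : Matrix ι ι ℤ) = 1 := by
  ext i j
  rw [rl_apply, Matrix.one_apply, Matrix.one_apply]
  split_ifs <;> simp

lemma rl_sub {ι κ : Type} (A B : Matrix ι κ ℤ) : rl (A - B) = rl A - rl B := by
  ext i j
  simp

lemma rl_neg {ι κ : Type} (A : Matrix ι κ ℤ) : rl (-A) = -rl A := by
  ext i j
  simp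

lemma rl_transpose {ι κ : Type} (A : Matrix ι κ ℤ) : rl Aᵀ = (rl A)ᵀ := rfl

/-- all entries positive -/
def PR {ι κ : Type} (A : Matrix ι κ ℝ) : Prop := ∀ i j, 0 < A i j

lemma PR.mul {ι κ μ : Type} [Fintype κ] [Nonempty κ] {A : Matrix ι κ ℝ} {B : Matrix κ μ ℝ}
    (hA : PR A) (hB : PR B) : PR (A * B) := fun i j => by
  rw [Matrix.mul_apply]
  exact Finset.sum_pos (fun k _ => mul_pos (hA i k) (hB k j)) Finset.univ_nonempty

lemma PR.nn {ι κ : Type} {A : Matrix ι κ ℤ} (h : PR (rl A)) : NN A := fun i j => by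
  have := h i j
  rw [rl_apply] at this
  exact_mod_cast this.le

lemma PR.lower {ι κ : Type} [Fintype ι] [Fintype κ] {A : Matrix ι κ ℝ} (h : PR A) :
    ∃ m : ℝ, 0 < m ∧ ∀ i j, m ≤ A i j := by
  rcases isEmpty_or_nonempty ι with h1 | h1
  · exact ⟨1, one_pos, fun i => h1.elim i⟩
  rcases isEmpty_or_nonempty κ with h2 | h2
  · exact ⟨1, one_pos, fun _ j => h2.elim j⟩
  obtain ⟨p, hp⟩ := Finite.exists_min (fun p : ι × κ => A p.1 p.2)
  exact ⟨A p.1 p.2, h p.1 p.2, fun i j => hp (i, j)⟩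

/-- the integer matrix `A` is within `ε t` of `t X0`. -/
def Near {ν μ : Type} (X0 : Matrix ν μ ℝ) (ε t : ℝ) (A : Matrix ν μ ℤ) : Prop :=
  ∀ i j, |(A i j : ℝ) - t * X0 i j| ≤ ε * t

theorem exist {ν η κ μ : Type} [Fintype ν] [Fintype η] [Fintype κ] [Fintype μ] [DecidableEq ν]
    [DecidableEq μ] (H : Matrix ν η ℤ) (H' : Matrix η ν ℤ) (Th : Matrix κ μ ℤ)
    (Th' : Matrix μ κ ℤ) (hH : H * H' = 1) (hT : Th' * Th = 1) (X0 : Matrix ν μ ℝ)
    (N0 : Matrix η κ ℝ) (hN0 : PR N0) (hX0 : rl H * N0 * rl Th = X0) (R : ℤ) :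
    ∃ ε : ℝ, 0 < ε ∧ ∃ T : ℝ, ∀ t : ℝ, T ≤ t → ∀ A : Matrix ν μ ℤ, Near X0 ε t A →
      ∃ N : Matrix η κ ℤ, (∀ i j, R ≤ N i j) ∧ H * N * Th = A := by
  obtain ⟨m, hm, hmN⟩ := hN0.lower
  obtain ⟨c1, hc1⟩ : ∃ c1 : ℝ, c1 = sz (rl Th) * (sz (rl H) * 1) := ⟨_, rfl⟩
  obtain ⟨c2, hc2⟩ : ∃ c2 : ℝ, c2 = sz (rl Th') * sz (rl H') := ⟨_, rfl⟩
  have hc10 : 0 ≤ c1 := by
    rw [hc1]; exact mul_nonneg (sz_nonneg _) (mul_nonneg (sz_nonneg _) one_pos.le)
  have hc20 : 0 ≤ c2 := by rw [hc2]; exact mul_nonneg (sz_nonneg _) (sz_nonneg _)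
  refine ⟨m / (2 * (c2 + 1)), by positivity, max 0 (2 * (R + 1 + c1 * c2) / m), ?_⟩
  intro t ht A hA
  have ht0 : 0 ≤ t := le_trans (le_max_left _ _) ht
  have ht1 : 2 * (R + 1 + c1 * c2) / m ≤ t := le_trans (le_max_right _ _) ht
  rw [div_le_iff₀ hm] at ht1
  obtain ⟨ε, hε⟩ : ∃ ε : ℝ, ε = m / (2 * (c2 + 1)) := ⟨_, rfl⟩
  rw [← hε] at hA
  have hε0 : 0 < ε := by rw [hε]; positivity
  have hεc : ε * c2 ≤ m / 2 := by
    have h1 : ε * (2 * (c2 + 1)) = m := by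
      rw [hε]; field_simp
    nlinarith
  obtain ⟨Y, hY⟩ : ∃ Y : Matrix η κ ℤ, Y = fun i j => ⌊t * N0 i j⌋ := ⟨_, rfl⟩
  have hYb : ∀ i j, |(rl Y - t • N0) i j| ≤ 1 := by
    intro i j
    rw [Matrix.sub_apply, rl_apply, Matrix.smul_apply, smul_eq_mul, hY, abs_le]
    have h1 := Int.floor_le (t * N0 i j)
    have h2 := Int.lt_floor_add_one (t * N0 i j)
    constructor <;> linarith
  refine ⟨Y - H' * (H * Y * Th - A) * Th', ?_, ?_⟩
  · intro i j
    have hE : ∀ a b, |(rl (H * Y * Th - A)) a b| ≤ c1 + ε * t := by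
      intro a b
      have e1 : rl (H * Y * Th - A) = rl H * (rl Y - t • N0) * rl Th + (t • X0 - rl A) := by
        rw [rl_sub, rl_mul, rl_mul, ← hX0]
        simp only [Matrix.mul_sub, Matrix.sub_mul, Matrix.mul_smul, Matrix.smul_mul]
        abel
      rw [e1, Matrix.add_apply]
      have h1 := abs_mul_mul_le (rl H) (rl Y - t • N0) (rl Th) 1 hYb one_pos.le a b
      have h2 := hA a b
      have h3 : |(t • X0 - rl A) a b| ≤ ε * t := by
        rw [Matrix.sub_apply, Matrix.smul_apply, smul_eq_mul, rl_apply, abs_sub_comm]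
        exact h2
      rw [← hc1] at h1
      exact (abs_add_le _ _).trans (add_le_add h1 h3)
    have h4 := abs_mul_mul_le (rl H') (rl (H * Y * Th - A)) (rl Th') (c1 + ε * t) hE
      (by positivity) i j
    rw [← rl_mul, ← rl_mul, rl_apply, ← mul_assoc, ← hc2] at h4
    have h5 := hYb i j
    rw [Matrix.sub_apply, rl_apply, Matrix.smul_apply, smul_eq_mul] at h5
    rw [Matrix.sub_apply]
    have h6 := hmN i j
    have h7 := (abs_le.mp h4).2
    have h8 := (abs_le.mp h5).1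
    have h9 : t * m ≤ t * N0 i j := mul_le_mul_of_nonneg_left h6 ht0
    have h10 : (ε * c2) * t ≤ m / 2 * t := mul_le_mul_of_nonneg_right hεc ht0
    have h11 : (R : ℝ) ≤ (Y i j : ℝ) - ((H' * (H * Y * Th - A) * Th') i j : ℝ) := by
      nlinarith
    exact_mod_cast h11
  · rw [Matrix.mul_sub, Matrix.sub_mul]
    have e : H * (H' * (H * Y * Th - A) * Th') * Th = H * Y * Th - A := by
      rw [Matrix.mul_assoc H' _ Th', ← Matrix.mul_assoc H H', hH, Matrix.one_mul,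
        Matrix.mul_assoc, hT, Matrix.mul_one]
    rw [e]
    abel

/-- integer relations between columns from real relations -/
lemma relation {ν η1 η2 κ : Type} [Fintype ν] [Fintype η1] [Fintype η2] [Fintype κ]
    [DecidableEq ν] [DecidableEq κ] (H1 : Matrix ν η1 ℤ) (H1' : Matrix η1 ν ℤ)
    (H2 : Matrix ν η2 ℤ) (hH1 : H1 * H1' = 1) (Y0 : Matrix η1 κ ℝ) (Z0 : Matrix η2 κ ℝ)
    (hY0 : PR Y0) (hZ0 : PR Z0) (h : rl H1 * Y0 = rl H2 * Z0) :
    ∃ (Y : Matrix η1 κ ℤ) (Z : Matrix η2 κ ℤ), (∀ i j, 1 ≤ Y i j) ∧ (∀ i j, 1 ≤ Z i j) ∧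
      H1 * Y = H2 * Z := by
  obtain ⟨ε, hε, T, hT⟩ := exist (Matrix.fromCols H1 (-H2)) (Matrix.fromRows H1' 0)
    (1 : Matrix κ κ ℤ) 1 (by rw [Matrix.fromCols_mul_fromRows, hH1]; simp) (by simp)
    (0 : Matrix ν κ ℝ) (Matrix.fromRows Y0 Z0)
    (by
      rintro (i | i) j
      · exact hY0 i j
      · exact hZ0 i j)
    (by
      have e : rl (Matrix.fromCols H1 (-H2)) = Matrix.fromCols (rl H1) (-rl H2) := by
        ext i (j | j) <;> simp
      rw [e, rl_one, Matrix.mul_one, Matrix.fromCols_mul_fromRows, h]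
      simp) 1
  obtain ⟨N, hN, hN2⟩ := hT (max T 0) (le_max_left _ _) 0 (by
    intro i j
    simp only [Matrix.zero_apply, Int.cast_zero, mul_zero, sub_zero, abs_zero]
    positivity)
  refine ⟨N.submatrix Sum.inl id, N.submatrix Sum.inr id, fun i j => hN _ _, fun i j => hN _ _, ?_⟩
  have e : N = Matrix.fromRows (N.submatrix Sum.inl id) (N.submatrix Sum.inr id) := by
    ext (i | i) j <;> rfl
  rw [e, Matrix.mul_one, Matrix.fromCols_mul_fromRows] at hN2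
  rw [Matrix.neg_mul, add_neg_eq_zero] at hN2
  exact hN2

end Pool.Agent.U783.PT
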