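import Pool.Agent.U783.PT.River

/-!
# Similarity classes of `2 × 2` matrices
-/

set_option autoImplicit false

namespace Pool.Agent.U783.PT

open Matrix

lemma conj_inv {A B R : Matrix (Fin 2) (Fin 2) ℤ} (hR : R.det ≠ 0) (h : A * R = R * B) :
    A 0 0 + A 1 1 = B 0 0 + B 1 1 ∧ A.det = B.det := by
  have e00 := congrFun (congrFun h 0) 0
  have e01 := congrFun (congrFun h 0) 1
  have e10 := congrFun (congrFun h 1) 0
  have e11 := congrFun (congrFun h 1) 1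
  simp only [Matrix.mul_apply, Fin.sum_univ_two] at e00 e01 e10 e11
  have hd := hR
  rw [Matrix.det_fin_two] at hd
  constructor
  · have h1 : (A 0 0 + A 1 1) * (R 0 0 * R 1 1 - R 0 1 * R 1 0) =
        (B 0 0 + B 1 1) * (R 0 0 * R 1 1 - R 0 1 * R 1 0) := by
      linear_combination R 1 1 * e00 - R 1 0 * e01 + R 0 0 * e11 - R 0 1 * e10
    exact mul_right_cancel₀ hd h1
  · have h1 := congrArg Matrix.det h
    rw [Matrix.det_mul, Matrix.det_mul, mul_comm] at h1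
    exact mul_left_cancel₀ hR h1

/-- similarity over `ℤ` -/
def Sim (A B : Matrix (Fin 2) (Fin 2) ℤ) : Prop :=
  ∃ U V : Matrix (Fin 2) (Fin 2) ℤ, U * V = 1 ∧ A * U = U * B

lemma det_unit {U V : Matrix (Fin 2) (Fin 2) ℤ} (h : U * V = 1) : U.det = 1 ∨ U.det = -1 := by
  have h1 : U.det * V.det = 1 := by rw [← Matrix.det_mul, h, Matrix.det_one]
  exact Int.eq_one_or_neg_one_of_mul_eq_one h1

lemma entry_bound {A C : Matrix (Fin 2) (Fin 2) ℤ} {s : ℝ} (hA0 : ∀ i j, 0 ≤ (A i j : ℝ))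
    (hA : ∀ i j, (A i j : ℝ) ≤ s) (htr : A 0 0 + A 1 1 = C 0 0 + C 1 1) (hdet : A.det = C.det)
    (hR : Riv C) (h1 : (C 0 1 : ℝ) ≤ s) (h2 : (C 1 0 : ℝ) ≤ s) :
    ∀ i j, |(C i j : ℝ)| ≤ 3 * s := by
  obtain ⟨r1, r2⟩ := hR
  have r1' : (0 : ℝ) < C 0 1 := by exact_mod_cast r1
  have r2' : (0 : ℝ) < C 1 0 := by exact_mod_cast r2
  have hs : 0 ≤ s := (hA0 0 0).trans (hA 0 0)
  have htr' : (A 0 0 : ℝ) + A 1 1 = C 0 0 + C 1 1 := by exact_mod_cast htr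
  have hdet' : (A 0 0 : ℝ) * A 1 1 - A 0 1 * A 1 0 = C 0 0 * C 1 1 - C 0 1 * C 1 0 := by
    rw [Matrix.det_fin_two, Matrix.det_fin_two] at hdet
    exact_mod_cast hdet
  have hD : ((C 0 0 : ℝ) - C 1 1) ^ 2 + 4 * (C 0 1 * C 1 0) =
      ((A 0 0 : ℝ) - A 1 1) ^ 2 + 4 * (A 0 1 * A 1 0) := by
    have e1 : ((C 0 0 : ℝ) - C 1 1) ^ 2 + 4 * (C 0 1 * C 1 0) =
        ((C 0 0 : ℝ) + C 1 1) ^ 2 - 4 * (C 0 0 * C 1 1 - C 0 1 * C 1 0) := by ring
    rw [e1, ← htr', ← hdet']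
    ring
  have hd1 : ((A 0 0 : ℝ) - A 1 1) ^ 2 ≤ s ^ 2 := by
    apply sq_le_sq'
    · linarith [hA0 0 0, hA 1 1]
    · linarith [hA0 1 1, hA 0 0]
  have hd2 : (A 0 1 : ℝ) * A 1 0 ≤ s * s :=
    mul_le_mul (hA 0 1) (hA 1 0) (hA0 1 0) hs
  have hd3 : ((C 0 0 : ℝ) - C 1 1) ^ 2 ≤ (3 * s) ^ 2 := by
    have : 0 < (C 0 1 : ℝ) * C 1 0 := mul_pos r1' r2'
    nlinarith
  have hd4 := abs_le_of_sq_le_sq hd3 (by linarith)
  obtain ⟨hd5, hd6⟩ := abs_le.mp hd4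
  have k1 := hA0 0 0
  have k2 := hA 0 0
  have k3 := hA0 1 1
  have k4 := hA 1 1
  intro i j
  rw [abs_le]
  fin_cases i <;> fin_cases j
  · show -(3 * s) ≤ (C 0 0 : ℝ) ∧ (C 0 0 : ℝ) ≤ 3 * s
    constructor <;> linarith
  · show -(3 * s) ≤ (C 0 1 : ℝ) ∧ (C 0 1 : ℝ) ≤ 3 * s
    constructor <;> linarith
  · show -(3 * s) ≤ (C 1 0 : ℝ) ∧ (C 1 0 : ℝ) ≤ 3 * s
    constructor <;> linarith
  · show -(3 * s) ≤ (C 1 1 : ℝ) ∧ (C 1 1 : ℝ) ≤ 3 * s
    constructor <;> linarith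

/-- The theorem for similarity classes. -/
theorem class_thm (δ k : ℝ) (hδ : 0 < δ) : ∃ T : ℝ, ∀ t : ℝ, T ≤ t →
    ∀ A B : Matrix (Fin 2) (Fin 2) ℤ, (∀ i j, δ * t ≤ A i j ∧ (A i j : ℝ) ≤ k * t) →
      (∀ i j, δ * t ≤ B i j) → Sim A B →
      (∀ C : Matrix (Fin 2) (Fin 2) ℤ, Sim A C → 0 < C 0 1 → 0 < C 1 0 →
        (C 0 1 : ℝ) ≤ k * t ∧ (C 1 0 : ℝ) ≤ k * t) → QI A B := by
  obtain ⟨T, hT⟩ := chain δ (max (3 * k) 1) hδ
  refine ⟨max T 1, ?_⟩
  rintro t ht A B hA hB ⟨U, V, hUV, hU⟩ hH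
  have ht1 : 1 ≤ t := (le_max_right _ _).trans ht
  have ht0 : 0 < t := by linarith
  have hpos : 0 < δ * t := mul_pos hδ ht0
  have hRA : Riv A := by
    constructor
    · have := (hA 0 1).1
      have h2 : (0 : ℝ) < A 0 1 := by linarith
      exact_mod_cast h2
    · have := (hA 1 0).1
      have h2 : (0 : ℝ) < A 1 0 := by linarith
      exact_mod_cast h2
  have hRB : Riv B := by
    constructor
    · have := hB 0 1
      have h2 : (0 : ℝ) < B 0 1 := by linarith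
      exact_mod_cast h2
    · have := hB 1 0
      have h2 : (0 : ℝ) < B 1 0 := by linarith
      exact_mod_cast h2
  have hbound : ∀ C, Riv C → Sim A C → ∀ i j, |(C i j : ℝ)| ≤ max (3 * k) 1 * t := by
    intro C hC hS i j
    obtain ⟨h1, h2⟩ := hH C hS hC.1 hC.2
    obtain ⟨W, W', hW, hAW⟩ := hS
    have hWd : W.det ≠ 0 := by
      rcases det_unit hW with h | h <;> rw [h] <;> norm_num
    obtain ⟨e1, e2⟩ := conj_inv hWd hAW
    have h3 := entry_bound (fun i j => hpos.le.trans (hA i j).1) (fun i j => (hA i j).2) e1 e2 hC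
      h1 h2 i j
    calc |(C i j : ℝ)| ≤ 3 * (k * t) := h3
      _ = 3 * k * t := by ring
      _ ≤ max (3 * k) 1 * t := mul_le_mul_of_nonneg_right (le_max_left _ _) ht0.le
  have key : ∀ C, Relation.ReflTransGen RStep A C → Riv C → Sim A C ∧
      Relation.ReflTransGen (Step (max (3 * k) 1) t) A C := by
    intro C hC
    induction hC with
    | refl => exact fun _ => ⟨⟨1, 1, by simp, by simp⟩, Relation.ReflTransGen.refl⟩
    | @tail C D hC hCD ih =>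
      intro hD
      obtain ⟨r1, -, E, E', hE1, hE2, hE3, hE4⟩ := hCD
      obtain ⟨⟨W, W', hW, hAW⟩, hch⟩ := ih r1
      have hSD : Sim A D := by
        refine ⟨W * E, E' * W', ?_, ?_⟩
        · have e : W * E * (E' * W') = W * (E * E') * W' := by simp only [Matrix.mul_assoc]
          rw [e, hE3, Matrix.mul_one, hW]
        · rw [← Matrix.mul_assoc, hAW, Matrix.mul_assoc, hE4, ← Matrix.mul_assoc]
      refine ⟨hSD, hch.tail ⟨hbound C r1 ⟨W, W', hW, hAW⟩, hbound D hD hSD, E, ?_, ?_, hE4, 1,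
        E' * C, ?_⟩⟩
      · rcases det_unit hE3 with h | h <;> rw [h] <;> norm_num
      · intro i j
        have h1 : |(E i j : ℝ)| ≤ 1 := by exact_mod_cast hE1 i j
        exact h1.trans (le_max_right _ _)
      · rw [pow_one, ← Matrix.mul_assoc, hE3, Matrix.one_mul]
  have hch := (key B (river hRA hRB (det_unit hUV) hU) hRB).2
  refine hT t ((le_max_left _ _).trans ht) A B ?_ (fun i j => (hA i j).1) hB hch
  exact hbound A hRA ⟨1, 1, by simp, by simp⟩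

end Pool.Agent.U783.PT
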