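import Pool.Agent.U783.PT.Uniform

/-!
# Good frames of `2 × 2` matrices
-/

set_option autoImplicit false

namespace Pool.Agent.U783.PT

open Matrix Filter Topology

/-- path2 for matrices -/
theorem path2' (A0 B0 C1 : Matrix (Fin 2) (Fin 2) ℝ) (hA0 : PR A0) (hB0 : PR B0)
    (h : A0 * C1 = C1 * B0) (hdet : 0 < C1.det)
    (hβ : 0 < 2 * A0 1 0 * C1 0 0 + (A0 1 1 - A0 0 0) * C1 1 0) :
    ∃ C D : unitInterval → Matrix (Fin 2) (Fin 2) ℝ, Continuous C ∧ Continuous D ∧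
      (∀ s, D s * C s = 1) ∧ (∀ s, PR (D s * A0 * C s)) ∧ C 0 = 1 ∧ C 1 = C1 := by
  have e00 := congrFun (congrFun h 0) 0
  have e01 := congrFun (congrFun h 0) 1
  have e10 := congrFun (congrFun h 1) 0
  have e11 := congrFun (congrFun h 1) 1
  simp only [Matrix.mul_apply, Fin.sum_univ_two] at e00 e01 e10 e11
  have hd : 0 < C1 0 0 * C1 1 1 - C1 0 1 * C1 1 0 := by
    rwa [Matrix.det_fin_two] at hdet
  have htr : A0 0 0 + A0 1 1 = B0 0 0 + B0 1 1 := by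
    have h1 : (A0 0 0 + A0 1 1) * (C1 0 0 * C1 1 1 - C1 0 1 * C1 1 0) =
        (B0 0 0 + B0 1 1) * (C1 0 0 * C1 1 1 - C1 0 1 * C1 1 0) := by
      linear_combination C1 1 1 * e00 - C1 1 0 * e01 + C1 0 0 * e11 - C1 0 1 * e10
    exact mul_right_cancel₀ hd.ne' h1
  have hdt : A0 0 0 * A0 1 1 - A0 0 1 * A0 1 0 = B0 0 0 * B0 1 1 - B0 0 1 * B0 1 0 := by
    have h1 := congrArg Matrix.det h
    rw [Matrix.det_mul, Matrix.det_mul, Matrix.det_fin_two A0, Matrix.det_fin_two B0,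
      Matrix.det_fin_two C1, mul_comm] at h1
    exact mul_left_cancel₀ hd.ne' h1
  obtain ⟨C, D, hC, hD, hDC, hpos, hC0, hC1⟩ := path2 (A0 0 0) (A0 0 1) (A0 1 0) (A0 1 1) (B0 0 0)
    (B0 0 1) (B0 1 0) (B0 1 1) (C1 0 0) (C1 0 1) (C1 1 0) (C1 1 1) (hA0 _ _) (hA0 _ _) (hA0 _ _)
    (hA0 _ _) (hB0 _ _) (hB0 _ _) (hB0 _ _) (hB0 _ _) htr hdt (by linarith) (by linarith) hd hβ
  refine ⟨C, D, hC, hD, hDC, ?_, hC0, ?_⟩
  · intro s
    have h1 := hpos s
    rwa [← Matrix.eta_fin_two A0] at h1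
  · rw [hC1, ← Matrix.eta_fin_two C1]

lemma linked_pos (X P Q P' Q' : Matrix (Fin 2) (Fin 2) ℝ) (hPQ : P * Q = 1) (hPQ' : P' * Q' = 1)
    (hB : PR (P * X * Q)) (hB' : PR (P' * X * Q')) (F F' : Fr (Fin 2)) (hF : Ins F P Q)
    (hF' : Ins F' P' Q') (hvF : Val X F.H F.Th) (hvF' : Val X F'.H F'.Th)
    (hdet : 0 < (P * Q').det) (hβ : 0 < 2 * (P * X * Q) 1 0 * (P * Q') 0 0 +
      ((P * X * Q) 1 1 - (P * X * Q) 0 0) * (P * Q') 1 0) : Lk X F.H F.Th F'.H F'.Th := by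
  have hQP : Q * P = 1 := mul_eq_one_comm.mp hPQ
  have hQP' : Q' * P' = 1 := mul_eq_one_comm.mp hPQ'
  obtain ⟨C, D, hC, hD, hDC, hpos, hC0, hC1⟩ := path2' (P * X * Q) (P' * X * Q') (P * Q') hB hB'
    (by
      have e1 : P * X * Q * (P * Q') = P * X * (Q * P) * Q' := by simp only [Matrix.mul_assoc]
      have e2 : P * Q' * (P' * X * Q') = P * (Q' * P') * X * Q' := by
        simp only [Matrix.mul_assoc]
      rw [e1, e2, hQP, hQP', Matrix.mul_one, Matrix.mul_one]) hdet hβ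
  have hCD : ∀ s, C s * D s = 1 := fun s => mul_eq_one_comm.mp (hDC s)
  have hD0 : D 0 = 1 := by
    have h := hDC 0
    rwa [hC0, Matrix.mul_one] at h
  have hD1 : D 1 = P' * Q := by
    have h := hDC 1
    have h2 : D 1 * C 1 * (P' * Q) = D 1 := by
      rw [hC1]
      have e : D 1 * (P * Q') * (P' * Q) = D 1 * (P * (Q' * P') * Q) := by
        simp only [Matrix.mul_assoc]
      rw [e, hQP', Matrix.mul_one, hPQ, Matrix.mul_one]
    rw [h, Matrix.one_mul] at h2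
    exact h2.symm
  refine lk_conn X (fun s => D s * P) (fun s => Q * C s) (hD.matrix_mul continuous_const)
    (continuous_const.matrix_mul hC) ?_ ?_ (0 : unitInterval) 1 F F' ?_ ?_ hvF hvF'
  · intro s
    show D s * P * (Q * C s) = 1
    have e : D s * P * (Q * C s) = D s * (P * Q) * C s := by simp only [Matrix.mul_assoc]
    rw [e, hPQ, Matrix.mul_one, hDC]
  · intro s
    show PR (D s * P * X * (Q * C s))
    have e : D s * P * X * (Q * C s) = D s * (P * X * Q) * C s := by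
      simp only [Matrix.mul_assoc]
    rw [e]
    exact hpos s
  · show Ins F (D 0 * P) (Q * C 0)
    rw [hD0, hC0, Matrix.one_mul, Matrix.mul_one]
    exact hF
  · show Ins F' (D 1 * P) (Q * C 1)
    have e1 : D 1 * P = P' := by rw [hD1, Matrix.mul_assoc, hQP, Matrix.mul_one]
    have e2 : Q * C 1 = Q' := by rw [hC1, ← Matrix.mul_assoc, hQP, Matrix.one_mul]
    rw [e1, e2]
    exact hF'

/-- the negative frame -/
def Fr.neg {ν : Type} [Fintype ν] [DecidableEq ν] (F : Fr ν) : Fr ν :=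
  ⟨F.η, F.κ, F.fη, F.fκ, F.nη, F.nκ, -F.H, -F.H', -F.Th, -F.Th', by simp [F.hH], by simp [F.hT]⟩

lemma Lk.of_neg {X : Matrix (Fin 2) (Fin 2) ℝ} {F F' : Fr (Fin 2)}
    (h : Lk X F.H F.Th F'.neg.H F'.neg.Th) : Lk X F.H F.Th F'.H F'.Th := by
  obtain ⟨R, ε, hε, T, hT⟩ := h
  refine ⟨R, ε, hε, T, ?_⟩
  intro t ht A hA N N' hN hN' e1 e2
  have h : QI (F.Th * F.H * N) (-F'.Th * -F'.H * N') := hT t ht A hA N N' hN hN' e1 (by
    show -F'.H * N' * -F'.Th = A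
    rw [Matrix.neg_mul, Matrix.neg_mul, Matrix.mul_neg, neg_neg, e2])
  rw [Matrix.neg_mul, Matrix.mul_neg, neg_neg] at h
  exact h

lemma linked_det (X P Q P' Q' : Matrix (Fin 2) (Fin 2) ℝ) (hPQ : P * Q = 1) (hPQ' : P' * Q' = 1)
    (hB : PR (P * X * Q)) (hB' : PR (P' * X * Q')) (F F' : Fr (Fin 2)) (hF : Ins F P Q)
    (hF' : Ins F' P' Q') (hvF : Val X F.H F.Th) (hvF' : Val X F'.H F'.Th)
    (hdet : 0 < (P * Q').det) : Lk X F.H F.Th F'.H F'.Th := by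
  have hQP : Q * P = 1 := mul_eq_one_comm.mp hPQ
  have hQP' : Q' * P' = 1 := mul_eq_one_comm.mp hPQ'
  rcases lt_trichotomy 0 (2 * (P * X * Q) 1 0 * (P * Q') 0 0 +
      ((P * X * Q) 1 1 - (P * X * Q) 0 0) * (P * Q') 1 0) with hβ | hβ | hβ
  · exact linked_pos X P Q P' Q' hPQ hPQ' hB hB' F F' hF hF' hvF hvF' hdet hβ
  · exfalso
    have h : P * X * Q * (P * Q') = P * Q' * (P' * X * Q') := by
      have e1 : P * X * Q * (P * Q') = P * X * (Q * P) * Q' := by simp only [Matrix.mul_assoc]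
      have e2 : P * Q' * (P' * X * Q') = P * (Q' * P') * X * Q' := by
        simp only [Matrix.mul_assoc]
      rw [e1, e2, hQP, hQP', Matrix.mul_one, Matrix.mul_one]
    obtain ⟨A0, hA0⟩ : ∃ A0, A0 = P * X * Q := ⟨_, rfl⟩
    obtain ⟨B0, hB0⟩ : ∃ B0, B0 = P' * X * Q' := ⟨_, rfl⟩
    obtain ⟨C, hC⟩ : ∃ C, C = P * Q' := ⟨_, rfl⟩
    rw [← hA0, ← hC] at hβ
    rw [← hA0, ← hC, ← hB0] at h
    rw [← hA0] at hB
    rw [← hB0] at hB'
    rw [← hC] at hdet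
    have e00 := congrFun (congrFun h 0) 0
    have e10 := congrFun (congrFun h 1) 0
    simp only [Matrix.mul_apply, Fin.sum_univ_two] at e00 e10
    rw [Matrix.det_fin_two] at hdet
    have h1 : (2 * A0 1 0 * C 0 0 + (A0 1 1 - A0 0 0) * C 1 0) ^ 2 =
        4 * A0 1 0 * (B0 1 0 * (C 0 0 * C 1 1 - C 0 1 * C 1 0)) +
          ((A0 1 1 - A0 0 0) ^ 2 + 4 * A0 0 1 * A0 1 0) * C 1 0 ^ 2 := by
      linear_combination 4 * A0 1 0 * (C 0 0 * e10 - C 1 0 * e00)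
    rw [← hβ] at h1
    have h2 : 0 < 4 * A0 1 0 * (B0 1 0 * (C 0 0 * C 1 1 - C 0 1 * C 1 0)) := by
      have := hB 1 0
      have := hB' 1 0
      positivity
    have h3 : 0 ≤ ((A0 1 1 - A0 0 0) ^ 2 + 4 * A0 0 1 * A0 1 0) * C 1 0 ^ 2 := by
      have := hB 1 0
      have := hB 0 1
      positivity
    linarith
  · refine Lk.of_neg ?_
    refine linked_pos X P Q (-P') (-Q') hPQ ?_ hB ?_ F F'.neg hF ?_ hvF ?_ ?_ ?_
    · rw [Matrix.neg_mul, Matrix.mul_neg, neg_neg, hPQ']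
    · rw [Matrix.neg_mul, Matrix.neg_mul, Matrix.mul_neg, neg_neg]
      exact hB'
    · constructor
      · show PR (-P' * rl (-F'.H))
        rw [rl_neg, Matrix.neg_mul, Matrix.mul_neg, neg_neg]
        exact hF'.1
      · show PR (rl (-F'.Th) * -Q')
        rw [rl_neg, Matrix.neg_mul, Matrix.mul_neg, neg_neg]
        exact hF'.2
    · obtain ⟨N, hN, hN2⟩ := hvF'
      refine ⟨N, hN, ?_⟩
      show rl (-F'.H) * N * rl (-F'.Th) = X
      rw [rl_neg, rl_neg, Matrix.neg_mul, Matrix.neg_mul, Matrix.mul_neg, neg_neg]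
      exact hN2
    · rw [Matrix.mul_neg, Matrix.det_fin_two] at *
      simp only [Matrix.neg_apply]
      linarith
    · rw [Matrix.mul_neg]
      simp only [Matrix.neg_apply]
      linarith

lemma PR_W_mul {κ : Type} {M : Matrix (Fin 2) κ ℝ} (h : PR M) : PR (rl W * M) := by
  intro i j
  rw [Matrix.mul_apply, Fin.sum_univ_two]
  fin_cases i
  · simpa [W] using h 1 j
  · simpa [W] using h 0 j

lemma PR_mul_W {κ : Type} {M : Matrix κ (Fin 2) ℝ} (h : PR M) : PR (M * rl W) := by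
  intro i j
  rw [Matrix.mul_apply, Fin.sum_univ_two]
  fin_cases j
  · simpa [W] using h i 1
  · simpa [W] using h i 0

/-- a frame which is good at the real matrix `X` -/
def Good (X : Matrix (Fin 2) (Fin 2) ℝ) (F : Fr (Fin 2)) : Prop :=
  ∃ P Q : Matrix (Fin 2) (Fin 2) ℝ, P * Q = 1 ∧ PR (P * X * Q) ∧ Ins F P Q ∧ Val X F.H F.Th

/-- two good frames are linked -/
theorem Good.linked {X : Matrix (Fin 2) (Fin 2) ℝ} {F F' : Fr (Fin 2)} (h : Good X F)
    (h' : Good X F') : Lk X F.H F.Th F'.H F'.Th := by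
  obtain ⟨P, Q, hPQ, hB, hF, hvF⟩ := h
  obtain ⟨P', Q', hPQ', hB', hF', hvF'⟩ := h'
  have hne : (P * Q').det ≠ 0 := by
    intro h0
    have h1 : (P * Q').det * (P' * Q).det = 1 := by
      rw [← Matrix.det_mul]
      have hQP' : Q' * P' = 1 := mul_eq_one_comm.mp hPQ'
      have e : P * Q' * (P' * Q) = P * (Q' * P') * Q := by simp only [Matrix.mul_assoc]
      rw [e, hQP', Matrix.mul_one, hPQ, Matrix.det_one]
    rw [h0, zero_mul] at h1
    exact zero_ne_one h1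
  rcases lt_or_gt_of_ne hne with hd | hd
  · have hW : rl W * rl W = 1 := by rw [← rl_mul, W_mul_W, rl_one]
    refine linked_det X P Q (rl W * P') (Q' * rl W) hPQ ?_ hB ?_ F F' hF ?_ hvF hvF' ?_
    · have e : rl W * P' * (Q' * rl W) = rl W * (P' * Q') * rl W := by
        simp only [Matrix.mul_assoc]
      rw [e, hPQ', Matrix.mul_one, hW]
    · have e : rl W * P' * X * (Q' * rl W) = rl W * (P' * X * Q') * rl W := by
        simp only [Matrix.mul_assoc]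
      rw [e]
      exact PR_mul_W (PR_W_mul hB')
    · constructor
      · rw [Matrix.mul_assoc]
        exact PR_W_mul hF'.1
      · rw [← Matrix.mul_assoc]
        exact PR_mul_W hF'.2
    · rw [← Matrix.mul_assoc, Matrix.det_mul]
      have : (rl W).det = -1 := by
        rw [Matrix.det_fin_two]
        simp [W]
      rw [this]
      linarith
  · exact linked_det X P Q P' Q' hPQ hPQ' hB hB' F F' hF hF' hvF hvF' hd

lemma Good.open {X : Matrix (Fin 2) (Fin 2) ℝ} {F : Fr (Fin 2)} (h : Good X F) :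
    ∀ᶠ Y in 𝓝 X, Good Y F := by
  obtain ⟨P, Q, hPQ, hB, hF, ⟨N, hN, hN2⟩⟩ := h
  have h1 : ∀ᶠ Y in 𝓝 X, PR (P * Y * Q) := ev_pos (fun Y => P * Y * Q) X
    ((continuous_const.matrix_mul continuous_id).matrix_mul continuous_const).continuousAt hB
  have h2 : ∀ᶠ Y in 𝓝 X, PR (N + rl F.H' * (Y - X) * rl F.Th') :=
    ev_pos (fun Y => N + rl F.H' * (Y - X) * rl F.Th') X
      (continuous_const.add ((continuous_const.matrix_mul
        (continuous_id.sub continuous_const)).matrix_mul continuous_const)).continuousAt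
      (by simpa using hN)
  filter_upwards [h1, h2] with Y hY1 hY2
  refine ⟨P, Q, hPQ, hY1, hF, ⟨_, hY2, ?_⟩⟩
  have e1 : rl F.H * rl F.H' = 1 := by rw [← rl_mul, F.hH, rl_one]
  have e2 : rl F.Th' * rl F.Th = 1 := by rw [← rl_mul, F.hT, rl_one]
  have e3 : rl F.H * (rl F.H' * (Y - X) * rl F.Th') * rl F.Th =
      (rl F.H * rl F.H') * (Y - X) * (rl F.Th' * rl F.Th) := by
    simp only [Matrix.mul_assoc]
  rw [Matrix.mul_add, Matrix.add_mul, hN2, e3, e1, e2, Matrix.one_mul, Matrix.mul_one]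
  abel

/-- existence of a positive real conjugate -/
lemma exists_conj (X : Matrix (Fin 2) (Fin 2) ℝ) (htr : 0 < X 0 0 + X 1 1)
    (hdisc : 0 < (X 0 0 - X 1 1) ^ 2 + 4 * X 0 1 * X 1 0) :
    ∃ P Q : Matrix (Fin 2) (Fin 2) ℝ, P * Q = 1 ∧ PR (P * X * Q) := by
  have hv : ∃ x y : ℝ, 0 < X 1 0 * x ^ 2 + (X 1 1 - X 0 0) * x * y - X 0 1 * y ^ 2 := by
    rcases lt_trichotomy 0 (X 0 1) with h | h | h
    · refine ⟨1, (X 1 1 - X 0 0) / (2 * X 0 1), ?_⟩
      have e : X 1 0 * 1 ^ 2 + (X 1 1 - X 0 0) * 1 * ((X 1 1 - X 0 0) / (2 * X 0 1)) -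
          X 0 1 * ((X 1 1 - X 0 0) / (2 * X 0 1)) ^ 2 =
          ((X 0 0 - X 1 1) ^ 2 + 4 * X 0 1 * X 1 0) / (4 * X 0 1) := by
        field_simp
        ring
      rw [e]
      positivity
    · rw [← h] at hdisc ⊢
      have hne : X 1 1 - X 0 0 ≠ 0 := by
        intro h0
        have h1 : X 0 0 - X 1 1 = 0 := by linarith
        rw [h1] at hdisc
        simp at hdisc
      refine ⟨1, (1 - X 1 0) / (X 1 1 - X 0 0), ?_⟩
      have e : X 1 0 * 1 ^ 2 + (X 1 1 - X 0 0) * 1 * ((1 - X 1 0) / (X 1 1 - X 0 0)) -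
          0 * ((1 - X 1 0) / (X 1 1 - X 0 0)) ^ 2 = 1 := by
        field_simp
        ring
      rw [e]
      exact one_pos
    · exact ⟨0, 1, by linarith⟩
  obtain ⟨x, y, hxy⟩ := hv
  obtain ⟨p, hp⟩ : ∃ p, p = (X 0 0 + X 1 1) / 2 := ⟨_, rfl⟩
  obtain ⟨C, hC⟩ : ∃ C : Matrix (Fin 2) (Fin 2) ℝ, C =
      !![x, (X 0 0 * x + X 0 1 * y) - p * x; y, (X 1 0 * x + X 1 1 * y) - p * y] := ⟨_, rfl⟩
  have hdet : C.det = X 1 0 * x ^ 2 + (X 1 1 - X 0 0) * x * y - X 0 1 * y ^ 2 := by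
    rw [hC, Matrix.det_fin_two_of]
    ring
  have hinv : C⁻¹ * C = 1 :=
    Matrix.nonsing_inv_mul _ (isUnit_iff_ne_zero.mpr (by rw [hdet]; exact hxy.ne'))
  refine ⟨C⁻¹, C, hinv, ?_⟩
  have e : X * C = C * !![p, ((X 0 0 - X 1 1) ^ 2 + 4 * X 0 1 * X 1 0) / 4; 1, p] := by
    rw [hC, hp]
    ext i j
    fin_cases i <;> fin_cases j <;> simp [Matrix.mul_apply, Fin.sum_univ_two] <;> ring
  rw [Matrix.mul_assoc, e, ← Matrix.mul_assoc, hinv, Matrix.one_mul]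
  intro i j
  fin_cases i <;> fin_cases j
  · show 0 < p
    rw [hp]; linarith
  · show 0 < ((X 0 0 - X 1 1) ^ 2 + 4 * X 0 1 * X 1 0) / 4
    linarith
  · exact one_pos
  · show 0 < p
    rw [hp]; linarith

lemma exists_good (X : Matrix (Fin 2) (Fin 2) ℝ) (htr : 0 < X 0 0 + X 1 1)
    (hdisc : 0 < (X 0 0 - X 1 1) ^ 2 + 4 * X 0 1 * X 1 0) : ∃ F, Good X F := by
  obtain ⟨P, Q, hPQ, hB⟩ := exists_conj X htr hdisc
  obtain ⟨F, hF, hvF⟩ := exists_frame P Q X hPQ hB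
  exact ⟨F, P, Q, hPQ, hB, hF, hvF⟩

end Pool.Agent.U783.PT
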