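import Pool.Agent.U783.PT.Stage

/-!
# Shift equivalences over `ℤ`
-/

set_option autoImplicit false

namespace Pool.Agent.U783.PT

open Matrix Filter Topology

variable {ν : Type} [Fintype ν] [DecidableEq ν]

/-- a lattice containing the columns of a nonsingular matrix has a basis matrix -/
lemma basis_matrix (R : Matrix ν ν ℤ) (hR : R.det ≠ 0) (L : Submodule ℤ (ν → ℤ))
    (hL : LinearMap.range R.mulVecLin ≤ L) :
    ∃ R1 : Matrix ν ν ℤ, LinearMap.range R1.mulVecLin = L := by
  have h1 : Module.finrank ℤ (LinearMap.range R.mulVecLin) = Fintype.card ν := by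
    rw [LinearMap.finrank_range_of_inj (Matrix.mulVec_injective_of_det_ne_zero hR),
      Module.finrank_pi]
  have h2 : Module.finrank ℤ L = Fintype.card ν := by
    apply le_antisymm
    · have h := Submodule.finrank_le L
      rwa [Module.finrank_pi] at h
    · rw [← h1]
      exact Submodule.finrank_mono hL
  let b := (Module.finBasisOfFinrankEq ℤ L h2).reindex (Fintype.equivFin ν).symm
  let f : (ν → ℤ) →ₗ[ℤ] (ν → ℤ) := L.subtype ∘ₗ b.equivFun.symm.toLinearMap
  refine ⟨LinearMap.toMatrix' f, ?_⟩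
  rw [← Matrix.toLin'_apply', Matrix.toLin'_toMatrix']
  show LinearMap.range (L.subtype ∘ₗ b.equivFun.symm.toLinearMap) = L
  rw [LinearMap.range_comp, LinearEquiv.range, Submodule.map_top, Submodule.range_subtype]

lemma finite_lattices (R : Matrix ν ν ℤ) (hR : R.det ≠ 0) :
    Finite {L : Submodule ℤ (ν → ℤ) // LinearMap.range R.mulVecLin ≤ L} := by
  have h1 : Module.finrank ℤ (LinearMap.range R.mulVecLin) = Module.finrank ℤ (ν → ℤ) :=
    LinearMap.finrank_range_of_inj (Matrix.mulVec_injective_of_det_ne_zero hR)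
  have h2 : Finite ((ν → ℤ) ⧸ LinearMap.range R.mulVecLin) :=
    Submodule.finiteQuotientOfFreeOfRankEq _ h1
  have h3 : Finite (Submodule ℤ ((ν → ℤ) ⧸ LinearMap.range R.mulVecLin)) :=
    Finite.of_injective (fun S => (S : Set ((ν → ℤ) ⧸ LinearMap.range R.mulVecLin)))
      SetLike.coe_injective
  exact Finite.of_equiv _ (Submodule.comapMkQRelIso (LinearMap.range R.mulVecLin)).toEquiv

lemma factor (A B : Matrix ν ν ℤ) (h : LinearMap.range A.mulVecLin ≤ LinearMap.range B.mulVecLin) :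
    ∃ S : Matrix ν ν ℤ, A = B * S := by
  have h1 : ∀ j, ∃ s : ν → ℤ, B *ᵥ s = A *ᵥ (Pi.single j 1) := by
    intro j
    have h2 := h (LinearMap.mem_range_self A.mulVecLin (Pi.single j 1))
    obtain ⟨s, hs⟩ := h2
    exact ⟨s, hs⟩
  choose s hs using h1
  refine ⟨Matrix.of fun i j => s j i, ?_⟩
  ext i j
  have h3 := congrFun (hs j) i
  rw [Matrix.mulVec_single_one] at h3
  rw [Matrix.mul_apply]
  exact h3.symm

lemma factor_sup (A R R1 : Matrix ν ν ℤ)
    (h : LinearMap.range R1.mulVecLin ≤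
      LinearMap.range A.mulVecLin ⊔ LinearMap.range R.mulVecLin) :
    ∃ U V : Matrix ν ν ℤ, R1 = A * U + R * V := by
  have h1 : ∀ j, ∃ u v : ν → ℤ, A *ᵥ u + R *ᵥ v = R1 *ᵥ (Pi.single j 1) := by
    intro j
    have h2 := h (LinearMap.mem_range_self R1.mulVecLin (Pi.single j 1))
    rw [Submodule.mem_sup] at h2
    obtain ⟨y, ⟨u, hu⟩, z, ⟨v, hv⟩, hyz⟩ := h2
    refine ⟨u, v, ?_⟩
    rw [← Matrix.mulVecLin_apply, ← Matrix.mulVecLin_apply, hu, hv, hyz]
    rfl
  choose u v huv using h1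
  refine ⟨Matrix.of fun i j => u j i, Matrix.of fun i j => v j i, ?_⟩
  ext i j
  have h3 := congrFun (huv j) i
  rw [Matrix.mulVec_single_one] at h3
  rw [Matrix.add_apply, Matrix.mul_apply, Matrix.mul_apply]
  exact h3.symm

lemma rl_inj {A B : Matrix ν ν ℤ} (h : rl A = rl B) : A = B := by
  ext i j
  have h1 := congrFun (congrFun h i) j
  rw [rl_apply, rl_apply] at h1
  exact_mod_cast h1

lemma cancel {R1 Y Z : Matrix ν ν ℤ} {R1i : Matrix ν ν ℝ} (h : R1i * rl R1 = 1)
    (h1 : R1 * Y = R1 * Z) : Y = Z := by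
  apply rl_inj
  have h2 : R1i * rl (R1 * Y) = R1i * rl (R1 * Z) := by rw [h1]
  rwa [rl_mul, rl_mul, ← Matrix.mul_assoc, ← Matrix.mul_assoc, h, Matrix.one_mul,
    Matrix.one_mul] at h2

lemma real_inv (R : Matrix ν ν ℤ) (hR : R.det ≠ 0) : ∃ Ri : Matrix ν ν ℝ, rl R * Ri = 1 := by
  refine ⟨(rl R)⁻¹, Matrix.mul_nonsing_inv _ ?_⟩
  have h : (rl R).det = (R.det : ℝ) := by
    have := (Int.castRingHom ℝ).map_det R
    simp only [eq_intCast] at this
    rw [this]
    rfl
  rw [h, isUnit_iff_ne_zero]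
  exact_mod_cast hR

/-- if `1 ∈ A M + R M` and `A^l ∈ R M`, `A R = R B`, then `R` is invertible -/
lemma unimod {A B R U V : Matrix ν ν ℤ} (h1 : (1 : Matrix ν ν ℤ) = A * U + R * V)
    (h2 : A * R = R * B) {l : ℕ} {S : Matrix ν ν ℤ} (h3 : A ^ l = R * S) :
    ∃ W, R * W = 1 := by
  have key : ∀ k : ℕ, ∃ U' V', (1 : Matrix ν ν ℤ) = A ^ k * U' + R * V' := by
    intro k
    induction k with
    | zero => exact ⟨1, 0, by simp⟩
    | succ k ih =>
      obtain ⟨U', V', h⟩ := ih
      refine ⟨U' * U, B * V' * U + V, ?_⟩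
      calc (1 : Matrix ν ν ℤ) = A * 1 * U + R * V := by rw [Matrix.mul_one]; exact h1
        _ = A * (A ^ k * U' + R * V') * U + R * V := by rw [← h]
        _ = A ^ (k + 1) * (U' * U) + (A * R) * V' * U + R * V := by
          rw [pow_succ']
          noncomm_ring
        _ = _ := by
          rw [h2]
          noncomm_ring
  obtain ⟨U', V', h⟩ := key l
  refine ⟨S * U' + V', ?_⟩
  rw [h, h3]
  noncomm_ring

variable [Nonempty ν]

theorem ladder (d : ℕ) : ∀ (R : Matrix ν ν ℤ), R.det.natAbs = d → R.det ≠ 0 →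
    ∀ (A0 P Q Ri : Matrix ν ν ℝ), P * Q = 1 → PR (P * A0 * Q) → rl R * Ri = 1 →
    ∀ F F' : Fr ν, Ins F P Q → Val A0 F.H F.Th → Ins F' (P * rl R) (Ri * Q) →
    Val (Ri * A0 * rl R) F'.H F'.Th →
    L2 A0 (fun A B => A * R = R * B ∧ ∃ (l : ℕ) (S : Matrix ν ν ℤ), A ^ l = R * S) F F' := by
  induction d using Nat.strong_induction_on with
  | _ d ih =>
  intro R hd hdet A0 P Q Ri hPQ hB hR F F' hF hvF hF' hvF'
  by_cases hd1 : d = 1
  · rw [hd1, Int.natAbs_eq_iff] at hd
    have hu : IsUnit R.det := by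
      rw [Int.isUnit_iff]
      exact_mod_cast hd
    refine (stage A0 P Q hPQ hB R Ri hR F F' hF hvF hF' hvF').mono ?_
    rintro A B ⟨h1, -⟩
    refine ⟨R⁻¹ * A, ?_, ?_⟩
    · rw [← Matrix.mul_assoc, Matrix.mul_nonsing_inv _ hu, Matrix.one_mul]
    · rw [Matrix.mul_assoc, h1, ← Matrix.mul_assoc, Matrix.nonsing_inv_mul _ hu, Matrix.one_mul]
  have hfin := finite_lattices R hdet
  have key : ∀ i : {L : Submodule ℤ (ν → ℤ) // LinearMap.range R.mulVecLin ≤ L},
      L2 A0 (fun A B => LinearMap.range A.mulVecLin ⊔ LinearMap.range R.mulVecLin = i.1 ∧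
        A * R = R * B ∧ ∃ (l : ℕ) (S : Matrix ν ν ℤ), A ^ l = R * S) F F' := by
    rintro ⟨L, hL⟩
    simp only
    obtain ⟨R1, hR1⟩ := basis_matrix R hdet L hL
    obtain ⟨X, hX⟩ := factor R R1 (by rw [hR1]; exact hL)
    have hdet2 : R.det = R1.det * X.det := by rw [hX, Matrix.det_mul]
    have hdR1 : R1.det ≠ 0 := by
      intro h; rw [h, zero_mul] at hdet2; exact hdet hdet2
    have hdX : X.det ≠ 0 := by
      intro h; rw [h, mul_zero] at hdet2; exact hdet hdet2
    by_cases hu : R1.det.natAbs = 1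
    · refine ⟨0, 1, one_pos, 0, ?_⟩
      rintro t ht A B hA ⟨h1, h2, l, S, h3⟩
      exfalso
      rw [Int.natAbs_eq_iff] at hu
      have hu' : IsUnit R1.det := by
        rw [Int.isUnit_iff]
        exact_mod_cast hu
      obtain ⟨U, V, hUV⟩ := factor_sup A R R1 (by rw [hR1, h1])
      obtain ⟨W, hW⟩ := unimod (A := A) (B := B) (R := R) (U := U * R1⁻¹) (V := V * R1⁻¹)
        (by
          rw [← Matrix.mul_assoc, ← Matrix.mul_assoc, ← Matrix.add_mul, ← hUV,
            Matrix.mul_nonsing_inv _ hu']) h2 h3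
      have h4 : R.det * W.det = 1 := by rw [← Matrix.det_mul, hW, Matrix.det_one]
      have h5 : IsUnit R.det := IsUnit.of_mul_eq_one _ h4
      rw [Int.isUnit_iff_natAbs_eq] at h5
      exact hd1 (hd.symm.trans h5)
    · obtain ⟨R1i, hR1i⟩ := real_inv R1 hdR1
      have hR1i' : R1i * rl R1 = 1 := mul_eq_one_comm.mp hR1i
      have hRi' : Ri * rl R = 1 := mul_eq_one_comm.mp hR
      have hXlt : X.det.natAbs < d := by
        rw [← hd, hdet2, Int.natAbs_mul]
        have h1 : R1.det.natAbs ≠ 0 := Int.natAbs_ne_zero.mpr hdR1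
        have h2 : X.det.natAbs ≠ 0 := Int.natAbs_ne_zero.mpr hdX
        have h3 : 2 ≤ R1.det.natAbs := by omega
        calc X.det.natAbs < 2 * X.det.natAbs := by omega
          _ ≤ R1.det.natAbs * X.det.natAbs := Nat.mul_le_mul_right _ h3
      have hrX : rl R = rl R1 * rl X := by rw [← rl_mul, ← hX]
      have hPQ1 : P * rl R1 * (R1i * Q) = 1 := by
        rw [← Matrix.mul_assoc, Matrix.mul_assoc P, hR1i, Matrix.mul_one, hPQ]
      have hB1 : PR (P * rl R1 * (R1i * A0 * rl R1) * (R1i * Q)) := by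
        have e : P * rl R1 * (R1i * A0 * rl R1) * (R1i * Q) =
            P * (rl R1 * R1i) * A0 * (rl R1 * R1i) * Q := by
          simp only [Matrix.mul_assoc]
        rw [e, hR1i, Matrix.mul_one, Matrix.mul_one]
        exact hB
      have hXi : rl X * (Ri * rl R1) = 1 := by
        have e : rl X = R1i * rl R := by
          rw [hrX, ← Matrix.mul_assoc, hR1i', Matrix.one_mul]
        rw [e, ← Matrix.mul_assoc, Matrix.mul_assoc R1i, hR, Matrix.mul_one, hR1i']
      obtain ⟨G, hG, hvG⟩ := exists_frame (P * rl R1) (R1i * Q) (R1i * A0 * rl R1) hPQ1 hB1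
      have s1 := stage A0 P Q hPQ hB R1 R1i hR1i F G hF hvF hG hvG
      have s2 := ih _ hXlt X rfl hdX (R1i * A0 * rl R1) (P * rl R1) (R1i * Q) (Ri * rl R1) hPQ1
        hB1 hXi G F' hG hvG (by
          have e1 : P * rl R1 * rl X = P * rl R := by rw [Matrix.mul_assoc, ← hrX]
          have e2 : Ri * rl R1 * (R1i * Q) = Ri * Q := by
            rw [Matrix.mul_assoc, ← Matrix.mul_assoc (rl R1), hR1i, Matrix.one_mul]
          rw [e1, e2]
          exact hF') (by
          have e : Ri * rl R1 * (R1i * A0 * rl R1) * rl X =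
              Ri * (rl R1 * R1i) * A0 * (rl R1 * rl X) := by
            simp only [Matrix.mul_assoc]
          rw [e, hR1i, Matrix.mul_one, ← hrX]
          exact hvF')
      refine (L2.comp hvG (sz (rl R1) * sz R1i) (mul_nonneg (sz_nonneg _) (sz_nonneg _)) ?_ s1
        s2).mono ?_
      · rintro ε t hε ht A A1 hA ⟨S, hS1, hS2⟩
        refine near_lin hε ht R1i (rl R1) hA ?_
        rw [hS1, hS2, rl_mul, rl_mul, ← Matrix.mul_assoc R1i, hR1i', Matrix.one_mul]
      · rintro A B ⟨h1, h2, l, S', h3⟩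
        obtain ⟨S, hS⟩ := factor A R1 (by rw [hR1, ← h1]; exact le_sup_left)
        refine ⟨S * R1, ⟨S, hS, rfl⟩, ?_, l, S' * R1, ?_⟩
        · apply cancel hR1i'
          calc R1 * (S * R1 * X) = (R1 * S) * (R1 * X) := by simp only [Matrix.mul_assoc]
            _ = A * R := by rw [← hS, ← hX]
            _ = R * B := h2
            _ = R1 * (X * B) := by rw [hX, Matrix.mul_assoc]
        · apply cancel hR1i'
          have hcomm : ∀ k : ℕ, R1 * (S * R1) ^ k = A ^ k * R1 := by
            intro k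
            induction k with
            | zero => simp
            | succ k ihk =>
              rw [pow_succ, ← Matrix.mul_assoc, ihk, pow_succ, Matrix.mul_assoc,
                ← Matrix.mul_assoc R1 S R1, ← hS, Matrix.mul_assoc]
          rw [hcomm, h3, hX]
          simp only [Matrix.mul_assoc]
  refine (L2.iUnion key).mono ?_
  rintro A B ⟨h1, h2⟩
  exact ⟨⟨_, le_sup_right⟩, rfl, h1, h2⟩

end Pool.Agent.U783.PT
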