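import Pool.Agent.U783.PT.Exist

/-!
# Links between frames
-/

set_option autoImplicit false

namespace Pool.Agent.U783.PT

open Matrix

variable {ν : Type} [Fintype ν] [DecidableEq ν]

lemma le_sz {ι κ : Type} [Fintype ι] [Fintype κ] (A : Matrix ι κ ℤ) (i : ι) (j : κ) :
    A i j ≤ sz A := by
  have h1 : |A i j| ≤ ∑ j, |A i j| :=
    Finset.single_le_sum (f := fun j => |A i j|) (fun _ _ => abs_nonneg _) (Finset.mem_univ j)
  exact (le_abs_self _).trans (h1.trans (row_le_sz A i))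

lemma linkH {η1 η2 κ : Type} [Fintype η1] [Fintype η2] [Fintype κ] (H1 : Matrix ν η1 ℤ)
    (H1' : Matrix η1 ν ℤ) (H2 : Matrix ν η2 ℤ) (Th : Matrix κ ν ℤ) (Th' : Matrix ν κ ℤ)
    (hH1 : H1 * H1' = 1) (hT : Th' * Th = 1) (hp1 : NN (Th * H1)) (hp2 : NN (Th * H2))
    (Y : Matrix η1 κ ℤ) (Z : Matrix η2 κ ℤ) (hY : ∀ i j, 1 ≤ Y i j) (hZ : ∀ i j, 1 ≤ Z i j)
    (h : H1 * Y = H2 * Z) :
    ∃ R : ℤ, ∀ (N1 : Matrix η1 κ ℤ) (N2 : Matrix η2 κ ℤ), (∀ i j, R ≤ N1 i j) →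
      (∀ i j, R ≤ N2 i j) → H1 * N1 * Th = H2 * N2 * Th → QI (Th * H1 * N1) (Th * H2 * N2) := by
  obtain ⟨R, hR, hd⟩ := deep (Matrix.fromCols H1 H2) (Matrix.fromRows H1' 0) Th Th'
    (by rw [Matrix.fromCols_mul_fromRows, hH1]; simp) hT (by
      rw [Matrix.mul_fromCols]
      rintro i (j | j)
      · exact hp1 i j
      · exact hp2 i j)
  refine ⟨R + R * (sz Y + sz Z), ?_⟩
  intro N1 N2 hN1 hN2 hE
  have hsY := sz_nonneg Y
  have hsZ := sz_nonneg Z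
  have k1 : Matrix.fromCols H1 H2 * Matrix.fromRows (N1 - R • Y) (R • Z) = H1 * N1 := by
    rw [Matrix.fromCols_mul_fromRows, Matrix.mul_sub, Matrix.mul_smul, Matrix.mul_smul, h]
    abel
  have k2 : Matrix.fromCols H1 H2 * Matrix.fromRows (R • Y) (N2 - R • Z) = H2 * N2 := by
    rw [Matrix.fromCols_mul_fromRows, Matrix.mul_sub, Matrix.mul_smul, Matrix.mul_smul, h]
    abel
  have hq := hd (Matrix.fromRows (N1 - R • Y) (R • Z)) (Matrix.fromRows (R • Y) (N2 - R • Z))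
    (by
      rintro (i | i) j
      · show R ≤ N1 i j - R * Y i j
        have h1 := hN1 i j
        have h2 := mul_le_mul_of_nonneg_left (le_sz Y i j) hR
        have h3 := mul_nonneg hR hsZ
        linarith
      · show R ≤ R * Z i j
        have h2 := mul_le_mul_of_nonneg_left (hZ i j) hR
        linarith)
    (by
      rintro (i | i) j
      · show R ≤ R * Y i j
        have h2 := mul_le_mul_of_nonneg_left (hY i j) hR
        linarith
      · show R ≤ N2 i j - R * Z i j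
        have h1 := hN2 i j
        have h2 := mul_le_mul_of_nonneg_left (le_sz Z i j) hR
        have h3 := mul_nonneg hR hsY
        linarith)
    (by rw [k1, k2, hE])
  rw [Matrix.mul_assoc Th, k1, Matrix.mul_assoc Th, k2, ← Matrix.mul_assoc, ← Matrix.mul_assoc]
    at hq
  exact hq

/-- two frames with the same `Th`, both valid at the same real matrix -/
lemma core [Nonempty ν] {η1 η2 κ : Type} [Fintype η1] [Fintype η2] [Fintype κ]
    (H1 : Matrix ν η1 ℤ)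
    (H1' : Matrix η1 ν ℤ) (H2 : Matrix ν η2 ℤ) (Th : Matrix κ ν ℤ) (Th' : Matrix ν κ ℤ)
    (hH1 : H1 * H1' = 1) (hT : Th' * Th = 1) (hp1 : NN (Th * H1)) (hp2 : NN (Th * H2))
    (M1 : Matrix η1 κ ℝ) (M2 : Matrix η2 κ ℝ) (hM1 : PR M1) (hM2 : PR M2)
    (h : rl H1 * M1 * rl Th = rl H2 * M2 * rl Th) :
    ∃ R : ℤ, ∀ (N1 : Matrix η1 κ ℤ) (N2 : Matrix η2 κ ℤ), (∀ i j, R ≤ N1 i j) →
      (∀ i j, R ≤ N2 i j) → H1 * N1 * Th = H2 * N2 * Th → QI (Th * H1 * N1) (Th * H2 * N2) := by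
  classical
  have hex : ∃ k a, 0 < (Th * H1) k a := by
    by_contra hcon
    push Not at hcon
    have h0 : Th * H1 = 0 := by
      ext k a
      exact le_antisymm (hcon k a) (hp1 k a)
    have h1 : Th' * (Th * H1) * H1' = 1 := by
      rw [← Matrix.mul_assoc, hT, Matrix.one_mul, hH1]
    rw [h0, Matrix.mul_zero, Matrix.zero_mul] at h1
    obtain ⟨v⟩ := ‹Nonempty ν›
    have h2 := congrFun (congrFun h1 v) v
    rw [Matrix.one_apply_eq, Matrix.zero_apply] at h2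
    exact zero_ne_one h2
  obtain ⟨J, hJ⟩ : ∃ J : Matrix η1 κ ℝ, J = fun _ _ => 1 := ⟨_, rfl⟩
  obtain ⟨W, hW⟩ : ∃ W : Matrix κ κ ℝ, W = rl (Th * H1) * J := ⟨_, rfl⟩
  have hWe : ∀ k j, W k j = ∑ a, ((Th * H1) k a : ℝ) := by
    intro k j
    rw [hW, Matrix.mul_apply]
    exact Finset.sum_congr rfl fun a _ => by rw [rl_apply, hJ, mul_one]
  have hW0 : ∀ k j, 0 ≤ W k j := by
    intro k j
    rw [hWe]
    exact Finset.sum_nonneg fun a _ => by exact_mod_cast hp1 k a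
  obtain ⟨k0, a0, hk0⟩ := hex
  have hW1 : ∀ j, 0 < W k0 j := by
    intro j
    rw [hWe]
    exact Finset.sum_pos' (fun a _ => by exact_mod_cast hp1 k0 a)
      ⟨a0, Finset.mem_univ _, by exact_mod_cast hk0⟩
  have hpos : ∀ {η : Type} (M : Matrix η κ ℝ), PR M → PR (M * W) := by
    intro η M hM i j
    rw [Matrix.mul_apply]
    exact Finset.sum_pos' (fun k _ => mul_nonneg (hM i k).le (hW0 k j))
      ⟨k0, Finset.mem_univ _, mul_pos (hM i k0) (hW1 j)⟩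
  obtain ⟨Y, Z, hY, hZ, hYZ⟩ := relation H1 H1' H2 hH1 (M1 * W) (M2 * W) (hpos M1 hM1)
    (hpos M2 hM2) (by
      rw [hW, rl_mul, ← Matrix.mul_assoc, ← Matrix.mul_assoc, ← Matrix.mul_assoc,
        ← Matrix.mul_assoc, ← Matrix.mul_assoc, ← Matrix.mul_assoc, h])
  exact linkH H1 H1' H2 Th Th' hH1 hT hp1 hp2 Y Z hY hZ hYZ

/-- validity of a frame at a real matrix -/
def Val {η κ : Type} [Fintype η] [Fintype κ] (X0 : Matrix ν ν ℝ) (H : Matrix ν η ℤ)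
    (Th : Matrix κ ν ℤ) : Prop := ∃ N : Matrix η κ ℝ, PR N ∧ rl H * N * rl Th = X0

/-- two frames give equivalent matrices for all integer matrices near a large multiple of `X0` -/
def Lk {η κ η' κ' : Type} [Fintype η] [Fintype κ] [Fintype η'] [Fintype κ'] (X0 : Matrix ν ν ℝ)
    (H : Matrix ν η ℤ) (Th : Matrix κ ν ℤ) (G : Matrix ν η' ℤ) (Ps : Matrix κ' ν ℤ) : Prop :=
  ∃ R : ℤ, ∃ ε : ℝ, 0 < ε ∧ ∃ T : ℝ, ∀ t : ℝ, T ≤ t → ∀ A : Matrix ν ν ℤ, Near X0 ε t A →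
    ∀ (N : Matrix η κ ℤ) (N' : Matrix η' κ' ℤ), (∀ i j, R ≤ N i j) → (∀ i j, R ≤ N' i j) →
      H * N * Th = A → G * N' * Ps = A → QI (Th * H * N) (Ps * G * N')

section
variable {η κ η' κ' η'' κ'' : Type} [Fintype η] [Fintype κ] [Fintype η'] [Fintype κ']
  [Fintype η''] [Fintype κ'']

omit [DecidableEq ν] in
lemma Lk.symm {X0 : Matrix ν ν ℝ} {H : Matrix ν η ℤ} {Th : Matrix κ ν ℤ} {G : Matrix ν η' ℤ}
    {Ps : Matrix κ' ν ℤ} (h : Lk X0 H Th G Ps) : Lk X0 G Ps H Th := by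
  obtain ⟨R, ε, hε, T, hT⟩ := h
  exact ⟨R, ε, hε, T, fun t ht A hA N N' hN hN' h1 h2 =>
    (hT t ht A hA N' N hN' hN h2 h1).symm⟩

lemma Lk.trans {X0 : Matrix ν ν ℝ} {H : Matrix ν η ℤ} {Th : Matrix κ ν ℤ} {G : Matrix ν η' ℤ}
    {Ps : Matrix κ' ν ℤ} {K : Matrix ν η'' ℤ} {Om : Matrix κ'' ν ℤ} (G' : Matrix η' ν ℤ)
    (Ps' : Matrix ν κ' ℤ) (hG : G * G' = 1) (hP : Ps' * Ps = 1) (hv : Val X0 G Ps)
    (h1 : Lk X0 H Th G Ps) (h2 : Lk X0 G Ps K Om) : Lk X0 H Th K Om := by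
  obtain ⟨R1, ε1, hε1, T1, hT1⟩ := h1
  obtain ⟨R2, ε2, hε2, T2, hT2⟩ := h2
  obtain ⟨M, hM, hM2⟩ := hv
  obtain ⟨ε3, hε3, T3, hT3⟩ := exist G G' Ps Ps' hG hP X0 M hM hM2 (max R1 R2)
  refine ⟨max R1 R2, min ε1 (min ε2 ε3), by positivity, max 0 (max T1 (max T2 T3)), ?_⟩
  intro t ht A hA N N' hN hN' e1 e2
  simp only [max_le_iff] at ht
  obtain ⟨ht0, ht1, ht2, ht3⟩ := ht
  have hA1 : Near X0 ε1 t A := fun i j => (hA i j).trans
    (mul_le_mul_of_nonneg_right (min_le_left _ _) ht0)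
  have hA2 : Near X0 ε2 t A := fun i j => (hA i j).trans
    (mul_le_mul_of_nonneg_right ((min_le_right _ _).trans (min_le_left _ _)) ht0)
  have hA3 : Near X0 ε3 t A := fun i j => (hA i j).trans
    (mul_le_mul_of_nonneg_right ((min_le_right _ _).trans (min_le_right _ _)) ht0)
  obtain ⟨L, hL, hL2⟩ := hT3 t ht3 A hA3
  exact (hT1 t ht1 A hA1 N L (fun i j => (le_max_left _ _).trans (hN i j))
    (fun i j => (le_max_left _ _).trans (hL i j)) e1 hL2).trans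
    (hT2 t ht2 A hA2 L N' (fun i j => (le_max_right _ _).trans (hL i j))
    (fun i j => (le_max_right _ _).trans (hN' i j)) hL2 e2)

lemma lk_shareTh [Nonempty ν] {X0 : Matrix ν ν ℝ} (H1 : Matrix ν η ℤ) (H1' : Matrix η ν ℤ)
    (H2 : Matrix ν η' ℤ) (Th : Matrix κ ν ℤ) (Th' : Matrix ν κ ℤ) (hH1 : H1 * H1' = 1)
    (hT : Th' * Th = 1) (hp1 : NN (Th * H1)) (hp2 : NN (Th * H2)) (hv1 : Val X0 H1 Th)
    (hv2 : Val X0 H2 Th) : Lk X0 H1 Th H2 Th := by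
  obtain ⟨M1, hM1, e1⟩ := hv1
  obtain ⟨M2, hM2, e2⟩ := hv2
  obtain ⟨R, hR⟩ := core H1 H1' H2 Th Th' hH1 hT hp1 hp2 M1 M2 hM1 hM2 (e1.trans e2.symm)
  exact ⟨R, 1, one_pos, 0, fun t _ A _ N N' hN hN' h1 h2 => hR N N' hN hN' (h1.trans h2.symm)⟩

lemma lk_shareH [Nonempty ν] {X0 : Matrix ν ν ℝ} (H : Matrix ν η ℤ) (H' : Matrix η ν ℤ)
    (Th1 : Matrix κ ν ℤ) (Th1' : Matrix ν κ ℤ) (Th2 : Matrix κ' ν ℤ) (hH : H * H' = 1)
    (hT1 : Th1' * Th1 = 1) (hp1 : NN (Th1 * H)) (hp2 : NN (Th2 * H)) (hv1 : Val X0 H Th1)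
    (hv2 : Val X0 H Th2) : Lk X0 H Th1 H Th2 := by
  obtain ⟨M1, hM1, e1⟩ := hv1
  obtain ⟨M2, hM2, e2⟩ := hv2
  obtain ⟨R, hR⟩ := core Th1ᵀ Th1'ᵀ Th2ᵀ Hᵀ H'ᵀ (by rw [← Matrix.transpose_mul, hT1]; simp)
    (by rw [← Matrix.transpose_mul, hH]; simp)
    (by rw [← Matrix.transpose_mul]; exact fun i j => hp1 j i)
    (by rw [← Matrix.transpose_mul]; exact fun i j => hp2 j i)
    M1ᵀ M2ᵀ (fun i j => hM1 j i) (fun i j => hM2 j i)
    (by
      rw [rl_transpose, rl_transpose, rl_transpose, ← Matrix.transpose_mul,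
        ← Matrix.transpose_mul, ← Matrix.transpose_mul, ← Matrix.transpose_mul,
        ← Matrix.mul_assoc, ← Matrix.mul_assoc, e1, e2])
  refine ⟨max R 0, 1, one_pos, 0, fun t _ A _ N N' hN hN' h1 h2 => ?_⟩
  have hq := (hR Nᵀ N'ᵀ (fun i j => (le_max_left _ _).trans (hN j i))
    (fun i j => (le_max_left _ _).trans (hN' j i)) (by
    rw [← Matrix.transpose_mul, ← Matrix.transpose_mul, ← Matrix.transpose_mul,
        ← Matrix.transpose_mul, ← Matrix.mul_assoc, ← Matrix.mul_assoc, h1, h2])).transpose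
  rw [← Matrix.transpose_mul, ← Matrix.transpose_mul, ← Matrix.transpose_mul,
        ← Matrix.transpose_mul, Matrix.transpose_transpose, Matrix.transpose_transpose] at hq
  have q1 : QI (Th1 * H * N) (N * (Th1 * H)) :=
    QI.move _ _ hp1 (fun i j => (le_max_right _ _).trans (hN i j))
  have q2 : QI (Th2 * H * N') (N' * (Th2 * H)) :=
    QI.move _ _ hp2 (fun i j => (le_max_right _ _).trans (hN' i j))
  exact (q1.trans hq).trans q2.symm

end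

end Pool.Agent.U783.PT
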