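import Pool.Agent.U783.PT.Ladder

/-!
# The path theorem
-/

set_option autoImplicit false

namespace Pool.Agent.U783.PT

open Matrix Filter Topology

variable {ν : Type} [Fintype ν] [DecidableEq ν] [Nonempty ν]

/-- The path theorem for shift equivalences. -/
theorem se_path {X : Type} [TopologicalSpace X] [PreconnectedSpace X] (A0 : Matrix ν ν ℝ)
    (R : Matrix ν ν ℤ) (hdet : R.det ≠ 0) (C D : X → Matrix ν ν ℝ) (hC : Continuous C)
    (hD : Continuous D) (hDC : ∀ x, D x * C x = 1) (hpos : ∀ x, PR (D x * A0 * C x))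
    (x0 x1 : X) (h0 : C x0 = 1) (h1 : C x1 = rl R) :
    ∃ ε : ℝ, 0 < ε ∧ ∃ T : ℝ, ∀ t : ℝ, T ≤ t → ∀ A B : Matrix ν ν ℤ, Near A0 ε t A →
      A * R = R * B → (∃ (l : ℕ) (S : Matrix ν ν ℤ), A ^ l = R * S) →
      NN A ∧ NN B ∧ QI A B := by
  obtain ⟨Ri, hRi⟩ : ∃ Ri, Ri = D x1 := ⟨_, rfl⟩
  have hRi1 : Ri * rl R = 1 := by rw [hRi, ← h1]; exact hDC x1
  have hRi2 : rl R * Ri = 1 := mul_eq_one_comm.mp hRi1
  have hCD : ∀ x, C x * D x = 1 := fun x => mul_eq_one_comm.mp (hDC x)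
  have hD0 : D x0 = 1 := by
    have h := hDC x0
    rwa [h0, Matrix.mul_one] at h
  have hA0 : PR A0 := by
    have h := hpos x0
    rwa [h0, hD0, Matrix.one_mul, Matrix.mul_one] at h
  obtain ⟨B0, hB0⟩ : ∃ B0, B0 = Ri * A0 * rl R := ⟨_, rfl⟩
  have hB0p : PR B0 := by
    have h := hpos x1
    rwa [h1, ← hRi, ← hB0] at h
  obtain ⟨G0, hG0, hvG0, hl0⟩ := lk_end (1 : Matrix ν ν ℤ) 1 A0 (by simp) (by
    rw [rl_one]; simpa using hA0)
  obtain ⟨G2, hG2, hvG2, hl2⟩ := lk_end (1 : Matrix ν ν ℤ) 1 B0 (by simp) (by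
    rw [rl_one]; simpa using hB0p)
  rw [rl_one] at hG0 hG2
  have hconj : rl R * B0 * Ri = A0 := by
    rw [hB0]
    have e : rl R * (Ri * A0 * rl R) * Ri = (rl R * Ri) * A0 * (rl R * Ri) := by
      simp only [Matrix.mul_assoc]
    rw [e, hRi2, Matrix.one_mul, Matrix.mul_one]
  obtain ⟨G1, hG1, hvG1⟩ := exists_frame (rl R) Ri B0 hRi2 (by rw [hconj]; exact hA0)
  have l1 := ladder R.det.natAbs R rfl hdet A0 1 1 Ri (by simp) (by simpa using hA0) hRi2 G0 G1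
    hG0 hvG0 (by rw [Matrix.one_mul, Matrix.mul_one]; exact hG1) (by rw [← hB0]; exact hvG1)
  have l2 : Lk B0 G1.H G1.Th G2.H G2.Th := by
    refine lk_conn B0 (fun x => D x * rl R) (fun x => Ri * C x) (hD.matrix_mul continuous_const)
      (continuous_const.matrix_mul hC) ?_ ?_ x0 x1 G1 G2 ?_ ?_ hvG1 hvG2
    · intro x
      show D x * rl R * (Ri * C x) = 1
      rw [← Matrix.mul_assoc, Matrix.mul_assoc (D x), hRi2, Matrix.mul_one, hDC]
    · intro x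
      show PR (D x * rl R * B0 * (Ri * C x))
      have e : D x * rl R * B0 * (Ri * C x) = D x * (rl R * B0 * Ri) * C x := by
        simp only [Matrix.mul_assoc]
      rw [e, hconj]
      exact hpos x
    · show Ins G1 (D x0 * rl R) (Ri * C x0)
      rw [hD0, h0, Matrix.one_mul, Matrix.mul_one]
      exact hG1
    · show Ins G2 (D x1 * rl R) (Ri * C x1)
      rw [← hRi, hRi1, h1, hRi1]
      exact hG2
  have l3 : Lk B0 G1.H G1.Th (1 : Matrix ν ν ℤ) (1 : Matrix ν ν ℤ) :=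
    Lk.trans G2.H' G2.Th' G2.hH G2.hT hvG2 l2 hl2.symm
  obtain ⟨R1, ε1, hε1, T1, hT1⟩ := hl0
  obtain ⟨R2, ε2, hε2, T2, hT2⟩ := l1
  obtain ⟨R3, ε3, hε3, T3, hT3⟩ := l3
  obtain ⟨M0, hM0, hM0'⟩ := hvG0
  obtain ⟨M1, hM1, hM1'⟩ := hvG1
  obtain ⟨ε4, hε4, T4, hT4⟩ := exist G0.H G0.H' G0.Th G0.Th' G0.hH G0.hT A0 M0 hM0 hM0'
    (max R1 R2)
  obtain ⟨ε5, hε5, T5, hT5⟩ := exist G1.H G1.H' G1.Th G1.Th' G1.hH G1.hT B0 M1 hM1 hM1'
    (max R2 R3)
  obtain ⟨ε6, hε6, T6, hT6⟩ := exist (1 : Matrix ν ν ℤ) 1 (1 : Matrix ν ν ℤ) 1 (by simp)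
    (by simp) A0 A0 hA0 (by rw [rl_one]; simp) (max R1 0)
  obtain ⟨ε7, hε7, T7, hT7⟩ := exist (1 : Matrix ν ν ℤ) 1 (1 : Matrix ν ν ℤ) 1 (by simp)
    (by simp) B0 B0 hB0p (by rw [rl_one]; simp) (max R3 0)
  obtain ⟨c, hc⟩ : ∃ c : ℝ, c = sz (rl R) * sz Ri := ⟨_, rfl⟩
  have hc0 : 0 ≤ c := by rw [hc]; exact mul_nonneg (sz_nonneg _) (sz_nonneg _)
  refine ⟨min (min ε1 ε2) (min (min ε4 ε6) (min ε3 (min ε5 ε7) / (c + 1))), by positivity,
    max 0 (max T1 (max T2 (max T3 (max T4 (max T5 (max T6 T7)))))), ?_⟩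
  intro t ht A B hA hAB hS
  simp only [max_le_iff] at ht
  obtain ⟨ht0, ht1, ht2, ht3, ht4, ht5, ht6, ht7⟩ := ht
  have nA : ∀ ε, min (min ε1 ε2) (min (min ε4 ε6) (min ε3 (min ε5 ε7) / (c + 1))) ≤ ε →
      Near A0 ε t A := fun ε hε i j => (hA i j).trans (mul_le_mul_of_nonneg_right hε ht0)
  have n1 := nA ε1 ((min_le_left _ _).trans (min_le_left _ _))
  have n2 := nA ε2 ((min_le_left _ _).trans (min_le_right _ _))
  have n4 := nA ε4 ((min_le_right _ _).trans ((min_le_left _ _).trans (min_le_left _ _)))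
  have n6 := nA ε6 ((min_le_right _ _).trans ((min_le_left _ _).trans (min_le_right _ _)))
  have n0 := nA (min ε3 (min ε5 ε7) / (c + 1)) ((min_le_right _ _).trans (min_le_right _ _))
  have hB : rl B = Ri * rl A * rl R := by
    rw [Matrix.mul_assoc, ← rl_mul, hAB, rl_mul, ← Matrix.mul_assoc, hRi1, Matrix.one_mul]
  have nB := near_lin (by positivity) ht0 Ri (rl R) n0 hB
  rw [← hc, ← hB0] at nB
  have hcc : c * (min ε3 (min ε5 ε7) / (c + 1)) ≤ min ε3 (min ε5 ε7) := by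
    rw [← mul_div_assoc, div_le_iff₀ (by linarith)]
    have : 0 < min ε3 (min ε5 ε7) := by positivity
    nlinarith
  have nB' : ∀ ε, min ε3 (min ε5 ε7) ≤ ε → Near B0 ε t B := fun ε hε i j =>
    (nB i j).trans (mul_le_mul_of_nonneg_right (hcc.trans hε) ht0)
  have n3 := nB' ε3 (min_le_left _ _)
  have n5 := nB' ε5 ((min_le_right _ _).trans (min_le_left _ _))
  have n7 := nB' ε7 ((min_le_right _ _).trans (min_le_right _ _))
  obtain ⟨N0, hN0, hN0'⟩ := hT4 t ht4 A n4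
  obtain ⟨N1, hN1, hN1'⟩ := hT5 t ht5 B n5
  obtain ⟨N6, hN6, hN6'⟩ := hT6 t ht6 A n6
  obtain ⟨N7, hN7, hN7'⟩ := hT7 t ht7 B n7
  have e6 : N6 = A := by rw [← hN6']; simp
  have e7 : N7 = B := by rw [← hN7']; simp
  have q1 := hT1 t ht1 A n1 N6 N0 (fun i j => (le_max_left _ _).trans (hN6 i j))
    (fun i j => (le_max_left _ _).trans (hN0 i j)) hN6' hN0'
  have q2 := hT2 t ht2 A B n2 ⟨hAB, hS⟩ N0 N1 (fun i j => (le_max_right _ _).trans (hN0 i j))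
    (fun i j => (le_max_left _ _).trans (hN1 i j)) hN0' hN1'
  have q3 := hT3 t ht3 B n3 N1 N7 (fun i j => (le_max_right _ _).trans (hN1 i j))
    (fun i j => (le_max_left _ _).trans (hN7 i j)) hN1' hN7'
  refine ⟨fun i j => ?_, fun i j => ?_, ?_⟩
  · rw [← e6]; exact (le_max_right _ _).trans (hN6 i j)
  · rw [← e7]; exact (le_max_right _ _).trans (hN7 i j)
  · have h := (q1.trans q2).trans q3
    rw [Matrix.one_mul, Matrix.one_mul, Matrix.one_mul, e6, e7] at h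
    exact h

end Pool.Agent.U783.PT
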