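import Pool.Agent.U783.PT.Link
import Pool.Agent.U783.PT.Cone

/-!
# The path argument
-/

set_option autoImplicit false

namespace Pool.Agent.U783.PT

open Matrix Filter Topology

variable {ν : Type} [Fintype ν] [DecidableEq ν] [Nonempty ν]

/-- a frame -/
structure Fr (ν : Type) [Fintype ν] [DecidableEq ν] where
  η : Type
  κ : Type
  fη : Fintype η
  fκ : Fintype κ
  nη : Nonempty η
  nκ : Nonempty κ
  H : Matrix ν η ℤ
  H' : Matrix η ν ℤ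
  Th : Matrix κ ν ℤ
  Th' : Matrix ν κ ℤ
  hH : H * H' = 1
  hT : Th' * Th = 1

attribute [instance] Fr.fη Fr.fκ Fr.nη Fr.nκ

/-- the frame lies inside the cone of `P` -/
def Ins (F : Fr ν) (P Q : Matrix ν ν ℝ) : Prop := PR (P * rl F.H) ∧ PR (rl F.Th * Q)

omit [Nonempty ν] in
lemma nn_of {η κ : Type} [Fintype η] [Fintype κ] [Nonempty ν] (P Q : Matrix ν ν ℝ)
    (hQP : Q * P = 1)
    (H : Matrix ν η ℤ) (Th : Matrix κ ν ℤ) (h1 : PR (P * rl H)) (h2 : PR (rl Th * Q)) :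
    NN (Th * H) := by
  apply PR.nn
  have e : rl (Th * H) = rl Th * Q * (P * rl H) := by
    rw [rl_mul, Matrix.mul_assoc, ← Matrix.mul_assoc Q P, hQP, Matrix.one_mul]
  rw [e]
  exact h2.mul h1

/-- tight frames -/
theorem tight {μ1 μ2 κ1 κ2 : Type} [Fintype μ1] [Fintype μ2] [Fintype κ1] [Fintype κ2]
    (P Q A0 : Matrix ν ν ℝ) (hPQ : P * Q = 1) (hB : PR (P * A0 * Q))
    (X1 : Matrix ν μ1 ℝ) (X2 : Matrix ν μ2 ℝ) (Y1 : Matrix κ1 ν ℝ) (Y2 : Matrix κ2 ν ℝ)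
    (h1 : PR (P * X1)) (h2 : PR (P * X2)) (h3 : PR (Y1 * Q)) (h4 : PR (Y2 * Q)) :
    ∃ G : Fr ν, Ins G P Q ∧ (∃ E : Matrix G.η μ1 ℝ, PR E ∧ rl G.H * E = X1) ∧
      (∃ E : Matrix G.η μ2 ℝ, PR E ∧ rl G.H * E = X2) ∧
      (∃ E : Matrix κ1 G.κ ℝ, PR E ∧ E * rl G.Th = Y1) ∧
      (∃ E : Matrix κ2 G.κ ℝ, PR E ∧ E * rl G.Th = Y2) ∧
      (∃ N : Matrix ν G.κ ℝ, PR N ∧ N * rl G.Th = P * A0) ∧ Val A0 G.H G.Th := by
  have hQP : Q * P = 1 := mul_eq_one_comm.mp hPQ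
  obtain ⟨H, H', hH, hPH, hX1, hX2, ⟨N2, hN2, hN2'⟩, -⟩ := cone4 P Q hPQ X1 X2 (A0 * Q) (A0 * Q)
    h1 h2 (by rw [← Matrix.mul_assoc]; exact hB) (by rw [← Matrix.mul_assoc]; exact hB)
  have hQPt : Qᵀ * Pᵀ = 1 := by rw [← Matrix.transpose_mul, hPQ, Matrix.transpose_one]
  obtain ⟨Tt, Tt', hT, hPT, ⟨E1, hE1, hE1'⟩, ⟨E2, hE2, hE2'⟩, ⟨E3, hE3, hE3'⟩,
    ⟨E4, hE4, hE4'⟩⟩ := cone4 Qᵀ Pᵀ hQPt Y1ᵀ Y2ᵀ (P * A0)ᵀ (N2 * P)ᵀ
    (by rw [← Matrix.transpose_mul]; exact fun i j => h3 j i)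
    (by rw [← Matrix.transpose_mul]; exact fun i j => h4 j i)
    (by rw [← Matrix.transpose_mul]; exact fun i j => hB j i)
    (by
      rw [← Matrix.transpose_mul, Matrix.mul_assoc, hPQ, Matrix.mul_one]
      exact fun i j => hN2 j i)
  have tr : ∀ {κ : Type} [Fintype κ] (E : Matrix (ν ⊕ Option ν) κ ℝ) (Y : Matrix κ ν ℝ),
      rl Tt * E = Yᵀ → Eᵀ * rl Ttᵀ = Y := by
    intro κ _ E Y h
    rw [rl_transpose, ← Matrix.transpose_mul, h, Matrix.transpose_transpose]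
  have hfin : rl H * N2 * P = A0 := by
    rw [hN2', Matrix.mul_assoc, hQP, Matrix.mul_one]
  refine ⟨⟨ν ⊕ Option ν, ν ⊕ Option ν, inferInstance, inferInstance, inferInstance,
    inferInstance, H, H', Ttᵀ, Tt'ᵀ, hH, by
      rw [← Matrix.transpose_mul, hT, Matrix.transpose_one]⟩, ⟨hPH, ?_⟩, hX1, hX2,
    ⟨E1ᵀ, fun i j => hE1 j i, tr _ _ hE1'⟩, ⟨E2ᵀ, fun i j => hE2 j i, tr _ _ hE2'⟩,
    ⟨E3ᵀ, fun i j => hE3 j i, tr _ _ hE3'⟩, ⟨E4ᵀ, fun i j => hE4 j i, ?_⟩⟩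
  · show PR (rl Ttᵀ * Q)
    intro i j
    have h := hPT j i
    have e : rl Ttᵀ * Q = (Qᵀ * rl Tt)ᵀ := by
      rw [rl_transpose, Matrix.transpose_mul, Matrix.transpose_transpose]
    rw [e]
    exact h
  · show rl H * E4ᵀ * rl Ttᵀ = A0
    rw [Matrix.mul_assoc, tr _ _ hE4', ← Matrix.mul_assoc]
    exact hfin

/-- a frame inside the cone is linked to a tight frame -/
lemma lk_tight (P Q A0 : Matrix ν ν ℝ) (hPQ : P * Q = 1) (F G : Fr ν) (hF : Ins F P Q)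
    (hG : Ins G P Q) (hvF : Val A0 F.H F.Th) (hvG : Val A0 G.H G.Th)
    (hE : ∃ E : Matrix F.κ G.κ ℝ, PR E ∧ E * rl G.Th = rl F.Th) : Lk A0 F.H F.Th G.H G.Th := by
  have hQP : Q * P = 1 := mul_eq_one_comm.mp hPQ
  obtain ⟨E, hE1, hE2⟩ := hE
  have hvm : Val A0 F.H G.Th := by
    obtain ⟨N, hN, hN'⟩ := hvF
    refine ⟨N * E, hN.mul hE1, ?_⟩
    rw [Matrix.mul_assoc, Matrix.mul_assoc, hE2, ← Matrix.mul_assoc, hN']
  exact Lk.trans F.H' G.Th' F.hH G.hT hvm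
    (lk_shareH F.H F.H' F.Th F.Th' G.Th F.hH F.hT (nn_of P Q hQP _ _ hF.1 hF.2)
      (nn_of P Q hQP _ _ hF.1 hG.2) hvF hvm)
    (lk_shareTh F.H F.H' G.H G.Th G.Th' F.hH G.hT (nn_of P Q hQP _ _ hF.1 hG.2)
      (nn_of P Q hQP _ _ hG.1 hG.2) hvm hvG)

/-- two valid frames inside the same cone are linked -/
lemma lk_inside (P Q A0 : Matrix ν ν ℝ) (hPQ : P * Q = 1) (hB : PR (P * A0 * Q)) (F F' : Fr ν)
    (hF : Ins F P Q) (hF' : Ins F' P Q) (hvF : Val A0 F.H F.Th) (hvF' : Val A0 F'.H F'.Th) :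
    Lk A0 F.H F.Th F'.H F'.Th := by
  obtain ⟨G, hG, -, -, hE1, hE2, -, hvG⟩ := tight P Q A0 hPQ hB (rl F.H) (rl F'.H) (rl F.Th)
    (rl F'.Th) hF.1 hF'.1 hF.2 hF'.2
  exact Lk.trans G.H' G.Th' G.hH G.hT hvG (lk_tight P Q A0 hPQ F G hF hG hvF hvG hE1)
    (lk_tight P Q A0 hPQ F' G hF' hG hvF' hvG hE2).symm

/-- the end frames -/
lemma lk_end (U Ui : Matrix ν ν ℤ) (A0 : Matrix ν ν ℝ) (hU : U * Ui = 1)
    (hB : PR (rl U * A0 * rl Ui)) :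
    ∃ G : Fr ν, Ins G (rl U) (rl Ui) ∧ Val A0 G.H G.Th ∧ Lk A0 Ui U G.H G.Th := by
  have hU' : Ui * U = 1 := mul_eq_one_comm.mp hU
  have hPQ : rl U * rl Ui = 1 := by rw [← rl_mul, hU, rl_one]
  have hQP : rl Ui * rl U = 1 := by rw [← rl_mul, hU', rl_one]
  obtain ⟨G, hG, -, -, -, -, ⟨N, hN, hN'⟩, hvG⟩ := tight (rl U) (rl Ui) A0 hPQ hB (A0 * rl Ui)
    (A0 * rl Ui) (rl U * A0) (rl U * A0) (by rw [← Matrix.mul_assoc]; exact hB)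
    (by rw [← Matrix.mul_assoc]; exact hB) hB hB
  refine ⟨G, hG, hvG, ?_⟩
  have hv0 : Val A0 Ui U := by
    refine ⟨rl U * A0 * rl Ui, hB, ?_⟩
    rw [← Matrix.mul_assoc, ← Matrix.mul_assoc, hQP, Matrix.one_mul, Matrix.mul_assoc, hQP,
      Matrix.mul_one]
  have hv1 : Val A0 Ui G.Th := by
    refine ⟨N, hN, ?_⟩
    rw [Matrix.mul_assoc, hN', ← Matrix.mul_assoc, hQP, Matrix.one_mul]
  have n1 : NN (U * Ui) := by
    rw [hU]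
    intro i j
    rw [Matrix.one_apply]
    split_ifs <;> norm_num
  have n2 : NN (G.Th * Ui) := by
    apply PR.nn
    rw [rl_mul]
    exact hG.2
  exact Lk.trans U G.Th' hU' G.hT hv1
    (lk_shareH Ui U U Ui G.Th hU' hU' n1 n2 hv0 hv1)
    (lk_shareTh Ui U G.H G.Th G.Th' hU' G.hT n2 (nn_of (rl U) (rl Ui) hQP _ _ hG.1 hG.2) hv1 hvG)

omit [DecidableEq ν] in
/-- existence of frames inside a cone -/
lemma exists_frame [DecidableEq ν] (P Q A0 : Matrix ν ν ℝ) (hPQ : P * Q = 1)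
    (hB : PR (P * A0 * Q)) : ∃ G : Fr ν, Ins G P Q ∧ Val A0 G.H G.Th := by
  obtain ⟨G, hG, -, -, -, -, -, hvG⟩ := tight P Q A0 hPQ hB (A0 * Q) (A0 * Q) (P * A0) (P * A0)
    (by rw [← Matrix.mul_assoc]; exact hB) (by rw [← Matrix.mul_assoc]; exact hB) hB hB
  exact ⟨G, hG, hvG⟩

/-- The path theorem, in the language of links. -/
theorem lk_conn {X : Type} [TopologicalSpace X] [PreconnectedSpace X] (A0 : Matrix ν ν ℝ)
    (P Q : X → Matrix ν ν ℝ) (hP : Continuous P) (hQ : Continuous Q)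
    (hPQ : ∀ s, P s * Q s = 1) (hB : ∀ s, PR (P s * A0 * Q s)) (x0 x1 : X)
    (F F' : Fr ν) (hF : Ins F (P x0) (Q x0)) (hF' : Ins F' (P x1) (Q x1))
    (hvF : Val A0 F.H F.Th) (hvF' : Val A0 F'.H F'.Th) : Lk A0 F.H F.Th F'.H F'.Th := by
  obtain ⟨ρ, hρ⟩ : ∃ ρ : X → X → Prop, ρ = fun s s' =>
      ∀ F F' : Fr ν, Ins F (P s) (Q s) → Ins F' (P s') (Q s') → Val A0 F.H F.Th →
      Val A0 F'.H F'.Th → Lk A0 F.H F.Th F'.H F'.Th := ⟨_, rfl⟩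
  have hρ01 : ρ x0 x1 := by
    have hsymm : ∀ a b, ρ a b → ρ b a := by
      intro a b hab
      rw [hρ] at hab ⊢
      intro F F' hF hF' hvF hvF'
      exact (hab F' F hF' hF hvF' hvF).symm
    have : Std.Symm ρ := ⟨hsymm⟩
    refine PreconnectedSpace.induction₂ ρ ?_ ⟨?_⟩ x0 x1
    · intro s
      obtain ⟨G, hG, hvG⟩ := exists_frame (P s) (Q s) A0 (hPQ s) (hB s)
      have e1 : ∀ᶠ s' in 𝓝 s, PR (P s' * rl G.H) :=
        ev_pos (fun s' => P s' * rl G.H) s (hP.matrix_mul continuous_const).continuousAt hG.1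
      have e2 : ∀ᶠ s' in 𝓝 s, PR (rl G.Th * Q s') :=
        ev_pos (fun s' => rl G.Th * Q s') s (continuous_const.matrix_mul hQ).continuousAt hG.2
      filter_upwards [e1, e2] with s' hs1 hs2
      rw [hρ]
      intro F F' hF hF' hvF hvF'
      exact Lk.trans G.H' G.Th' G.hH G.hT hvG
        (lk_inside (P s) (Q s) A0 (hPQ s) (hB s) F G hF hG hvF hvG)
        (lk_inside (P s') (Q s') A0 (hPQ s') (hB s') G F' ⟨hs1, hs2⟩ hF' hvG hvF')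
    · intro a b c hab hbc
      rw [hρ] at hab hbc ⊢
      intro F F' hF hF' hvF hvF'
      obtain ⟨G, hG, hvG⟩ := exists_frame (P b) (Q b) A0 (hPQ b) (hB b)
      exact Lk.trans G.H' G.Th' G.hH G.hT hvG (hab F G hF hG hvF hvG) (hbc G F' hG hF' hvG hvF')
  rw [hρ] at hρ01
  exact hρ01 F F' hF hF' hvF hvF'

end Pool.Agent.U783.PT
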