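import Pool.Agent.U783.PT.Chain

/-!
# Similar matrices with positive off-diagonal entries are joined by shears
-/

set_option autoImplicit false

namespace Pool.Agent.U783.PT

open Matrix

/-- one sign change in a quadrant -/
lemma lemM {b c e x1 y1 x2 y2 : ℤ} (hb : 0 < b) (hc : 0 < c) (hx1 : 0 ≤ x1) (hy1 : 0 ≤ y1)
    (hx2 : 0 ≤ x2) (hy2 : 0 ≤ y2) (hdet : 0 < x1 * y2 - x2 * y1)
    (hq : 0 < c * x2 ^ 2 + e * (x2 * y2) - b * y2 ^ 2) :
    0 < c * x1 ^ 2 + e * (x1 * y1) - b * y1 ^ 2 := by
  have hx1' : 0 < x1 := by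
    rcases eq_or_lt_of_le hx1 with h | h
    · rw [← h] at hdet
      have := mul_nonneg hx2 hy1
      linarith
    · exact h
  have hy2' : 0 < y2 := by
    rcases eq_or_lt_of_le hy2 with h | h
    · rw [← h] at hdet
      have := mul_nonneg hx2 hy1
      linarith
    · exact h
  have hx2' : 0 < x2 := by
    rcases eq_or_lt_of_le hx2 with h | h
    · rw [← h] at hq
      have := mul_pos hb (pow_pos hy2' 2)
      linarith
    · exact h
  have e1 : x2 * y2 * (c * x1 ^ 2 + e * (x1 * y1) - b * y1 ^ 2) =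
      x1 * y1 * (c * x2 ^ 2 + e * (x2 * y2) - b * y2 ^ 2) +
        (x1 * y2 - x2 * y1) * (c * (x1 * x2) + b * (y1 * y2)) := by ring
  have e2 : 0 < (x1 * y2 - x2 * y1) * (c * (x1 * x2) + b * (y1 * y2)) := by
    have h1 : 0 < c * (x1 * x2) := by positivity
    have h2 : 0 ≤ b * (y1 * y2) := by positivity
    exact mul_pos hdet (by linarith)
  have e3 : 0 ≤ x1 * y1 * (c * x2 ^ 2 + e * (x2 * y2) - b * y2 ^ 2) :=
    mul_nonneg (mul_nonneg hx1 hy1) hq.le
  have e4 : 0 < x2 * y2 * (c * x1 ^ 2 + e * (x1 * y1) - b * y1 ^ 2) := by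
    rw [e1]; linarith
  exact pos_of_mul_pos_right e4 (mul_pos hx2' hy2').le

lemma noOpp {b c e x1 y1 x2 y2 σ : ℤ} (hb : 0 < b) (hc : 0 < c) (hx1 : 0 ≤ x1) (hy1 : 0 ≤ y1)
    (hx2 : 0 ≤ x2) (hy2 : 0 ≤ y2) (hσ : σ = 1 ∨ σ = -1) (hdet : x1 * y2 - x2 * y1 = -σ)
    (h1 : 0 < σ * (c * x1 ^ 2 + e * (x1 * y1) - b * y1 ^ 2))
    (h2 : σ * (c * x2 ^ 2 + e * (x2 * y2) - b * y2 ^ 2) < 0) : False := by
  rcases hσ with h | h
  · rw [h] at hdet h1 h2
    have := lemM (e := e) hb hc hx2 hy2 hx1 hy1 (by linarith) (by linarith)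
    linarith
  · rw [h] at hdet h1 h2
    have := lemM (e := e) hb hc hx1 hy1 hx2 hy2 (by linarith) (by linarith)
    linarith

lemma sign_cases {b c e p q r s σ : ℤ} (hb : 0 < b) (hc : 0 < c) (hσ : σ = 1 ∨ σ = -1)
    (hdet : p * s - q * r = σ) (h1 : 0 < σ * (c * p ^ 2 + e * (p * r) - b * r ^ 2))
    (h2 : σ * (c * q ^ 2 + e * (q * s) - b * s ^ 2) < 0) :
    (0 ≤ p ∧ 0 ≤ q ∧ 0 ≤ r ∧ 0 ≤ s) ∨ (p ≤ 0 ∧ q ≤ 0 ∧ r ≤ 0 ∧ s ≤ 0) ∨
      (0 ≤ p ∧ q ≤ 0 ∧ r ≤ 0 ∧ 0 ≤ s) ∨ (p ≤ 0 ∧ 0 ≤ q ∧ 0 ≤ r ∧ s ≤ 0) := by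
  have hno : ¬ (p * r * (q * s) < 0) := by
    intro h
    have h3 : (p * s) * (q * r) < 0 := by
      have : (p * s) * (q * r) = p * r * (q * s) := by ring
      linarith
    obtain ⟨v, hv⟩ : ∃ v, v = q * r := ⟨_, rfl⟩
    have hu : p * s = v + σ := by rw [hv]; linarith
    rw [hu, ← hv] at h3
    rcases hσ with hs | hs
    · rw [hs] at h3
      rcases le_or_gt 0 v with h4 | h4
      · nlinarith
      · have h5 : v ≤ -1 := by linarith
        nlinarith
    · rw [hs] at h3
      rcases le_or_gt v 0 with h4 | h4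
      · nlinarith
      · have h5 : 1 ≤ v := by linarith
        nlinarith
  have hcase : (0 ≤ p * r ∧ 0 ≤ q * s) ∨ (p * r ≤ 0 ∧ q * s ≤ 0) := by
    rcases le_total 0 (p * r) with h3 | h3 <;> rcases le_total 0 (q * s) with h4 | h4
    · exact Or.inl ⟨h3, h4⟩
    · rcases eq_or_lt_of_le h3 with h5 | h5
      · exact Or.inr ⟨h5.symm.le, h4⟩
      · rcases eq_or_lt_of_le h4 with h6 | h6
        · exact Or.inl ⟨h3, h6.symm.le⟩
        · exact absurd (mul_neg_of_pos_of_neg h5 h6) hno
    · rcases eq_or_lt_of_le h3 with h5 | h5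
      · exact Or.inl ⟨h5.symm.le, h4⟩
      · rcases eq_or_lt_of_le h4 with h6 | h6
        · exact Or.inr ⟨h3, h6.symm.le⟩
        · exact absurd (mul_neg_of_neg_of_pos h5 h6) hno
    · exact Or.inr ⟨h3, h4⟩
  rcases hcase with ⟨h3, h4⟩ | ⟨h3, h4⟩
  · rcases mul_nonneg_iff.mp h3 with ⟨a1, a2⟩ | ⟨a1, a2⟩ <;>
      rcases mul_nonneg_iff.mp h4 with ⟨a3, a4⟩ | ⟨a3, a4⟩
    · exact Or.inl ⟨a1, a3, a2, a4⟩
    · exfalso
      refine noOpp (e := e) (x1 := p) (y1 := r) (x2 := -q) (y2 := -s) hb hc a1 a2 (by linarith)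
        (by linarith) hσ (by linarith) h1 ?_
      have : c * (-q) ^ 2 + e * (-q * -s) - b * (-s) ^ 2 = c * q ^ 2 + e * (q * s) - b * s ^ 2 := by
        ring
      rw [this]; exact h2
    · exfalso
      refine noOpp (e := e) (x1 := -p) (y1 := -r) (x2 := q) (y2 := s) hb hc (by linarith)
        (by linarith) a3 a4 hσ (by linarith) ?_ h2
      have : c * (-p) ^ 2 + e * (-p * -r) - b * (-r) ^ 2 = c * p ^ 2 + e * (p * r) - b * r ^ 2 := by
        ring
      rw [this]; exact h1
    · exact Or.inr (Or.inl ⟨a1, a3, a2, a4⟩)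
  · rcases mul_nonpos_iff.mp h3 with ⟨a1, a2⟩ | ⟨a1, a2⟩ <;>
      rcases mul_nonpos_iff.mp h4 with ⟨a3, a4⟩ | ⟨a3, a4⟩
    · exfalso
      refine noOpp (e := -e) (x1 := p) (y1 := -r) (x2 := q) (y2 := -s) hb hc a1 (by linarith) a3
        (by linarith) hσ (by linarith) ?_ ?_
      · have : c * p ^ 2 + -e * (p * -r) - b * (-r) ^ 2 = c * p ^ 2 + e * (p * r) - b * r ^ 2 := by
          ring
        rw [this]; exact h1
      · have : c * q ^ 2 + -e * (q * -s) - b * (-s) ^ 2 = c * q ^ 2 + e * (q * s) - b * s ^ 2 := by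
          ring
        rw [this]; exact h2
    · exact Or.inr (Or.inr (Or.inl ⟨a1, a3, a2, a4⟩))
    · exact Or.inr (Or.inr (Or.inr ⟨a1, a3, a2, a4⟩))
    · exfalso
      refine noOpp (e := -e) (x1 := -p) (y1 := r) (x2 := -q) (y2 := s) hb hc (by linarith) a2
        (by linarith) a4 hσ (by linarith) ?_ ?_
      · have : c * (-p) ^ 2 + -e * (-p * r) - b * r ^ 2 = c * p ^ 2 + e * (p * r) - b * r ^ 2 := by
          ring
        rw [this]; exact h1
      · have : c * (-q) ^ 2 + -e * (-q * s) - b * s ^ 2 = c * q ^ 2 + e * (q * s) - b * s ^ 2 := by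
          ring
        rw [this]; exact h2

/-- positive off-diagonal entries -/
def Riv (A : Matrix (Fin 2) (Fin 2) ℤ) : Prop := 0 < A 0 1 ∧ 0 < A 1 0

/-- a shear step -/
def RStep (A B : Matrix (Fin 2) (Fin 2) ℤ) : Prop :=
  Riv A ∧ Riv B ∧ ∃ E E' : Matrix (Fin 2) (Fin 2) ℤ, (∀ i j, |E i j| ≤ 1) ∧
    (∀ i j, |E' i j| ≤ 1) ∧ E * E' = 1 ∧ A * E = E * B

lemma RStep.symm {A B : Matrix (Fin 2) (Fin 2) ℤ} (h : RStep A B) : RStep B A := by
  obtain ⟨h1, h2, E, E', h3, h4, h5, h6⟩ := h
  have h7 : E' * E = 1 := mul_eq_one_comm.mp h5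
  refine ⟨h2, h1, E', E, h4, h3, h7, ?_⟩
  calc B * E' = E' * E * B * E' := by rw [h7, Matrix.one_mul]
    _ = E' * (E * B) * E' := by simp only [Matrix.mul_assoc]
    _ = E' * A * (E * E') := by rw [← h6]; simp only [Matrix.mul_assoc]
    _ = E' * A := by rw [h5, Matrix.mul_one]

lemma rstep_symm {A B : Matrix (Fin 2) (Fin 2) ℤ} (h : Relation.ReflTransGen RStep A B) :
    Relation.ReflTransGen RStep B A := by
  induction h with
  | refl => exact Relation.ReflTransGen.refl
  | tail _ h ih => exact Relation.ReflTransGen.head h.symm ih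

lemma quad {A B U : Matrix (Fin 2) (Fin 2) ℤ} (h : A * U = U * B) :
    A 1 0 * U 0 0 ^ 2 + (A 1 1 - A 0 0) * (U 0 0 * U 1 0) - A 0 1 * U 1 0 ^ 2 =
      U.det * B 1 0 ∧
    A 1 0 * U 0 1 ^ 2 + (A 1 1 - A 0 0) * (U 0 1 * U 1 1) - A 0 1 * U 1 1 ^ 2 =
      -(U.det * B 0 1) := by
  have e00 := congrFun (congrFun h 0) 0
  have e01 := congrFun (congrFun h 0) 1
  have e10 := congrFun (congrFun h 1) 0
  have e11 := congrFun (congrFun h 1) 1
  simp only [Matrix.mul_apply, Fin.sum_univ_two] at e00 e01 e10 e11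
  rw [Matrix.det_fin_two]
  constructor
  · linear_combination U 0 0 * e10 - U 1 0 * e00
  · linear_combination U 0 1 * e11 - U 1 1 * e01

lemma nonneg_chain (n : ℕ) : ∀ A B U : Matrix (Fin 2) (Fin 2) ℤ, (∀ i j, 0 ≤ U i j) →
    U 0 0 + U 0 1 + U 1 0 + U 1 1 ≤ n → (U.det = 1 ∨ U.det = -1) → Riv A → Riv B →
    A * U = U * B → Relation.ReflTransGen RStep A B := by
  induction n with
  | zero =>
    intro A B U hU hn hdet _ _ _
    exfalso
    push_cast at hn
    have h1 := hU 0 0
    have h2 := hU 0 1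
    have h3 := hU 1 0
    have h4 := hU 1 1
    have h5 : U 0 0 = 0 := by linarith
    have h6 : U 0 1 = 0 := by linarith
    rw [Matrix.det_fin_two, h5, h6] at hdet
    rcases hdet with h | h <;> linarith
  | succ n ih =>
    intro A B U hU hn hdet hA hB hAB
    obtain ⟨hq1, hq2⟩ := quad hAB
    obtain ⟨hb, hc⟩ := hA
    obtain ⟨hb', hc'⟩ := hB
    have u00 := hU 0 0
    have u01 := hU 0 1
    have u10 := hU 1 0
    have u11 := hU 1 1
    have hdet' := hdet
    rw [Matrix.det_fin_two] at hdet'
    push_cast at hn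
    by_cases hD1 : U 1 0 ≤ U 0 0 ∧ U 1 1 ≤ U 0 1
    · -- row 1 dominates
      obtain ⟨k1, k2⟩ := hD1
      have hneg : A 1 0 + (A 1 1 - A 0 0) - A 0 1 < 0 := by
        by_contra hcon
        push Not at hcon
        have key : ∀ x y : ℤ, 0 ≤ y → y ≤ x →
            0 ≤ A 1 0 * x ^ 2 + (A 1 1 - A 0 0) * (x * y) - A 0 1 * y ^ 2 := by
          intro x y hy hxy
          have h1 : 0 ≤ (A 1 0 + (A 1 1 - A 0 0) - A 0 1) * (x * y) :=
            mul_nonneg hcon (mul_nonneg (hy.trans hxy) hy)
          have h2 : 0 ≤ (x - y) * (A 1 0 * x + A 0 1 * y) :=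
            mul_nonneg (by linarith) (add_nonneg (mul_nonneg hc.le (hy.trans hxy))
              (mul_nonneg hb.le hy))
          nlinarith
        rcases hdet with h | h
        · have := key _ _ u11 k2
          rw [hq2, h] at this
          linarith
        · have := key _ _ u10 k1
          rw [hq1, h] at this
          linarith
      obtain ⟨A', hA'⟩ : ∃ A' : Matrix (Fin 2) (Fin 2) ℤ, A' = !![A 0 0 - A 1 0,
          A 0 0 - A 1 0 + A 0 1 - A 1 1; A 1 0, A 1 0 + A 1 1] := ⟨_, rfl⟩
      obtain ⟨U', hU'⟩ : ∃ U' : Matrix (Fin 2) (Fin 2) ℤ, U' = !![U 0 0 - U 1 0,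
          U 0 1 - U 1 1; U 1 0, U 1 1] := ⟨_, rfl⟩
      have hE : A * !![1, 1; 0, 1] = !![1, 1; 0, 1] * A' := by
        rw [hA']
        ext i j
        fin_cases i <;> fin_cases j <;> simp [Matrix.mul_apply, Fin.sum_univ_two] <;> ring
      have hEU : (!![1, 1; 0, 1] : Matrix (Fin 2) (Fin 2) ℤ) * U' = U := by
        rw [hU']
        ext i j
        fin_cases i <;> fin_cases j <;> simp [Matrix.mul_apply, Fin.sum_univ_two]
      have hEE : (!![1, -1; 0, 1] : Matrix (Fin 2) (Fin 2) ℤ) * !![1, 1; 0, 1] = 1 := by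
        ext i j
        fin_cases i <;> fin_cases j <;> simp [Matrix.mul_apply, Fin.sum_univ_two]
      have hEE' : (!![1, 1; 0, 1] : Matrix (Fin 2) (Fin 2) ℤ) * !![1, -1; 0, 1] = 1 :=
        mul_eq_one_comm.mp hEE
      have hRA' : Riv A' := by
        rw [hA']
        constructor
        · show 0 < A 0 0 - A 1 0 + A 0 1 - A 1 1
          linarith
        · exact hc
      have hA'U' : A' * U' = U' * B := by
        calc A' * U' = !![1, -1; 0, 1] * !![1, 1; 0, 1] * A' * U' := by
              rw [hEE, Matrix.one_mul]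
          _ = !![1, -1; 0, 1] * (!![1, 1; 0, 1] * A') * U' := by simp only [Matrix.mul_assoc]
          _ = !![1, -1; 0, 1] * A * (!![1, 1; 0, 1] * U') := by
              rw [← hE]; simp only [Matrix.mul_assoc]
          _ = !![1, -1; 0, 1] * (A * U) := by rw [hEU, Matrix.mul_assoc]
          _ = !![1, -1; 0, 1] * !![1, 1; 0, 1] * U' * B := by
              rw [hAB]
              conv_lhs => rw [← hEU]
              simp only [Matrix.mul_assoc]
          _ = U' * B := by rw [hEE, Matrix.one_mul]
      have hstep : RStep A A' := by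
        refine ⟨⟨hb, hc⟩, hRA', !![1, 1; 0, 1], !![1, -1; 0, 1], ?_, ?_, hEE', hE⟩
        · intro i j
          fin_cases i <;> fin_cases j <;> simp
        · intro i j
          fin_cases i <;> fin_cases j <;> simp
      refine Relation.ReflTransGen.head hstep (ih A' B U' ?_ ?_ ?_ hRA' ⟨hb', hc'⟩ hA'U')
      · rw [hU']
        intro i j
        fin_cases i <;> fin_cases j
        · show 0 ≤ U 0 0 - U 1 0
          linarith
        · show 0 ≤ U 0 1 - U 1 1
          linarith
        · exact u10
        · exact u11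
      · rw [hU']
        show U 0 0 - U 1 0 + (U 0 1 - U 1 1) + U 1 0 + U 1 1 ≤ n
        have h1 : 0 < U 1 0 + U 1 1 := by
          by_contra hcon
          have h2 : U 1 0 = 0 := by linarith
          have h3 : U 1 1 = 0 := by linarith
          rw [h2, h3] at hdet'
          rcases hdet' with h | h <;> linarith
        linarith
      · rw [hU', Matrix.det_fin_two_of]
        rcases hdet' with h | h
        · left; linarith
        · right; linarith
    · by_cases hD2 : U 0 0 ≤ U 1 0 ∧ U 0 1 ≤ U 1 1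
      · obtain ⟨k1, k2⟩ := hD2
        have hpos : 0 < A 1 0 + (A 1 1 - A 0 0) - A 0 1 := by
          by_contra hcon
          push Not at hcon
          have key : ∀ x y : ℤ, 0 ≤ x → x ≤ y →
              A 1 0 * x ^ 2 + (A 1 1 - A 0 0) * (x * y) - A 0 1 * y ^ 2 ≤ 0 := by
            intro x y hx hxy
            have h1 : 0 ≤ (-(A 1 0 + (A 1 1 - A 0 0) - A 0 1)) * (x * y) :=
              mul_nonneg (by linarith) (mul_nonneg hx (hx.trans hxy))
            have h2 : 0 ≤ (y - x) * (A 1 0 * x + A 0 1 * y) :=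
              mul_nonneg (by linarith) (add_nonneg (mul_nonneg hc.le hx)
                (mul_nonneg hb.le (hx.trans hxy)))
            nlinarith
          rcases hdet with h | h
          · have := key _ _ u00 k1
            rw [hq1, h] at this
            linarith
          · have := key _ _ u01 k2
            rw [hq2, h] at this
            linarith
        obtain ⟨A', hA'⟩ : ∃ A' : Matrix (Fin 2) (Fin 2) ℤ, A' = !![A 0 0 + A 0 1,
            A 0 1; A 1 0 - A 0 0 + A 1 1 - A 0 1, A 1 1 - A 0 1] := ⟨_, rfl⟩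
        obtain ⟨U', hU'⟩ : ∃ U' : Matrix (Fin 2) (Fin 2) ℤ, U' = !![U 0 0,
            U 0 1; U 1 0 - U 0 0, U 1 1 - U 0 1] := ⟨_, rfl⟩
        have hE : A * !![1, 0; 1, 1] = !![1, 0; 1, 1] * A' := by
          rw [hA']
          ext i j
          fin_cases i <;> fin_cases j <;> simp [Matrix.mul_apply, Fin.sum_univ_two] <;> ring
        have hEU : (!![1, 0; 1, 1] : Matrix (Fin 2) (Fin 2) ℤ) * U' = U := by
          rw [hU']
          ext i j
          fin_cases i <;> fin_cases j <;> simp [Matrix.mul_apply, Fin.sum_univ_two]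
        have hEE : (!![1, 0; -1, 1] : Matrix (Fin 2) (Fin 2) ℤ) * !![1, 0; 1, 1] = 1 := by
          ext i j
          fin_cases i <;> fin_cases j <;> simp [Matrix.mul_apply, Fin.sum_univ_two]
        have hEE' : (!![1, 0; 1, 1] : Matrix (Fin 2) (Fin 2) ℤ) * !![1, 0; -1, 1] = 1 :=
          mul_eq_one_comm.mp hEE
        have hRA' : Riv A' := by
          rw [hA']
          constructor
          · exact hb
          · show 0 < A 1 0 - A 0 0 + A 1 1 - A 0 1
            linarith
        have hA'U' : A' * U' = U' * B := by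
          calc A' * U' = !![1, 0; -1, 1] * !![1, 0; 1, 1] * A' * U' := by
                rw [hEE, Matrix.one_mul]
            _ = !![1, 0; -1, 1] * (!![1, 0; 1, 1] * A') * U' := by simp only [Matrix.mul_assoc]
            _ = !![1, 0; -1, 1] * A * (!![1, 0; 1, 1] * U') := by
                rw [← hE]; simp only [Matrix.mul_assoc]
            _ = !![1, 0; -1, 1] * (A * U) := by rw [hEU, Matrix.mul_assoc]
            _ = !![1, 0; -1, 1] * !![1, 0; 1, 1] * U' * B := by
                rw [hAB]
                conv_lhs => rw [← hEU]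
                simp only [Matrix.mul_assoc]
            _ = U' * B := by rw [hEE, Matrix.one_mul]
        have hstep : RStep A A' := by
          refine ⟨⟨hb, hc⟩, hRA', !![1, 0; 1, 1], !![1, 0; -1, 1], ?_, ?_, hEE', hE⟩
          · intro i j
            fin_cases i <;> fin_cases j <;> simp
          · intro i j
            fin_cases i <;> fin_cases j <;> simp
        refine Relation.ReflTransGen.head hstep (ih A' B U' ?_ ?_ ?_ hRA' ⟨hb', hc'⟩ hA'U')
        · rw [hU']
          intro i j
          fin_cases i <;> fin_cases j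
          · exact u00
          · exact u01
          · show 0 ≤ U 1 0 - U 0 0
            linarith
          · show 0 ≤ U 1 1 - U 0 1
            linarith
        · rw [hU']
          show U 0 0 + U 0 1 + (U 1 0 - U 0 0) + (U 1 1 - U 0 1) ≤ n
          have h1 : 0 < U 0 0 + U 0 1 := by
            by_contra hcon
            have h2 : U 0 0 = 0 := by linarith
            have h3 : U 0 1 = 0 := by linarith
            rw [h2, h3] at hdet'
            rcases hdet' with h | h <;> linarith
          linarith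
        · rw [hU', Matrix.det_fin_two_of]
          rcases hdet' with h | h
          · left; linarith
          · right; linarith
      · -- no domination: `U` is a permutation matrix
        rcases le_or_gt (U 0 0) (U 1 0) with h1 | h1
        · have h2 : U 1 1 < U 0 1 := by
            by_contra hcon
            exact hD2 ⟨h1, by linarith⟩
          have h3 : U 0 0 < U 1 0 := by
            by_contra hcon
            exact hD1 ⟨by linarith, h2.le⟩
          have h4 : (U 0 0 + 1) * (U 1 1 + 1) ≤ U 1 0 * U 0 1 :=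
            mul_le_mul (by linarith) (by linarith) (by linarith) u10
          have e1 : U 0 0 = 0 := by rcases hdet' with h | h <;> nlinarith
          have e2 : U 1 1 = 0 := by rcases hdet' with h | h <;> nlinarith
          rw [e1, e2] at hdet'
          rw [e2] at h2
          rw [e1] at h3
          have e3 : U 0 1 = 1 := by
            rcases hdet' with h | h
            · nlinarith
            · have : U 0 1 * U 1 0 = 1 := by linarith
              exact Int.eq_one_or_neg_one_of_mul_eq_one this |>.resolve_right (by linarith)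
          have e4 : U 1 0 = 1 := by
            rcases hdet' with h | h
            · nlinarith
            · have : U 1 0 * U 0 1 = 1 := by linarith
              exact Int.eq_one_or_neg_one_of_mul_eq_one this |>.resolve_right (by linarith)
          have eU : U = !![0, 1; 1, 0] := by
            ext i j
            fin_cases i <;> fin_cases j
            · exact e1
            · exact e3
            · exact e4
            · exact e2
          refine Relation.ReflTransGen.single ⟨⟨hb, hc⟩, ⟨hb', hc'⟩, U, U, ?_, ?_, ?_, hAB⟩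
          · rw [eU]; intro i j
            fin_cases i <;> fin_cases j <;> simp
          · rw [eU]; intro i j
            fin_cases i <;> fin_cases j <;> simp
          · rw [eU]
            ext i j
            fin_cases i <;> fin_cases j <;> simp [Matrix.mul_apply, Fin.sum_univ_two]
        · have h2 : U 0 1 < U 1 1 := by
            by_contra hcon
            exact hD1 ⟨h1.le, by linarith⟩
          have h4 : (U 1 0 + 1) * (U 0 1 + 1) ≤ U 0 0 * U 1 1 :=
            mul_le_mul (by linarith) (by linarith) (by linarith) u00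
          have e1 : U 1 0 = 0 := by rcases hdet' with h | h <;> nlinarith
          have e2 : U 0 1 = 0 := by rcases hdet' with h | h <;> nlinarith
          rw [e1, e2] at hdet'
          rw [e1] at h1
          rw [e2] at h2
          have e3 : U 0 0 = 1 := by
            rcases hdet' with h | h
            · have : U 0 0 * U 1 1 = 1 := by linarith
              exact Int.eq_one_or_neg_one_of_mul_eq_one this |>.resolve_right (by linarith)
            · nlinarith
          have e4 : U 1 1 = 1 := by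
            rcases hdet' with h | h
            · have : U 1 1 * U 0 0 = 1 := by linarith
              exact Int.eq_one_or_neg_one_of_mul_eq_one this |>.resolve_right (by linarith)
            · nlinarith
          have eU : U = 1 := by
            ext i j
            fin_cases i <;> fin_cases j
            · exact e3
            · exact e2
            · exact e1
            · exact e4
          rw [eU, Matrix.mul_one, Matrix.one_mul] at hAB
          rw [hAB]

/-- similar matrices with positive off-diagonal entries are joined by shears -/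
theorem river {A B U : Matrix (Fin 2) (Fin 2) ℤ} (hA : Riv A) (hB : Riv B)
    (hdet : U.det = 1 ∨ U.det = -1) (h : A * U = U * B) : Relation.ReflTransGen RStep A B := by
  obtain ⟨hq1, hq2⟩ := quad h
  obtain ⟨hb, hc⟩ := hA
  obtain ⟨hb', hc'⟩ := hB
  have hsq : U.det * U.det = 1 := by rcases hdet with h | h <;> rw [h] <;> norm_num
  obtain ⟨V, hV⟩ : ∃ V : Matrix (Fin 2) (Fin 2) ℤ, V = !![U 1 1, -U 0 1; -U 1 0, U 0 0] :=
    ⟨_, rfl⟩
  have hVdet : V.det = U.det := by
    rw [hV, Matrix.det_fin_two_of, Matrix.det_fin_two]; ring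
  have hUV : U * V = U.det • (1 : Matrix (Fin 2) (Fin 2) ℤ) := by
    rw [hV, Matrix.det_fin_two]
    ext i j
    fin_cases i <;> fin_cases j <;> simp [Matrix.mul_apply, Fin.sum_univ_two] <;> ring
  have hVU : V * U = U.det • (1 : Matrix (Fin 2) (Fin 2) ℤ) := by
    rw [hV, Matrix.det_fin_two]
    ext i j
    fin_cases i <;> fin_cases j <;> simp [Matrix.mul_apply, Fin.sum_univ_two] <;> ring
  have hBV : B * V = V * A := by
    have h1 : V * (A * U) * V = V * (U * B) * V := by rw [h]
    have h2 : V * (A * U) * V = U.det • (V * A) := by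
      rw [← Matrix.mul_assoc, Matrix.mul_assoc (V * A) U V, hUV, Matrix.mul_smul,
        Matrix.mul_one]
    have h3 : V * (U * B) * V = U.det • (B * V) := by
      rw [← Matrix.mul_assoc, hVU, Matrix.smul_mul, Matrix.one_mul, Matrix.smul_mul]
    rw [h2, h3] at h1
    have h4 := congrArg (fun M => U.det • M) h1
    simp only [smul_smul, hsq, one_smul] at h4
    exact h4.symm
  have hcases := sign_cases (b := A 0 1) (c := A 1 0) (e := A 1 1 - A 0 0) (p := U 0 0)
    (q := U 0 1) (r := U 1 0) (s := U 1 1) (σ := U.det) hb hc hdet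
    (by rw [Matrix.det_fin_two]) (by
      rw [hq1, ← mul_assoc, hsq, one_mul]; exact hc') (by
      rw [hq2, mul_neg, ← mul_assoc, hsq, one_mul]; linarith)
  rcases hcases with ⟨h1, h2, h3, h4⟩ | ⟨h1, h2, h3, h4⟩ | ⟨h1, h2, h3, h4⟩ | ⟨h1, h2, h3, h4⟩
  · refine nonneg_chain (U 0 0 + U 0 1 + U 1 0 + U 1 1).toNat A B U ?_ (Int.self_le_toNat _) hdet
      ⟨hb, hc⟩ ⟨hb', hc'⟩ h
    intro i j
    fin_cases i <;> fin_cases j
    · exact h1
    · exact h2
    · exact h3
    · exact h4
  · refine nonneg_chain ((-U) 0 0 + (-U) 0 1 + (-U) 1 0 + (-U) 1 1).toNat A B (-U) ?_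
      (Int.self_le_toNat _) ?_ ⟨hb, hc⟩ ⟨hb', hc'⟩ (by rw [Matrix.mul_neg, Matrix.neg_mul, h])
    · intro i j
      rw [Matrix.neg_apply]
      fin_cases i <;> fin_cases j
      · show 0 ≤ -U 0 0
        linarith
      · show 0 ≤ -U 0 1
        linarith
      · show 0 ≤ -U 1 0
        linarith
      · show 0 ≤ -U 1 1
        linarith
    · have : (-U).det = U.det := by
        rw [Matrix.det_fin_two, Matrix.det_fin_two]
        simp only [Matrix.neg_apply]
        ring
      rw [this]; exact hdet
  · refine rstep_symm (nonneg_chain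
      (V 0 0 + V 0 1 + V 1 0 + V 1 1).toNat B A V ?_ (Int.self_le_toNat _)
      (by rw [hVdet]; exact hdet) ⟨hb', hc'⟩ ⟨hb, hc⟩ hBV)
    rw [hV]
    intro i j
    fin_cases i <;> fin_cases j
    · exact h4
    · show 0 ≤ -U 0 1
      linarith
    · show 0 ≤ -U 1 0
      linarith
    · exact h1
  · refine rstep_symm (nonneg_chain
      ((-V) 0 0 + (-V) 0 1 + (-V) 1 0 + (-V) 1 1).toNat B A (-V) ?_ (Int.self_le_toNat _)
      ?_ ⟨hb', hc'⟩ ⟨hb, hc⟩ (by rw [Matrix.mul_neg, Matrix.neg_mul, hBV]))
    · rw [hV]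
      intro i j
      rw [Matrix.neg_apply]
      fin_cases i <;> fin_cases j
      · show 0 ≤ -U 1 1
        linarith
      · show 0 ≤ - -U 0 1
        linarith
      · show 0 ≤ - -U 1 0
        linarith
      · show 0 ≤ -U 0 0
        linarith
    · have : (-V).det = V.det := by
        rw [Matrix.det_fin_two, Matrix.det_fin_two]
        simp only [Matrix.neg_apply]
        ring
      rw [this, hVdet]; exact hdet

end Pool.Agent.U783.PT
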