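import Pool.Agent.U783.PT.Path

/-!
# Changing the lattice
-/

set_option autoImplicit false

namespace Pool.Agent.U783.PT

open Matrix Filter Topology

variable {ν : Type} [Fintype ν] [DecidableEq ν] [Nonempty ν]

/-- links along a relation between integer matrices -/
def L2 (A0 : Matrix ν ν ℝ) (C : Matrix ν ν ℤ → Matrix ν ν ℤ → Prop) (F F' : Fr ν) : Prop :=
  ∃ R : ℤ, ∃ ε : ℝ, 0 < ε ∧ ∃ T : ℝ, ∀ t : ℝ, T ≤ t → ∀ A B : Matrix ν ν ℤ, Near A0 ε t A →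
    C A B → ∀ (N : Matrix F.η F.κ ℤ) (N' : Matrix F'.η F'.κ ℤ), (∀ i j, R ≤ N i j) →
      (∀ i j, R ≤ N' i j) → F.H * N * F.Th = A → F'.H * N' * F'.Th = B →
      QI (F.Th * F.H * N) (F'.Th * F'.H * N')

omit [Nonempty ν] in
lemma L2.mono {A0 : Matrix ν ν ℝ} {C C' : Matrix ν ν ℤ → Matrix ν ν ℤ → Prop} {F F' : Fr ν}
    (h : L2 A0 C F F') (hC : ∀ A B, C' A B → C A B) : L2 A0 C' F F' := by
  obtain ⟨R, ε, hε, T, hT⟩ := h
  exact ⟨R, ε, hε, T, fun t ht A B hA hAB => hT t ht A B hA (hC A B hAB)⟩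

omit [Nonempty ν] in
lemma L2.iUnion {A0 : Matrix ν ν ℝ} {ι : Type} [Finite ι]
    {C : ι → Matrix ν ν ℤ → Matrix ν ν ℤ → Prop} {F F' : Fr ν}
    (h : ∀ i, L2 A0 (C i) F F') : L2 A0 (fun A B => ∃ i, C i A B) F F' := by
  have := Fintype.ofFinite ι
  choose R ε hε T hT using h
  rcases isEmpty_or_nonempty ι with h1 | h1
  · exact ⟨0, 1, one_pos, 0, fun t ht A B hA ⟨i, _⟩ => (h1.elim i)⟩
  obtain ⟨i0, hi0⟩ := Finite.exists_min ε
  refine ⟨∑ i, |R i|, ε i0, hε i0, ∑ i, |T i|, ?_⟩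
  rintro t ht A B hA ⟨i, hi⟩ N N' hN hN' h2 h3
  have hT0 : 0 ≤ ∑ i, |T i| := Finset.sum_nonneg fun _ _ => abs_nonneg _
  have hR : R i ≤ ∑ i, |R i| := (le_abs_self _).trans
    (Finset.single_le_sum (f := fun i => |R i|) (fun _ _ => abs_nonneg _) (Finset.mem_univ i))
  have hTi : T i ≤ ∑ i, |T i| := (le_abs_self _).trans
    (Finset.single_le_sum (f := fun i => |T i|) (fun _ _ => abs_nonneg _) (Finset.mem_univ i))
  exact hT i t (hTi.trans ht) A B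
    (fun a b => (hA a b).trans (mul_le_mul_of_nonneg_right (hi0 i) (hT0.trans ht))) hi N N'
    (fun a b => hR.trans (hN a b)) (fun a b => hR.trans (hN' a b)) h2 h3

omit [Nonempty ν] in
lemma L2.comp {A0 B0 : Matrix ν ν ℝ} {C C' : Matrix ν ν ℤ → Matrix ν ν ℤ → Prop}
    {F G F' : Fr ν} (hvG : Val B0 G.H G.Th) (c : ℝ) (hc : 0 ≤ c)
    (hn : ∀ ε t : ℝ, 0 ≤ ε → 0 ≤ t → ∀ A A1, Near A0 ε t A → C A A1 → Near B0 (c * ε) t A1)
    (h1 : L2 A0 C F G) (h2 : L2 B0 C' G F') :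
    L2 A0 (fun A B => ∃ A1, C A A1 ∧ C' A1 B) F F' := by
  obtain ⟨R1, ε1, hε1, T1, hT1⟩ := h1
  obtain ⟨R2, ε2, hε2, T2, hT2⟩ := h2
  obtain ⟨M, hM, hM2⟩ := hvG
  obtain ⟨ε3, hε3, T3, hT3⟩ := exist G.H G.H' G.Th G.Th' G.hH G.hT B0 M hM hM2 (max R1 R2)
  refine ⟨max R1 R2, min ε1 (min ε2 ε3 / (c + 1)), by positivity, max 0 (max T1 (max T2 T3)), ?_⟩
  rintro t ht A B hA ⟨A1, hA1, hB⟩ N N' hN hN' e1 e2
  simp only [max_le_iff] at ht
  obtain ⟨ht0, ht1, ht2, ht3⟩ := ht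
  have n1 : Near A0 ε1 t A := fun i j => (hA i j).trans
    (mul_le_mul_of_nonneg_right (min_le_left _ _) ht0)
  have n2 : Near A0 (min ε2 ε3 / (c + 1)) t A := fun i j => (hA i j).trans
    (mul_le_mul_of_nonneg_right (min_le_right _ _) ht0)
  have n3 := hn _ t (by positivity) ht0 A A1 n2 hA1
  have hcc : c * (min ε2 ε3 / (c + 1)) ≤ min ε2 ε3 := by
    rw [← mul_div_assoc, div_le_iff₀ (by linarith)]
    have : 0 < min ε2 ε3 := by positivity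
    nlinarith
  have n4 : Near B0 ε2 t A1 := fun i j => (n3 i j).trans
    (mul_le_mul_of_nonneg_right (hcc.trans (min_le_left _ _)) ht0)
  have n5 : Near B0 ε3 t A1 := fun i j => (n3 i j).trans
    (mul_le_mul_of_nonneg_right (hcc.trans (min_le_right _ _)) ht0)
  obtain ⟨L, hL, hL2⟩ := hT3 t ht3 A1 n5
  exact (hT1 t ht1 A A1 n1 hA1 N L (fun i j => (le_max_left _ _).trans (hN i j))
    (fun i j => (le_max_left _ _).trans (hL i j)) e1 hL2).trans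
    (hT2 t ht2 A1 B n4 hB L N' (fun i j => (le_max_right _ _).trans (hL i j))
    (fun i j => (le_max_right _ _).trans (hN' i j)) hL2 e2)

omit [DecidableEq ν] [Nonempty ν] in
lemma near_lin {A0 : Matrix ν ν ℝ} {A A1 : Matrix ν ν ℤ} {ε t : ℝ} (hε : 0 ≤ ε) (ht : 0 ≤ t)
    (L M : Matrix ν ν ℝ) (h : Near A0 ε t A) (h1 : rl A1 = L * rl A * M) :
    Near (L * A0 * M) (sz M * sz L * ε) t A1 := by
  intro i j
  have e : (A1 i j : ℝ) - t * (L * A0 * M) i j = (L * (rl A - t • A0) * M) i j := by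
    rw [Matrix.mul_sub, Matrix.sub_mul, ← h1, Matrix.mul_smul, Matrix.smul_mul,
      Matrix.sub_apply, Matrix.smul_apply, rl_apply, smul_eq_mul]
  rw [e]
  have h2 := abs_mul_mul_le L (rl A - t • A0) M (ε * t) (fun a b => by
    rw [Matrix.sub_apply, Matrix.smul_apply, rl_apply, smul_eq_mul]
    exact h a b) (mul_nonneg hε ht) i j
  calc _ ≤ _ := h2
    _ = _ := by ring

/-- One step down in the lattice. -/
theorem stage (A0 P Q : Matrix ν ν ℝ) (hPQ : P * Q = 1) (hB : PR (P * A0 * Q))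
    (R : Matrix ν ν ℤ) (Ri : Matrix ν ν ℝ) (hR : rl R * Ri = 1) (F F' : Fr ν)
    (hF : Ins F P Q) (hvF : Val A0 F.H F.Th) (hF' : Ins F' (P * rl R) (Ri * Q))
    (hvF' : Val (Ri * A0 * rl R) F'.H F'.Th) :
    L2 A0 (fun A B => ∃ S, A = R * S ∧ B = S * R) F F' := by
  have hRi : Ri * rl R = 1 := mul_eq_one_comm.mp hR
  have hQP : Q * P = 1 := mul_eq_one_comm.mp hPQ
  obtain ⟨B0, hB0⟩ : ∃ B0, B0 = Ri * A0 * rl R := ⟨_, rfl⟩
  rw [← hB0] at hvF'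
  have hPQ' : P * rl R * (Ri * Q) = 1 := by
    rw [← Matrix.mul_assoc, Matrix.mul_assoc P, hR, Matrix.mul_one, hPQ]
  have hconj : P * rl R * B0 * (Ri * Q) = P * A0 * Q := by
    rw [hB0]
    have e : P * rl R * (Ri * A0 * rl R) * (Ri * Q) =
        P * (rl R * Ri) * A0 * (rl R * Ri) * Q := by
      simp only [Matrix.mul_assoc]
    rw [e, hR, Matrix.mul_one, Matrix.mul_one]
  have hB' : PR (P * rl R * B0 * (Ri * Q)) := by rw [hconj]; exact hB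
  have hX1 : PR (P * rl R * (Ri * A0 * Q)) := by
    have e : P * rl R * (Ri * A0 * Q) = P * (rl R * Ri) * A0 * Q := by
      simp only [Matrix.mul_assoc]
    rw [e, hR, Matrix.mul_one]
    exact hB
  obtain ⟨G', hG', ⟨E, hE, hE'⟩, -, -, -, -, hvG'⟩ := tight (P * rl R) (Ri * Q) B0 hPQ' hB'
    (Ri * A0 * Q) (Ri * A0 * Q) (P * rl R * B0) (P * rl R * B0) hX1 hX1 hB' hB'
  have hY2 : PR (E * P * Q) := by
    rw [Matrix.mul_assoc, hPQ, Matrix.mul_one]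
    exact hE
  obtain ⟨G, hG, -, -, hFG, ⟨M2, hM2, hM2'⟩, -, hvG⟩ := tight P Q A0 hPQ hB (A0 * Q) (A0 * Q)
    (rl F.Th) (E * P) (by rw [← Matrix.mul_assoc]; exact hB)
    (by rw [← Matrix.mul_assoc]; exact hB) hF.2 hY2
  have hS0 : rl G'.H * M2 * rl G.Th = Ri * A0 := by
    rw [Matrix.mul_assoc, hM2', ← Matrix.mul_assoc, hE', Matrix.mul_assoc, hQP, Matrix.mul_one]
  have hv1 : Val A0 (R * G'.H) G.Th := by
    refine ⟨M2, hM2, ?_⟩
    rw [rl_mul, Matrix.mul_assoc (rl R), Matrix.mul_assoc (rl R), hS0, ← Matrix.mul_assoc, hR,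
      Matrix.one_mul]
  have hv2 : Val B0 G'.H (G.Th * R) := by
    refine ⟨M2, hM2, ?_⟩
    rw [rl_mul, ← Matrix.mul_assoc, hS0, hB0]
  have hpos : NN (G.Th * R * G'.H) := by
    apply PR.nn
    have e : rl (G.Th * R * G'.H) = rl G.Th * Q * (P * rl R * rl G'.H) := by
      rw [rl_mul, rl_mul]
      have e2 : rl G.Th * Q * (P * rl R * rl G'.H) = rl G.Th * (Q * P) * rl R * rl G'.H := by
        simp only [Matrix.mul_assoc]
      rw [e2, hQP, Matrix.mul_one]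
    rw [e]
    exact hG.2.mul hG'.1
  have l1 : Lk A0 F.H F.Th (R * G'.H) G.Th :=
    Lk.trans G.H' G.Th' G.hH G.hT hvG (lk_tight P Q A0 hPQ F G hF hG hvF hvG hFG)
      (lk_shareTh G.H G.H' (R * G'.H) G.Th G.Th' G.hH G.hT (nn_of P Q hQP _ _ hG.1 hG.2)
        (by rw [← Matrix.mul_assoc]; exact hpos) hvG hv1)
  have hQP' : Ri * Q * (P * rl R) = 1 := mul_eq_one_comm.mp hPQ'
  have l2 : Lk B0 G'.H (G.Th * R) F'.H F'.Th :=
    Lk.trans G'.H' G'.Th' G'.hH G'.hT hvG'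
      (lk_shareH G'.H G'.H' G'.Th G'.Th' (G.Th * R) G'.hH G'.hT
        (nn_of _ _ hQP' _ _ hG'.1 hG'.2) hpos hvG' hv2).symm
      (lk_inside _ _ B0 hPQ' hB' G' F' hG' hF' hvG' hvF')
  obtain ⟨R1, ε1, hε1, T1, hT1⟩ := l1
  obtain ⟨R2, ε2, hε2, T2, hT2⟩ := l2
  obtain ⟨ε3, hε3, T3, hT3⟩ := exist G'.H G'.H' G.Th G.Th' G'.hH G.hT (Ri * A0) M2 hM2 hS0
    (max R1 R2)
  obtain ⟨c1, hc1⟩ : ∃ c1 : ℝ, c1 = sz (rl R) * sz Ri := ⟨_, rfl⟩
  obtain ⟨c2, hc2⟩ : ∃ c2 : ℝ, c2 = sz (1 : Matrix ν ν ℝ) * sz Ri := ⟨_, rfl⟩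
  have hc10 : 0 ≤ c1 := by rw [hc1]; exact mul_nonneg (sz_nonneg _) (sz_nonneg _)
  have hc20 : 0 ≤ c2 := by rw [hc2]; exact mul_nonneg (sz_nonneg _) (sz_nonneg _)
  refine ⟨max R1 R2, min ε1 (min (ε2 / (c1 + 1)) (ε3 / (c2 + 1))), by positivity,
    max 0 (max T1 (max T2 T3)), ?_⟩
  rintro t ht A B hA ⟨S, hAS, hBS⟩ N N' hN hN' e1 e2
  simp only [max_le_iff] at ht
  obtain ⟨ht0, ht1, ht2, ht3⟩ := ht
  have n1 : Near A0 ε1 t A := fun i j => (hA i j).trans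
    (mul_le_mul_of_nonneg_right (min_le_left _ _) ht0)
  have n2 : Near A0 (ε2 / (c1 + 1)) t A := fun i j => (hA i j).trans
    (mul_le_mul_of_nonneg_right ((min_le_right _ _).trans (min_le_left _ _)) ht0)
  have n3 : Near A0 (ε3 / (c2 + 1)) t A := fun i j => (hA i j).trans
    (mul_le_mul_of_nonneg_right ((min_le_right _ _).trans (min_le_right _ _)) ht0)
  have hS : rl S = Ri * rl A := by
    rw [hAS, rl_mul, ← Matrix.mul_assoc, hRi, Matrix.one_mul]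
  have n4 := near_lin (by positivity) ht0 Ri (rl R) n2 (A1 := B) (by rw [hBS, rl_mul, hS])
  have n5 := near_lin (by positivity) ht0 Ri 1 n3 (A1 := S) (by rw [hS, Matrix.mul_one])
  rw [← hc1, ← hB0] at n4
  rw [← hc2, Matrix.mul_one] at n5
  have k4 : c1 * (ε2 / (c1 + 1)) ≤ ε2 := by
    rw [← mul_div_assoc, div_le_iff₀ (by linarith)]
    nlinarith
  have k5 : c2 * (ε3 / (c2 + 1)) ≤ ε3 := by
    rw [← mul_div_assoc, div_le_iff₀ (by linarith)]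
    nlinarith
  have m4 : Near B0 ε2 t B := fun i j => (n4 i j).trans (mul_le_mul_of_nonneg_right k4 ht0)
  have m5 : Near (Ri * A0) ε3 t S := fun i j => (n5 i j).trans
    (mul_le_mul_of_nonneg_right k5 ht0)
  obtain ⟨L, hL, hL2⟩ := hT3 t ht3 S m5
  have q1 := hT1 t ht1 A n1 N L (fun i j => (le_max_left _ _).trans (hN i j))
    (fun i j => (le_max_left _ _).trans (hL i j)) e1 (by
      rw [Matrix.mul_assoc R, Matrix.mul_assoc R, hL2, hAS])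
  have q2 := hT2 t ht2 B m4 L N' (fun i j => (le_max_right _ _).trans (hL i j))
    (fun i j => (le_max_right _ _).trans (hN' i j)) (by
      rw [← Matrix.mul_assoc, hL2, hBS]) e2
  rw [← Matrix.mul_assoc] at q1
  exact q1.trans q2

end Pool.Agent.U783.PT
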