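import Pool.Agent.U783.PT.Main

/-!
# Paths of `2 × 2` matrices
-/

set_option autoImplicit false

namespace Pool.Agent.U783.PT

open Matrix Filter Topology

/-- the path exists -/
theorem path2 (a0 b0 c0 d0 a1 b1 c1 d1 x y z w : ℝ) (ha0 : 0 < a0) (hb0 : 0 < b0) (hc0 : 0 < c0)
    (hd0 : 0 < d0) (ha1 : 0 < a1) (hb1 : 0 < b1) (hc1 : 0 < c1) (hd1 : 0 < d1)
    (htr : a0 + d0 = a1 + d1) (hdt : a0 * d0 - b0 * c0 = a1 * d1 - b1 * c1)
    (h1 : a0 * x + b0 * z = x * a1 + y * c1) (h2 : c0 * x + d0 * z = z * a1 + w * c1)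
    (hdet : 0 < x * w - y * z) (hβ : 0 < 2 * c0 * x + (d0 - a0) * z) :
    ∃ C D : unitInterval → Matrix (Fin 2) (Fin 2) ℝ, Continuous C ∧ Continuous D ∧
      (∀ s, D s * C s = 1) ∧ (∀ s, PR (D s * !![a0, b0; c0, d0] * C s)) ∧ C 0 = 1 ∧
      C 1 = !![x, y; z, w] := by
  obtain ⟨a, ha⟩ : ∃ a : unitInterval → ℝ, a = fun s : unitInterval => (1 - (s : ℝ)) * a0 + (s : ℝ) * a1 :=
    ⟨_, rfl⟩
  obtain ⟨c, hc⟩ : ∃ c : unitInterval → ℝ, c = fun s : unitInterval => (1 - (s : ℝ)) * c0 + (s : ℝ) * c1 :=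
    ⟨_, rfl⟩
  obtain ⟨d, hd⟩ : ∃ d : unitInterval → ℝ, d = fun s : unitInterval => (1 - (s : ℝ)) * d0 + (s : ℝ) * d1 :=
    ⟨_, rfl⟩
  obtain ⟨v, hv⟩ : ∃ v : unitInterval → ℝ, v = fun s : unitInterval => (1 - (s : ℝ)) * 1 + (s : ℝ) * x :=
    ⟨_, rfl⟩
  obtain ⟨u, hu⟩ : ∃ u : unitInterval → ℝ, u = fun s : unitInterval => (s : ℝ) * z := ⟨_, rfl⟩
  have conv : ∀ (s : unitInterval) (p q : ℝ), 0 < p → 0 < q → 0 < (1 - (s : ℝ)) * p + s * q := by
    intro s p q hp hq
    rcases eq_or_lt_of_le s.2.1 with h | h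
    · have h' : (s : ℝ) = 0 := h.symm
      rw [h']; linarith
    · have h3 : 0 < (s : ℝ) * q := mul_pos h hq
      have h4 : 0 ≤ (1 - (s : ℝ)) * p := mul_nonneg (by linarith [s.2.2]) hp.le
      linarith
  have hapos : ∀ s, 0 < a s := fun s => by rw [ha]; exact conv s _ _ ha0 ha1
  have hcpos : ∀ s, 0 < c s := fun s => by rw [hc]; exact conv s _ _ hc0 hc1
  have hdpos : ∀ s, 0 < d s := fun s => by rw [hd]; exact conv s _ _ hd0 hd1
  have had : ∀ s, a s + d s = a0 + d0 := by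
    intro s
    rw [ha, hd]
    simp only
    linear_combination (-(s : ℝ)) * htr
  have hbpos : ∀ s, 0 < a s * d s - (a0 * d0 - b0 * c0) := by
    intro s
    have e : a s * d s - (a0 * d0 - b0 * c0) = (1 - (s : ℝ)) * (b0 * c0) + s * (b1 * c1) +
        s * (1 - s) * (a0 - a1) ^ 2 := by
      have e1 : d1 = a0 + d0 - a1 := by linarith
      have e2 : b1 * c1 = a1 * d1 - (a0 * d0 - b0 * c0) := by linarith
      rw [ha, hd, e2, e1]
      simp only
      ring
    rw [e]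
    have h3 := conv s _ _ (mul_pos hb0 hc0) (mul_pos hb1 hc1)
    have h4 : 0 ≤ (s : ℝ) * (1 - s) * (a0 - a1) ^ 2 :=
      mul_nonneg (mul_nonneg s.2.1 (by linarith [s.2.2])) (sq_nonneg _)
    linarith
  have hq : ∀ s, 0 < c0 * v s ^ 2 + (d0 - a0) * v s * u s - b0 * u s ^ 2 := by
    intro s
    have hq1 : c0 * x ^ 2 + (d0 - a0) * x * z - b0 * z ^ 2 = c1 * (x * w - y * z) := by
      linear_combination x * h2 - z * h1
    have e : c0 * v s ^ 2 + (d0 - a0) * v s * u s - b0 * u s ^ 2 =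
        (1 - (s : ℝ)) * ((1 - s) * c0 + s * (2 * c0 * x + (d0 - a0) * z)) +
          s * (s * (c1 * (x * w - y * z))) := by
      rw [← hq1, hv, hu]
      simp only
      ring
    rw [e]
    rcases eq_or_lt_of_le s.2.1 with h | h
    · have h' : (s : ℝ) = 0 := h.symm
      rw [h']; linarith
    · have h3 : 0 < (s : ℝ) * (s * (c1 * (x * w - y * z))) :=
        mul_pos h (mul_pos h (mul_pos hc1 hdet))
      have h4 : 0 ≤ (1 - (s : ℝ)) * ((1 - s) * c0 + s * (2 * c0 * x + (d0 - a0) * z)) :=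
        mul_nonneg (by linarith [s.2.2]) (conv s _ _ hc0 hβ).le
      linarith
  obtain ⟨C, hC⟩ : ∃ C : unitInterval → Matrix (Fin 2) (Fin 2) ℝ, C = fun s =>
      !![v s, ((a0 * v s + b0 * u s) - a s * v s) / c s;
        u s, ((c0 * v s + d0 * u s) - a s * u s) / c s] := ⟨_, rfl⟩
  have cont : ∀ p q : ℝ, Continuous (fun s : unitInterval => (1 - (s : ℝ)) * p + s * q) := by
    intro p q
    fun_prop
  have ca : Continuous a := by rw [ha]; exact cont _ _
  have cc : Continuous c := by rw [hc]; exact cont _ _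
  have cv : Continuous v := by rw [hv]; exact cont _ _
  have cu : Continuous u := by rw [hu]; fun_prop
  have hCc : Continuous C := by
    rw [hC]
    refine continuous_matrix fun i j => ?_
    have hne : ∀ s, c s ≠ 0 := fun s => (hcpos s).ne'
    fin_cases i <;> fin_cases j
    · exact cv
    · exact (((continuous_const.mul cv).add (continuous_const.mul cu)).sub (ca.mul cv)).div cc hne
    · exact cu
    · exact (((continuous_const.mul cv).add (continuous_const.mul cu)).sub (ca.mul cu)).div cc hne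
  have hCdet : ∀ s, 0 < (C s).det := by
    intro s
    have e : (C s).det = (c0 * v s ^ 2 + (d0 - a0) * v s * u s - b0 * u s ^ 2) / c s := by
      rw [hC, Matrix.det_fin_two_of]
      ring
    rw [e]
    exact div_pos (hq s) (hcpos s)
  have hinv : ∀ s, (C s)⁻¹ * C s = 1 := fun s =>
    Matrix.nonsing_inv_mul _ (isUnit_iff_ne_zero.mpr (hCdet s).ne')
  refine ⟨C, fun s => (C s)⁻¹, hCc, ?_, hinv, ?_, ?_, ?_⟩
  · rw [continuous_iff_continuousAt]
    intro s
    exact ContinuousAt.comp (g := fun M : Matrix (Fin 2) (Fin 2) ℝ => M⁻¹)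
      (contAt_inv _ (hCdet s).ne') hCc.continuousAt
  · intro s
    have e : !![a0, b0; c0, d0] * C s =
        C s * !![a s, (a s * d s - (a0 * d0 - b0 * c0)) / c s; c s, d s] := by
      have hne := (hcpos s).ne'
      have hds : d s = a0 + d0 - a s := by linarith [had s]
      rw [hC, hds]
      ext i j
      fin_cases i <;> fin_cases j <;>
        simp [Matrix.mul_apply, Fin.sum_univ_two] <;> field_simp <;> ring
    show PR ((C s)⁻¹ * !![a0, b0; c0, d0] * C s)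
    rw [Matrix.mul_assoc, e, ← Matrix.mul_assoc, hinv, Matrix.one_mul]
    intro i j
    fin_cases i <;> fin_cases j
    · exact hapos s
    · exact div_pos (hbpos s) (hcpos s)
    · exact hcpos s
    · exact hdpos s
  · rw [hC]
    ext i j
    have hne := hc0.ne'
    fin_cases i <;> fin_cases j <;> simp [ha, hc, hv, hu]
    exact hne
  · rw [hC]
    ext i j
    have hne := hc1.ne'
    fin_cases i <;> fin_cases j <;> simp [ha, hc, hv, hu] <;> rw [div_eq_iff hne] <;> linarith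

/-- the local statement at `A0` for shift equivalences through `R` -/
def Loc {ν : Type} [Fintype ν] [DecidableEq ν] (A0 : Matrix ν ν ℝ) (R : Matrix ν ν ℤ) : Prop :=
  ∃ ε : ℝ, 0 < ε ∧ ∃ T : ℝ, ∀ t : ℝ, T ≤ t → ∀ A B : Matrix ν ν ℤ, Near A0 ε t A →
      A * R = R * B → (∃ (l : ℕ) (S : Matrix ν ν ℤ), A ^ l = R * S) →
      NN A ∧ NN B ∧ QI A B

lemma loc_pos (R : Matrix (Fin 2) (Fin 2) ℤ) (A0 B0 : Matrix (Fin 2) (Fin 2) ℝ) (hA0 : PR A0)
    (hB0 : PR B0) (h : A0 * rl R = rl R * B0) (hdet : 0 < R.det)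
    (hβ : 0 < 2 * A0 1 0 * R 0 0 + (A0 1 1 - A0 0 0) * R 1 0) : Loc A0 R := by
  have e00 := congrFun (congrFun h 0) 0
  have e01 := congrFun (congrFun h 0) 1
  have e10 := congrFun (congrFun h 1) 0
  have e11 := congrFun (congrFun h 1) 1
  simp only [Matrix.mul_apply, Fin.sum_univ_two, rl_apply] at e00 e01 e10 e11
  have hd : (0 : ℝ) < (R 0 0 : ℝ) * R 1 1 - (R 0 1 : ℝ) * R 1 0 := by
    rw [Matrix.det_fin_two] at hdet
    exact_mod_cast hdet
  have htr : A0 0 0 + A0 1 1 = B0 0 0 + B0 1 1 := by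
    have h1 : (A0 0 0 + A0 1 1) * ((R 0 0 : ℝ) * R 1 1 - (R 0 1 : ℝ) * R 1 0) =
        (B0 0 0 + B0 1 1) * ((R 0 0 : ℝ) * R 1 1 - (R 0 1 : ℝ) * R 1 0) := by
      linear_combination (R 1 1 : ℝ) * e00 - (R 1 0 : ℝ) * e01 + (R 0 0 : ℝ) * e11 -
        (R 0 1 : ℝ) * e10
    exact mul_right_cancel₀ hd.ne' h1
  have hdt : A0 0 0 * A0 1 1 - A0 0 1 * A0 1 0 = B0 0 0 * B0 1 1 - B0 0 1 * B0 1 0 := by
    have h1 := congrArg Matrix.det h
    rw [Matrix.det_mul, Matrix.det_mul, Matrix.det_fin_two A0, Matrix.det_fin_two B0,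
      Matrix.det_fin_two (rl R), mul_comm] at h1
    exact mul_left_cancel₀ hd.ne' h1
  obtain ⟨C, D, hC, hD, hDC, hpos, hC0, hC1⟩ := path2 (A0 0 0) (A0 0 1) (A0 1 0) (A0 1 1) (B0 0 0)
    (B0 0 1) (B0 1 0) (B0 1 1) (R 0 0) (R 0 1) (R 1 0) (R 1 1) (hA0 _ _) (hA0 _ _) (hA0 _ _)
    (hA0 _ _) (hB0 _ _) (hB0 _ _) (hB0 _ _) (hB0 _ _) htr hdt (by linarith) (by linarith) hd hβ
  refine se_path A0 R hdet.ne' C D hC hD hDC ?_ 0 1 hC0 ?_
  · intro s
    have h1 := hpos s
    rwa [← Matrix.eta_fin_two A0] at h1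
  · rw [hC1]
    ext i j
    fin_cases i <;> fin_cases j <;> rfl

lemma loc_neg (R : Matrix (Fin 2) (Fin 2) ℤ) (A0 B0 : Matrix (Fin 2) (Fin 2) ℝ) (hA0 : PR A0)
    (hB0 : PR B0) (h : A0 * rl R = rl R * B0) (hdet : 0 < R.det) : Loc A0 R := by
  rcases lt_trichotomy 0 (2 * A0 1 0 * (R 0 0 : ℝ) + (A0 1 1 - A0 0 0) * (R 1 0 : ℝ)) with hβ | hβ | hβ
  · exact loc_pos R A0 B0 hA0 hB0 h hdet hβ
  · exfalso
    have e00 := congrFun (congrFun h 0) 0
    have e10 := congrFun (congrFun h 1) 0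
    simp only [Matrix.mul_apply, Fin.sum_univ_two, rl_apply] at e00 e10
    have hd : (0 : ℝ) < (R 0 0 : ℝ) * R 1 1 - (R 0 1 : ℝ) * R 1 0 := by
      rw [Matrix.det_fin_two] at hdet
      exact_mod_cast hdet
    have h1 : (2 * A0 1 0 * (R 0 0 : ℝ) + (A0 1 1 - A0 0 0) * (R 1 0 : ℝ)) ^ 2 =
        4 * A0 1 0 * (B0 1 0 * ((R 0 0 : ℝ) * R 1 1 - (R 0 1 : ℝ) * R 1 0)) +
          ((A0 1 1 - A0 0 0) ^ 2 + 4 * A0 0 1 * A0 1 0) * (R 1 0 : ℝ) ^ 2 := by
      linear_combination 4 * A0 1 0 * ((R 0 0 : ℝ) * e10 - (R 1 0 : ℝ) * e00)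
    rw [← hβ] at h1
    have h2 : 0 < 4 * A0 1 0 * (B0 1 0 * ((R 0 0 : ℝ) * R 1 1 - (R 0 1 : ℝ) * R 1 0)) := by
      have := hA0 1 0
      have := hB0 1 0
      positivity
    have h3 : 0 ≤ ((A0 1 1 - A0 0 0) ^ 2 + 4 * A0 0 1 * A0 1 0) * (R 1 0 : ℝ) ^ 2 := by
      have := hA0 1 0
      have := hA0 0 1
      positivity
    linarith
  · have h1 : Loc A0 (-R) := by
      refine loc_pos (-R) A0 B0 hA0 hB0 ?_ ?_ ?_
      · rw [rl_neg, Matrix.mul_neg, Matrix.neg_mul, h]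
      · rw [Matrix.det_fin_two] at hdet ⊢
        simp only [Matrix.neg_apply]
        linarith
      · simp only [Matrix.neg_apply]
        push_cast
        linarith
    obtain ⟨ε, hε, T, hT⟩ := h1
    refine ⟨ε, hε, T, ?_⟩
    rintro t ht A B hA hAB ⟨l, S, hS⟩
    exact hT t ht A B hA (by rw [Matrix.mul_neg, Matrix.neg_mul, hAB])
      ⟨l, -S, by rw [Matrix.neg_mul, Matrix.mul_neg, neg_neg, hS]⟩

/-- the swap -/
def W : Matrix (Fin 2) (Fin 2) ℤ := !![0, 1; 1, 0]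

lemma W_mul_W : W * W = 1 := by
  unfold W
  ext i j
  fin_cases i <;> fin_cases j <;> simp

lemma NN_W : NN W := by
  unfold W
  intro i j
  fin_cases i <;> fin_cases j <;> simp

theorem local2 (R : Matrix (Fin 2) (Fin 2) ℤ) (A0 B0 : Matrix (Fin 2) (Fin 2) ℝ) (hA0 : PR A0)
    (hB0 : PR B0) (h : A0 * rl R = rl R * B0) (hdet : R.det ≠ 0) : Loc A0 R := by
  rcases lt_or_gt_of_ne hdet with hd | hd
  · have hW : rl W * rl W = 1 := by rw [← rl_mul, W_mul_W, rl_one]
    have h1 : Loc (rl W * A0 * rl W) (W * R) := by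
      refine loc_neg (W * R) (rl W * A0 * rl W) B0 ?_ hB0 ?_ ?_
      · have e : rl W * A0 * rl W = !![A0 1 1, A0 1 0; A0 0 1, A0 0 0] := by
          ext i j
          fin_cases i <;> fin_cases j <;> simp [W, Matrix.mul_apply, Fin.sum_univ_two]
        rw [e]
        intro i j
        fin_cases i <;> fin_cases j
        · exact hA0 1 1
        · exact hA0 1 0
        · exact hA0 0 1
        · exact hA0 0 0
      · have e : rl W * A0 * rl W * rl (W * R) = rl W * A0 * (rl W * rl W) * rl R := by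
          rw [rl_mul]
          simp only [Matrix.mul_assoc]
        rw [e, hW, Matrix.mul_one, Matrix.mul_assoc, h, rl_mul, Matrix.mul_assoc]
      · rw [Matrix.det_mul]
        have : W.det = -1 := by unfold W; rw [Matrix.det_fin_two_of]; norm_num
        rw [this]
        linarith
    obtain ⟨ε, hε, T, hT⟩ := h1
    obtain ⟨c, hc⟩ : ∃ c : ℝ, c = sz (rl W) * sz (rl W) := ⟨_, rfl⟩
    have hc0 : 0 ≤ c := by rw [hc]; exact mul_nonneg (sz_nonneg _) (sz_nonneg _)
    refine ⟨ε / (c + 1), by positivity, max 0 T, ?_⟩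
    rintro t ht A B hA hAB ⟨l, S, hS⟩
    have ht0 : 0 ≤ t := (le_max_left _ _).trans ht
    have n1 := near_lin (by positivity) ht0 (rl W) (rl W) hA (A1 := W * A * W)
      (by rw [rl_mul, rl_mul])
    rw [← hc] at n1
    have k : c * (ε / (c + 1)) ≤ ε := by
      rw [← mul_div_assoc, div_le_iff₀ (by linarith)]
      nlinarith
    have n2 : Near (rl W * A0 * rl W) ε t (W * A * W) := fun i j =>
      (n1 i j).trans (mul_le_mul_of_nonneg_right k ht0)
    have hpow : ∀ k : ℕ, (W * A * W) ^ k = W * A ^ k * W := by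
      intro k
      induction k with
      | zero => rw [pow_zero, pow_zero, Matrix.mul_one, W_mul_W]
      | succ k ih =>
        rw [pow_succ, ih, pow_succ]
        have e : W * A ^ k * W * (W * A * W) = W * (A ^ k * (W * W) * A) * W := by
          simp only [Matrix.mul_assoc]
        rw [e, W_mul_W, Matrix.mul_one]
    obtain ⟨g1, g2, g3⟩ := hT t ((le_max_right _ _).trans ht) (W * A * W) B n2 (by
        have e : W * A * W * (W * R) = W * A * (W * W) * R := by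
          simp only [Matrix.mul_assoc]
        rw [e, W_mul_W, Matrix.mul_one, Matrix.mul_assoc, hAB, Matrix.mul_assoc])
      ⟨l, S * W, by
        rw [hpow, hS]
        simp only [Matrix.mul_assoc]⟩
    have eA : W * (W * A * W) * W = A := by
      have e : W * (W * A * W) * W = (W * W) * A * (W * W) := by
        simp only [Matrix.mul_assoc]
      rw [e, W_mul_W, Matrix.one_mul, Matrix.mul_one]
    have gA : NN A := by
      rw [← eA]
      exact (NN_W.mul g1).mul NN_W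
    refine ⟨gA, g2, QI.trans ?_ g3⟩
    have q := QI.move W (W * A) NN_W (NN_W.mul gA)
    rwa [← Matrix.mul_assoc, W_mul_W, Matrix.one_mul] at q
  · exact loc_neg R A0 B0 hA0 hB0 h hd

end Pool.Agent.U783.PT
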