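import Pool.Agent.U783.PT.Two

/-!
# Uniformity
-/

set_option autoImplicit false

namespace Pool.Agent.U783.PT

open Matrix Filter Topology

/-- compactness -/
theorem uniform {ν : Type} [Fintype ν] [DecidableEq ν] (R : Matrix ν ν ℤ)
    (K : Set (Matrix ν ν ℝ)) (hK : IsCompact K) (h : ∀ A0 ∈ K, Loc A0 R) :
    ∃ T : ℝ, ∀ t : ℝ, T ≤ t → ∀ A B : Matrix ν ν ℤ, (∃ X ∈ K, rl A = t • X) →
      A * R = R * B → (∃ (l : ℕ) (S : Matrix ν ν ℤ), A ^ l = R * S) →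
      NN A ∧ NN B ∧ QI A B := by
  refine hK.induction_on (p := fun K => ∃ T : ℝ, ∀ t : ℝ, T ≤ t → ∀ A B : Matrix ν ν ℤ,
      (∃ X ∈ K, rl A = t • X) → A * R = R * B →
      (∃ (l : ℕ) (S : Matrix ν ν ℤ), A ^ l = R * S) → NN A ∧ NN B ∧ QI A B) ?_ ?_ ?_ ?_
  · exact ⟨0, fun t _ A B ⟨X, hX, _⟩ => absurd hX (Set.notMem_empty X)⟩
  · rintro s s' hs ⟨T, hT⟩
    exact ⟨T, fun t ht A B ⟨X, hX, hX2⟩ => hT t ht A B ⟨X, hs hX, hX2⟩⟩
  · rintro s s' ⟨T, hT⟩ ⟨T', hT'⟩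
    refine ⟨max T T', ?_⟩
    rintro t ht A B ⟨X, hX | hX, hX2⟩
    · exact hT t ((le_max_left _ _).trans ht) A B ⟨X, hX, hX2⟩
    · exact hT' t ((le_max_right _ _).trans ht) A B ⟨X, hX, hX2⟩
  · intro A0 hA0
    obtain ⟨ε, hε, T, hT⟩ := h A0 hA0
    refine ⟨{Y | ∀ i j, |Y i j - A0 i j| ≤ ε}, mem_nhdsWithin_of_mem_nhds ?_, max 0 T, ?_⟩
    · have h1 := ev_pos (fun Y : Matrix ν ν ℝ => (fun i j => ε - |Y i j - A0 i j| : Matrix ν ν ℝ))
        A0 (by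
          apply Continuous.continuousAt
          refine continuous_matrix fun i j => ?_
          exact continuous_const.sub (((continuous_apply_apply i j).sub continuous_const).abs))
        (by
          intro i j
          simpa using hε)
      filter_upwards [h1] with Y hY i j
      have := hY i j
      linarith
    · rintro t ht A B ⟨X, hX, hX2⟩ h1 h2
      refine hT t ((le_max_right _ _).trans ht) A B ?_ h1 h2
      intro i j
      have ht0 : 0 ≤ t := (le_max_left _ _).trans ht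
      have h3 := congrFun (congrFun hX2 i) j
      rw [rl_apply, Matrix.smul_apply, smul_eq_mul] at h3
      rw [h3, ← mul_sub, abs_mul, abs_of_nonneg ht0, mul_comm]
      exact mul_le_mul_of_nonneg_right (hX i j) ht0

/-- the uniform statement for `2 × 2` matrices, with one `R` -/
theorem uniform2 (δ : ℝ) (hδ : 0 < δ) (R : Matrix (Fin 2) (Fin 2) ℤ) (hR : R.det ≠ 0) :
    ∃ T : ℝ, ∀ t : ℝ, T ≤ t → ∀ A B : Matrix (Fin 2) (Fin 2) ℤ,
      (∀ i j, δ * t ≤ A i j ∧ (A i j : ℝ) ≤ t ∧ δ * t ≤ B i j) →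
      A * R = R * B → (∃ (l : ℕ) (S : Matrix (Fin 2) (Fin 2) ℤ), A ^ l = R * S) →
      QI A B := by
  obtain ⟨Ri, hRi⟩ := real_inv R hR
  have hRi' : Ri * rl R = 1 := mul_eq_one_comm.mp hRi
  obtain ⟨K, hK⟩ : ∃ K : Set (Matrix (Fin 2) (Fin 2) ℝ),
      K = {X | ∀ i j, δ ≤ X i j ∧ X i j ≤ 1} ∩ {X | ∀ i j, δ ≤ (Ri * X * rl R) i j} := ⟨_, rfl⟩
  have hKc : IsCompact K := by
    rw [hK]
    refine IsCompact.inter_right ?_ ?_
    · have h1 : IsCompact (Set.Icc (fun _ _ => δ) (fun _ _ => 1) : Set (Fin 2 → Fin 2 → ℝ)) :=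
        isCompact_Icc
      have e : ({X | ∀ i j, δ ≤ X i j ∧ X i j ≤ 1} : Set (Matrix (Fin 2) (Fin 2) ℝ)) =
          (Set.Icc (fun _ _ => δ) (fun _ _ => 1) : Set (Fin 2 → Fin 2 → ℝ)) := by
        ext X
        exact ⟨fun h => ⟨fun i j => (h i j).1, fun i j => (h i j).2⟩,
          fun h i j => ⟨h.1 i j, h.2 i j⟩⟩
      rw [e]
      exact h1
    · have e : {X : Matrix (Fin 2) (Fin 2) ℝ | ∀ i j, δ ≤ (Ri * X * rl R) i j} =
          ⋂ i, ⋂ j, {X | δ ≤ (Ri * X * rl R) i j} := by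
        ext X
        simp
      rw [e]
      refine isClosed_iInter fun i => isClosed_iInter fun j => ?_
      refine isClosed_le continuous_const ?_
      exact (continuous_apply_apply i j).comp
        ((continuous_const.matrix_mul continuous_id).matrix_mul continuous_const)
  obtain ⟨T, hT⟩ := uniform R K hKc (by
    intro A0 hA0
    rw [hK] at hA0
    obtain ⟨h1, h3⟩ := hA0
    refine local2 R A0 (Ri * A0 * rl R) (fun i j => hδ.trans_le (h1 i j).1)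
      (fun i j => hδ.trans_le (h3 i j)) ?_ hR
    rw [← Matrix.mul_assoc, ← Matrix.mul_assoc, hRi, Matrix.one_mul])
  refine ⟨max T 1, ?_⟩
  intro t ht A B hAB h1 h2
  have ht1 : 1 ≤ t := (le_max_right _ _).trans ht
  have ht0 : 0 < t := by linarith
  refine (hT t ((le_max_left _ _).trans ht) A B ⟨t⁻¹ • rl A, ?_, ?_⟩ h1 h2).2.2
  · rw [hK]
    refine ⟨fun i j => ⟨?_, ?_⟩, fun i j => ?_⟩
    · show δ ≤ (t⁻¹ • rl A) i j
      rw [Matrix.smul_apply, rl_apply, smul_eq_mul, inv_mul_eq_div, le_div_iff₀ ht0]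
      exact (hAB i j).1
    · show (t⁻¹ • rl A) i j ≤ 1
      rw [Matrix.smul_apply, rl_apply, smul_eq_mul, inv_mul_eq_div, div_le_one₀ ht0]
      exact (hAB i j).2.1
    · have e : Ri * (t⁻¹ • rl A) * rl R = t⁻¹ • rl B := by
        rw [Matrix.mul_smul, Matrix.smul_mul, Matrix.mul_assoc, ← rl_mul, h1, rl_mul,
          ← Matrix.mul_assoc, hRi', Matrix.one_mul]
      rw [e, Matrix.smul_apply, rl_apply, smul_eq_mul, inv_mul_eq_div, le_div_iff₀ ht0]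
      exact (hAB i j).2.2
  · rw [smul_smul, mul_inv_cancel₀ ht0.ne', one_smul]

/-- the uniform statement for `2 × 2` matrices -/
theorem uniform2' (δ : ℝ) (hδ : 0 < δ) (k : ℕ) :
    ∃ T : ℝ, ∀ t : ℝ, T ≤ t → ∀ A B : Matrix (Fin 2) (Fin 2) ℤ,
      (∀ i j, δ * t ≤ A i j ∧ (A i j : ℝ) ≤ t ∧ δ * t ≤ B i j) →
      ∀ R : Matrix (Fin 2) (Fin 2) ℤ, R.det ≠ 0 → (∀ i j, |R i j| ≤ k) →
      A * R = R * B → (∃ (l : ℕ) (S : Matrix (Fin 2) (Fin 2) ℤ), A ^ l = R * S) →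
      QI A B := by
  have hfin : Finite {R : Matrix (Fin 2) (Fin 2) ℤ // R.det ≠ 0 ∧ ∀ i j, |R i j| ≤ k} := by
    have h1 : (Set.Icc (fun _ _ => -(k : ℤ) : Fin 2 → Fin 2 → ℤ) (fun _ _ => (k : ℤ))).Finite :=
      Set.finite_Icc _ _
    refine (h1.subset ?_ : {R : Matrix (Fin 2) (Fin 2) ℤ | R.det ≠ 0 ∧
      ∀ i j, |R i j| ≤ k}.Finite)
    rintro R ⟨-, hR⟩
    exact ⟨fun i j => (abs_le.mp (hR i j)).1, fun i j => (abs_le.mp (hR i j)).2⟩
  have := Fintype.ofFinite {R : Matrix (Fin 2) (Fin 2) ℤ // R.det ≠ 0 ∧ ∀ i j, |R i j| ≤ k}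
  choose T hT using fun R : {R : Matrix (Fin 2) (Fin 2) ℤ // R.det ≠ 0 ∧ ∀ i j, |R i j| ≤ k} =>
    uniform2 δ hδ R.1 R.2.1
  refine ⟨∑ R, |T R|, ?_⟩
  intro t ht A B hAB R hR1 hR2 h1 h2
  refine hT ⟨R, hR1, hR2⟩ t ?_ A B hAB h1 h2
  refine le_trans ?_ ht
  exact (le_abs_self _).trans (Finset.single_le_sum (f := fun R => |T R|)
    (fun _ _ => abs_nonneg _) (Finset.mem_univ _))

end Pool.Agent.U783.PT
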